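import Pool.Agent.Lib.MP_0f5a55_nt.RQ.F01
import Pool.Agent.Lib.MP_0f5a55_nt.FF.F08

/-!
Four different primitive characters: both cases together.
-/

open Complex MeasureTheory Set Filter Topology
open scoped Real ComplexConjugate

namespace RQ

open OO

/-- Four different primitive characters of any moduli: infinitely many g > 0 with odd total multiplicity. -/
theorem odd4_all {q1 q2 q3 q4 : ℕ} [NeZero q1] [NeZero q2] [NeZero q3] [NeZero q4] {χ1 : DirichletCharacter ℂ q1}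
    {χ2 : DirichletCharacter ℂ q2} {χ3 : DirichletCharacter ℂ q3} {χ4 : DirichletCharacter ℂ q4}
    (h1 : χ1.IsPrimitive) (h2 : χ2.IsPrimitive) (h3 : χ3.IsPrimitive) (h4 : χ4.IsPrimitive)
    (n12 : Ne12 χ1 χ2) (n13 : Ne12 χ1 χ3) (n14 : Ne12 χ1 χ4) (n23 : Ne12 χ2 χ3) (n24 : Ne12 χ2 χ4)
    (n34 : Ne12 χ3 χ4) :
    {g : ℝ | 0 < g ∧ Odd (analyticOrderNatAt (LX.Lf χ1) (1 / 2 + g * I) +
      analyticOrderNatAt (LX.Lf χ2) (1 / 2 + g * I) + analyticOrderNatAt (LX.Lf χ3) (1 / 2 + g * I) +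
      analyticOrderNatAt (LX.Lf χ4) (1 / 2 + g * I))}.Infinite := by
  by_cases hsq : IsSquare (q1 * q2 * (q3 * q4))
  · exact odd4_rat h1 h2 h3 h4 n12 n34 n13 n14 n23 n24 hsq
  · refine FF.odd4_irr h1 h2 h3 h4 n12 n13 n14 n23 n24 n34 ?_
    rw [mul_assoc (q1 * q2)]
    exact hsq

end RQ
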