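import Pool.Agent.Lib.MP_0f5a55_nt.RQ.D
import Pool.Agent.Lib.MP_0f5a55_nt.OM.K010
import Pool.Agent.Lib.MP_0f5a55_nt.FF.D

/-!
Bridge: the main integral of the RQ frame is the correlation integral of the FF frame.
-/

open Complex MeasureTheory Set Filter Topology
open scoped Real ComplexConjugate

namespace RQ

open OO

private lemma br_LA (f : ℕ → ℂ) {n : ℕ} (hn : n ≠ 0) : LA f 0 0 n = f n := by
  have h0 : LZ.wt 0 = 1 := by simp [LZ.wt]
  unfold LA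
  simp [hn, h0]

theorem co_eq_cv {q1 q2 : ℕ} (χ1 : DirichletCharacter ℂ q1) (χ2 : DirichletCharacter ℂ q2) (n : ℕ) :
    co χ1 χ2 n = II.cv χ1 χ2 n := by
  unfold co lamF II.cv
  rw [ArithmeticFunction.mul_apply]
  refine Finset.sum_congr rfl (fun x hx => ?_)
  have h := Nat.mem_divisorsAntidiagonal.mp hx
  have h1 : x.1 ≠ 0 := by
    intro h1
    rw [h1, zero_mul] at h
    exact h.2 h.1.symm
  have h2 : x.2 ≠ 0 := by
    intro h2
    rw [h2, mul_zero] at h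
    exact h.2 h.1.symm
  rw [br_LA _ h1, br_LA _ h2]
  rfl

theorem tht_eq {q1 q2 : ℕ} (h1 : 0 < q1) (h2 : 0 < q2) : FF.tht q1 q2 = Real.exp (-(T_psi q1 q2)) := by
  unfold FF.tht T_psi
  have h : (0 : ℝ) < (q1 : ℝ) * q2 := by positivity
  rw [Real.exp_neg]
  congr 1
  rw [Real.sqrt_eq_rpow, Real.rpow_def_of_pos h]
  congr 1
  ring

theorem FS_eq_FE {q1 q2 : ℕ} (h1 : 0 < q1) (h2 : 0 < q2) (χ1 : DirichletCharacter ℂ q1)
    (χ2 : DirichletCharacter ℂ q2) (ε u : ℝ) :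
    FS (co χ1 χ2) (zz ε * (Real.exp (u - T_psi q1 q2) : ℝ)) =
      II.FE (II.cv χ1 χ2) (FF.tht q1 q2) ε (Real.exp u) := by
  unfold FS II.FE
  have hinj : Function.Injective Nat.succ := Nat.succ_injective
  rw [← hinj.tsum_eq]
  · refine tsum_congr (fun n => ?_)
    rw [co_eq_cv, tht_eq h1 h2, sub_eq_add_neg, Real.exp_add]
    congr 2
    have : zz ε = II.om ε := rfl
    rw [this]
    push_cast
    ring
  · intro n hn
    rcases n with _ | n
    · exfalso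
      apply hn
      simp
    · exact ⟨n, rfl⟩

/-- the main integral of one frame is the correlation integral of the other one -/
theorem M0_eq_JJ {q1 q2 q3 q4 : ℕ} (p1 : 0 < q1) (p2 : 0 < q2) (p3 : 0 < q3) (p4 : 0 < q4)
    (χ1 : DirichletCharacter ℂ q1) (χ2 : DirichletCharacter ℂ q2) (χ3 : DirichletCharacter ℂ q3)
    (χ4 : DirichletCharacter ℂ q4) (ε : ℝ) :
    M0 (co χ1 χ2) (co χ3 χ4) (T_psi q1 q2) (T_psi q3 q4) ε = FF.JJ χ1 χ2 χ3 χ4 ε := by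
  unfold M0 FF.JJ
  refine integral_congr_ae (Eventually.of_forall (fun u => ?_))
  simp only
  rw [FS_eq_FE p1 p2, FS_eq_FE p3 p4, mul_assoc]

/-- comparison of the two kinds of bounds -/
theorem hM_of_log {F : ℝ → ℝ} (h : ∃ C ε0 : ℝ, 0 < ε0 ∧ ε0 ≤ 1 / 3 ∧ ∀ ε : ℝ, 0 < ε → ε ≤ ε0 →
      F ε ≤ C * ε⁻¹ * Real.log (1 / ε) ^ (3 / 4 : ℝ)) :
    ∀ d : ℝ, 0 < d → ∃ ε0 : ℝ, 0 < ε0 ∧ ∀ ε : ℝ, 0 < ε → ε ≤ ε0 → F ε ≤ d / ε * Real.log (1 / ε) := by
  intro d hd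
  obtain ⟨C, e0, h0, h1, H⟩ := h
  have hlim : Tendsto (fun ε : ℝ => Real.log (1 / ε) ^ (-(1 / 4) : ℝ) * |C|) (𝓝[>] 0) (𝓝 (0 * |C|)) := by
    refine Tendsto.mul_const _ ?_
    have t1 : Tendsto (fun ε : ℝ => Real.log (1 / ε)) (𝓝[>] 0) atTop := by
      have t0 : Tendsto (fun ε : ℝ => 1 / ε) (𝓝[>] 0) atTop := by
        have := tendsto_inv_nhdsGT_zero (𝕜 := ℝ)
        refine this.congr (fun x => ?_)
        rw [one_div]
      exact Real.tendsto_log_atTop.comp t0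
    exact (tendsto_rpow_neg_atTop (by norm_num : (0 : ℝ) < 1 / 4)).comp t1
  rw [zero_mul] at hlim
  have hev : ∀ᶠ ε in 𝓝[>] (0 : ℝ), Real.log (1 / ε) ^ (-(1 / 4) : ℝ) * |C| < d :=
    hlim.eventually (gt_mem_nhds hd)
  rw [eventually_nhdsWithin_iff, Metric.eventually_nhds_iff] at hev
  obtain ⟨e1, he1, hev⟩ := hev
  refine ⟨min e0 (e1 / 2), by positivity, ?_⟩
  intro ε hε hle
  have hle0 : ε ≤ e0 := hle.trans (min_le_left _ _)
  have hle1 : ε ≤ e1 / 2 := hle.trans (min_le_right _ _)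
  have hlog : 0 < Real.log (1 / ε) := by
    apply Real.log_pos
    rw [lt_div_iff₀ hε]
    linarith
  have hd1 : Real.log (1 / ε) ^ (-(1 / 4) : ℝ) * |C| < d := by
    refine hev ?_ hε
    rw [Real.dist_eq, sub_zero, abs_of_pos hε]
    linarith
  have hsplit : Real.log (1 / ε) ^ (3 / 4 : ℝ) = Real.log (1 / ε) * Real.log (1 / ε) ^ (-(1 / 4) : ℝ) := by
    have := Real.rpow_add hlog 1 (-(1 / 4) : ℝ)
    rw [Real.rpow_one] at this
    rw [← this]
    norm_num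
  calc F ε ≤ C * ε⁻¹ * Real.log (1 / ε) ^ (3 / 4 : ℝ) := H ε hε hle0
    _ ≤ |C| * ε⁻¹ * Real.log (1 / ε) ^ (3 / 4 : ℝ) := by
        gcongr
        exact le_abs_self C
    _ = (Real.log (1 / ε) ^ (-(1 / 4) : ℝ) * |C|) * (ε⁻¹ * Real.log (1 / ε)) := by
        rw [hsplit]; ring
    _ ≤ d * (ε⁻¹ * Real.log (1 / ε)) := by
        apply mul_le_mul_of_nonneg_right hd1.le
        positivity
    _ = d / ε * Real.log (1 / ε) := by
        field_simp

end RQ
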