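import Pool.Agent.Lib.MP_0f5a55_nt.TT.T00
import Pool.Agent.Lib.MP_0f5a55_nt.OM.K035

/-!
Definitions for the theorem on four primitive Dirichlet characters, pair kernels.
-/

open Complex MeasureTheory Set Filter Topology
open scoped Real ComplexConjugate

namespace RQ

open OO

/-- inverse Fourier transform -/
noncomputable def ft (r : ℝ → ℝ) (u : ℝ) : ℂ := (2 * (π : ℂ))⁻¹ * ∫ t : ℝ, (r t : ℂ) * exp (-(t * u * I))

/-- the kernel Phi(w) = integral of tau(u) e^u exp(-w e^u) -/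
noncomputable def Ph (w : ℂ) : ℂ := ∫ u : ℝ, ((TT.tau u * Real.exp u : ℝ) : ℂ) * exp (-(w * (Real.exp u : ℝ)))

/-- coefficients of L(s,χ1) L(s,χ2) -/
noncomputable def co {q1 q2 : ℕ} (χ1 : DirichletCharacter ℂ q1) (χ2 : DirichletCharacter ℂ q2) : ArithmeticFunction ℂ :=
  lamF (ch χ1) (ch χ2)

/-- 2 pi (n zz e^(-psi) + m conj zz e^(-psi')), psi, psi' = a, b -/
noncomputable def wf (a b ε : ℝ) (n m : ℕ) : ℂ :=
  2 * π * (n * (zz ε * (Real.exp (-a) : ℝ)) + m * conj (zz ε * (Real.exp (-b) : ℝ)))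

/-- the main integral -/
noncomputable def M0 (al be : ℕ → ℂ) (a b ε : ℝ) : ℂ :=
  ∫ u : ℝ, ((TT.tau u * Real.exp u : ℝ) : ℂ) * (FS al (zz ε * (Real.exp (u - a) : ℝ)) *
    conj (FS be (zz ε * (Real.exp (u - b) : ℝ))))

/-- sum over the divisors d of n with d * d < n -/
noncomputable def Sd (f : ℕ → ℂ) (n : ℕ) : ℂ := ∑ d ∈ n.divisors.filter (fun d => d * d < n), f d

/-- completely multiplicative, bounded by 1, partial sums bounded by K -/
def CM (f : ℕ → ℂ) (K : ℝ) : Prop :=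
  (∀ m n : ℕ, f (m * n) = f m * f n) ∧ (∀ n, ‖f n‖ ≤ 1) ∧ ∀ x : ℕ, ‖∑ n ∈ Finset.Icc 1 x, f n‖ ≤ K

/-- f restricted to the numbers prime to N -/
noncomputable def rs (f : ℕ → ℂ) (N n : ℕ) : ℂ := if Nat.Coprime n N then f n else 0

/-- the quotient character χ1 conj χ2 on the numbers prime to N -/
noncomputable def qc {q1 q2 : ℕ} (χ1 : DirichletCharacter ℂ q1) (χ2 : DirichletCharacter ℂ q2) (N : ℕ) : ℕ → ℂ :=
  rs (fun n => χ1 (n : ZMod q1) * conj (χ2 (n : ZMod q2))) N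

/-- pairs (n, m), n, m at least 1, with A n - B m = k and A n at most X -/
def LP (k : ℤ) (A B X : ℕ) : Finset (ℕ × ℕ) :=
  (Finset.Icc 1 X ×ˢ Finset.Icc 1 (X + k.natAbs)).filter (fun p => A * p.1 ≤ X ∧ (A : ℤ) * p.1 - B * p.2 = k)

end RQ
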