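import Pool.Agent.Lib.MP_0f5a55_nt.RQ.R04

open Complex MeasureTheory Set Filter Topology
open scoped Real ComplexConjugate

namespace RQ

open OO

private theorem M01_k {W : ℝ} (hW : 0 < W) :
    IntegrableOn (fun u : ℝ => Real.exp u * Real.exp (-(W * Real.exp u))) (Ioi (-1)) ∧
      ∫ u in Ioi (-1 : ℝ), Real.exp u * Real.exp (-(W * Real.exp u)) = Real.exp (-(W * Real.exp (-1))) / W := by
  have hd : ∀ x ∈ Ici (-1 : ℝ), HasDerivAt (fun u : ℝ => -(Real.exp (-(W * Real.exp u)) / W))
      (Real.exp x * Real.exp (-(W * Real.exp x))) x := by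
    intro x _
    have h1 : HasDerivAt (fun u : ℝ => -(W * Real.exp u)) (-(W * Real.exp x)) x :=
      ((Real.hasDerivAt_exp x).const_mul W).neg
    have h2 := ((h1.exp).div_const W).neg
    refine h2.congr_deriv ?_
    field_simp
  have hp : ∀ x ∈ Ioi (-1 : ℝ), 0 ≤ Real.exp x * Real.exp (-(W * Real.exp x)) := fun x _ => by positivity
  have ht : Tendsto (fun u : ℝ => -(Real.exp (-(W * Real.exp u)) / W)) atTop (𝓝 0) := by
    have h1 : Tendsto (fun u : ℝ => W * Real.exp u) atTop atTop := Real.tendsto_exp_atTop.const_mul_atTop hW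
    have h2 := (Real.tendsto_exp_neg_atTop_nhds_zero.comp h1).div_const W
    have h3 := h2.neg
    simpa using h3
  refine ⟨integrableOn_Ioi_deriv_of_nonneg' hd hp ht, ?_⟩
  rw [integral_Ioi_of_hasDerivAt_of_nonneg' hd hp ht]
  ring

/-- the kernel, integrated -/
private theorem M01_kt {w : ℂ} (hw : 0 < w.re) :
    Integrable (fun u : ℝ => ((TT.tau u * Real.exp u : ℝ) : ℂ) * exp (-(w * (Real.exp u : ℝ)))) ∧
      ∫ u : ℝ, ‖((TT.tau u * Real.exp u : ℝ) : ℂ) * exp (-(w * (Real.exp u : ℝ)))‖ ≤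
        Real.exp (-(w.re * Real.exp (-1))) / w.re := by
  obtain ⟨hi, hv⟩ := M01_k hw
  have hi' : Integrable (indicator (Ioi (-1 : ℝ)) fun u : ℝ => Real.exp u * Real.exp (-(w.re * Real.exp u))) :=
    hi.integrable_indicator measurableSet_Ioi
  have hb : ∀ u : ℝ, ‖((TT.tau u * Real.exp u : ℝ) : ℂ) * exp (-(w * (Real.exp u : ℝ)))‖ ≤
      indicator (Ioi (-1 : ℝ)) (fun u : ℝ => Real.exp u * Real.exp (-(w.re * Real.exp u))) u := by
    intro u
    have hn : ‖((TT.tau u * Real.exp u : ℝ) : ℂ) * exp (-(w * (Real.exp u : ℝ)))‖ =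
        TT.tau u * Real.exp u * Real.exp (-(w.re * Real.exp u)) := by
      rw [norm_mul, norm_real, Real.norm_eq_abs, abs_of_nonneg (mul_nonneg (TT.tau_nonneg u) (Real.exp_pos u).le),
        norm_exp, neg_re, re_mul_ofReal]
    rw [hn]
    by_cases hu : u ∈ Ioi (-1 : ℝ)
    · rw [indicator_of_mem hu]
      have h1 := TT.tau_le_one u
      have h2 : TT.tau u * Real.exp u ≤ 1 * Real.exp u := mul_le_mul_of_nonneg_right h1 (Real.exp_pos u).le
      rw [one_mul] at h2
      exact mul_le_mul_of_nonneg_right h2 (Real.exp_pos _).le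
    · rw [indicator_of_notMem hu, TT.tau_zero (not_lt.1 hu), zero_mul, zero_mul]
  have hc : Continuous fun u : ℝ => ((TT.tau u * Real.exp u : ℝ) : ℂ) * exp (-(w * (Real.exp u : ℝ))) := by
    have h1 := TT.tau_cont
    fun_prop
  have hint : Integrable (fun u : ℝ => ((TT.tau u * Real.exp u : ℝ) : ℂ) * exp (-(w * (Real.exp u : ℝ)))) :=
    hi'.mono' hc.aestronglyMeasurable (Eventually.of_forall hb)
  refine ⟨hint, ?_⟩
  calc ∫ u : ℝ, ‖((TT.tau u * Real.exp u : ℝ) : ℂ) * exp (-(w * (Real.exp u : ℝ)))‖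
      ≤ ∫ u : ℝ, indicator (Ioi (-1 : ℝ)) (fun u : ℝ => Real.exp u * Real.exp (-(w.re * Real.exp u))) u :=
        integral_mono hint.norm hi' hb
    _ = _ := by rw [integral_indicator measurableSet_Ioi, hv]

private theorem M01_wre (a b ε : ℝ) (n m : ℕ) :
    (wf a b ε n m).re = 2 * π * Real.sin ε * (n * Real.exp (-a) + m * Real.exp (-b)) := by
  have e1 : wf a b ε n m = ((2 * π : ℝ) : ℂ) * (((n : ℝ) : ℂ) * (zz ε * (Real.exp (-a) : ℝ)) +
      ((m : ℝ) : ℂ) * conj (zz ε * (Real.exp (-b) : ℝ))) := by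
    unfold wf
    push_cast
    ring
  rw [e1, re_ofReal_mul, add_re, re_ofReal_mul, re_ofReal_mul, conj_re, re_mul_ofReal, re_mul_ofReal, zz_re]
  ring

private theorem M01_sum {al : ℕ → ℂ} (ha : ∀ n : ℕ, ‖al n‖ ≤ 2 * √n) {c : ℝ} (hc : 0 < c) :
    Summable fun n : ℕ => ‖al n‖ * Real.exp (-(c * n)) := by
  have h1 := (Real.summable_pow_mul_exp_neg_nat_mul 1 hc).mul_left 2
  refine Summable.of_nonneg_of_le (fun n => by positivity) (fun n => ?_) h1
  have h2 : √(n : ℝ) ≤ n := by
    rcases Nat.eq_zero_or_pos n with rfl | hn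
    · simp
    · have h3 : (1 : ℝ) ≤ n := by exact_mod_cast hn
      rw [Real.sqrt_le_left (by linarith)]
      nlinarith
  rw [pow_one, ← mul_assoc]
  have h4 : -c * (n : ℝ) = -(c * n) := by ring
  rw [h4]
  apply mul_le_mul_of_nonneg_right _ (Real.exp_pos _).le
  exact (ha n).trans (by linarith)

private theorem M01_FS {al : ℕ → ℂ} (ha : ∀ n : ℕ, ‖al n‖ ≤ 2 * √n) {w : ℂ} (hw : 0 < w.re) :
    Summable fun n : ℕ => ‖al n * exp (-(2 * π * n * w))‖ := by
  have h1 := M01_sum ha (c := 2 * π * w.re) (by positivity)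
  refine h1.congr fun n => ?_
  rw [norm_mul, norm_exp]
  congr 2
  have e : (2 * (π : ℂ) * n * w) = ((2 * π * n : ℝ) : ℂ) * w := by push_cast; ring
  rw [neg_re, e, re_ofReal_mul]
  ring

/-- Row M01. The main integral as a double series. -/
theorem M0_series {al be : ℕ → ℂ} (ha : ∀ n : ℕ, ‖al n‖ ≤ 2 * √n) (hb : ∀ n : ℕ, ‖be n‖ ≤ 2 * √n) {a b ε : ℝ}
    (h0 : 0 < ε) (h1 : ε ≤ 1 / 10) :
    HasSum (fun p : ℕ × ℕ => al p.1 * conj (be p.2) * Ph (wf a b ε p.1 p.2)) (M0 al be a b ε) ∧
    Summable (fun p : ℕ × ℕ => ‖al p.1 * conj (be p.2) * Ph (wf a b ε p.1 p.2)‖) := by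
  have hs : 0 < Real.sin ε := OO.sin_pos' h0 h1
  have hpi := Real.pi_pos
  have hal0 : al 0 = 0 := by
    have := ha 0
    rw [Nat.cast_zero, Real.sqrt_zero, mul_zero] at this
    exact norm_le_zero_iff.1 this
  set c1 := 2 * π * Real.sin ε * Real.exp (-a) * Real.exp (-1) with hc1
  set c2 := 2 * π * Real.sin ε * Real.exp (-b) * Real.exp (-1) with hc2
  have hc10 : 0 < c1 := by positivity
  have hc20 : 0 < c2 := by positivity
  set C := 1 / (2 * π * Real.sin ε * Real.exp (-a)) with hC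
  have hC0 : 0 < C := by positivity
  set F : ℕ × ℕ → ℝ → ℂ := fun p u => al p.1 * conj (be p.2) *
    (((TT.tau u * Real.exp u : ℝ) : ℂ) * exp (-(wf a b ε p.1 p.2 * (Real.exp u : ℝ)))) with hF
  set G : ℕ × ℕ → ℝ := fun p => C * ((‖al p.1‖ * Real.exp (-(c1 * p.1))) * (‖be p.2‖ * Real.exp (-(c2 * p.2)))) with hG
  have hGs : Summable G := ((M01_sum ha hc10).mul_of_nonneg (M01_sum hb hc20) (fun n => by positivity)
    (fun n => by positivity)).mul_left C
  -- one term
  have hterm : ∀ p : ℕ × ℕ, Integrable (F p) ∧ ∫ u, ‖F p u‖ ≤ G p := by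
    intro p
    obtain ⟨n, m⟩ := p
    rcases Nat.eq_zero_or_pos n with rfl | hn
    · have e : F (0, m) = fun _ => 0 := by
        funext u
        simp only [hF, hal0, zero_mul]
      rw [e]
      refine ⟨integrable_zero _ _ _, ?_⟩
      simp only [norm_zero, integral_zero, hG]
      positivity
    · have hn1 : (1 : ℝ) ≤ n := by exact_mod_cast hn
      have hre := M01_wre a b ε n m
      have hge : 2 * π * Real.sin ε * Real.exp (-a) ≤ (wf a b ε n m).re := by
        rw [hre]
        have h3 : Real.exp (-a) ≤ n * Real.exp (-a) + m * Real.exp (-b) := by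
          have h4 : 1 * Real.exp (-a) ≤ n * Real.exp (-a) := mul_le_mul_of_nonneg_right hn1 (Real.exp_pos _).le
          have h5 : 0 ≤ (m : ℝ) * Real.exp (-b) := by positivity
          linarith
        exact mul_le_mul_of_nonneg_left h3 (by positivity)
      have hpos : 0 < (wf a b ε n m).re := lt_of_lt_of_le (by positivity) hge
      obtain ⟨hi, hv⟩ := M01_kt hpos
      refine ⟨hi.const_mul _, ?_⟩
      have e1 : ∫ u, ‖F (n, m) u‖ = ‖al n‖ * ‖be m‖ *
          ∫ u : ℝ, ‖((TT.tau u * Real.exp u : ℝ) : ℂ) * exp (-(wf a b ε n m * (Real.exp u : ℝ)))‖ := by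
        rw [← integral_const_mul]
        refine integral_congr_ae (Eventually.of_forall fun u => ?_)
        simp only [hF]
        rw [norm_mul, norm_mul, norm_conj]
      rw [e1]
      have e2 : Real.exp (-((wf a b ε n m).re * Real.exp (-1))) = Real.exp (-(c1 * n)) * Real.exp (-(c2 * m)) := by
        rw [← Real.exp_add, hre, hc1, hc2]
        congr 1
        ring
      calc ‖al n‖ * ‖be m‖ *
          ∫ u : ℝ, ‖((TT.tau u * Real.exp u : ℝ) : ℂ) * exp (-(wf a b ε n m * (Real.exp u : ℝ)))‖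
          ≤ ‖al n‖ * ‖be m‖ * (Real.exp (-((wf a b ε n m).re * Real.exp (-1))) / (wf a b ε n m).re) := by gcongr
        _ = ‖al n‖ * ‖be m‖ * (Real.exp (-(c1 * n)) * Real.exp (-(c2 * m))) * (1 / (wf a b ε n m).re) := by
            rw [e2]
            ring
        _ ≤ ‖al n‖ * ‖be m‖ * (Real.exp (-(c1 * n)) * Real.exp (-(c2 * m))) * C := by
            rw [hC]
            gcongr
        _ = G (n, m) := by
            simp only [hG]
            ring
  have hsumint : Summable fun p => ∫ u, ‖F p u‖ :=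
    Summable.of_nonneg_of_le (fun p => integral_nonneg fun u => norm_nonneg _) (fun p => (hterm p).2) hGs
  have hmain := hasSum_integral_of_summable_integral_norm (fun p => (hterm p).1) hsumint
  have hval : ∀ p : ℕ × ℕ, ∫ u, F p u = al p.1 * conj (be p.2) * Ph (wf a b ε p.1 p.2) := by
    intro p
    simp only [hF, Ph]
    rw [integral_const_mul]
  have htot : ∫ u, ∑' p, F p u = M0 al be a b ε := by
    unfold M0
    refine integral_congr_ae (Eventually.of_forall fun u => ?_)
    simp only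
    have w1 : 0 < (zz ε * (Real.exp (u - a) : ℝ)).re := by
      rw [re_mul_ofReal, zz_re]
      positivity
    have w2 : 0 < (zz ε * (Real.exp (u - b) : ℝ)).re := by
      rw [re_mul_ofReal, zz_re]
      positivity
    have s1 := M01_FS ha w1
    have s2 := M01_FS hb w2
    have s3 : Summable fun m : ℕ => ‖conj (be m * exp (-(2 * π * m * (zz ε * (Real.exp (u - b) : ℝ)))))‖ := by
      refine s2.congr fun m => ?_
      rw [norm_conj]
    unfold FS
    rw [conj_tsum, tsum_mul_tsum_of_summable_norm s1 s3, ← tsum_mul_left]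
    refine tsum_congr fun p => ?_
    simp only [hF]
    have e1 : exp (-(wf a b ε p.1 p.2 * (Real.exp u : ℝ))) =
        exp (-(2 * π * p.1 * (zz ε * (Real.exp (u - a) : ℝ)))) *
          conj (exp (-(2 * π * p.2 * (zz ε * (Real.exp (u - b) : ℝ))))) := by
      rw [← exp_conj, ← exp_add]
      congr 1
      have e2 : (Real.exp (u - a) : ℂ) = (Real.exp u : ℂ) * (Real.exp (-a) : ℂ) := by
        rw [← ofReal_mul, ← Real.exp_add]
        rfl
      have e3 : (Real.exp (u - b) : ℂ) = (Real.exp u : ℂ) * (Real.exp (-b) : ℂ) := by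
        rw [← ofReal_mul, ← Real.exp_add]
        rfl
      rw [e2, e3]
      unfold wf
      simp only [map_neg, map_mul, conj_ofReal, map_ofNat, conj_natCast]
      ring
    rw [e1, map_mul]
    ring
  rw [htot] at hmain
  simp only [hval] at hmain
  refine ⟨hmain, ?_⟩
  refine Summable.of_nonneg_of_le (fun p => norm_nonneg _) (fun p => ?_) hGs
  rw [← hval p]
  exact (norm_integral_le_integral_norm _).trans (hterm p).2

end RQ
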