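import Pool.Agent.Lib.MP_0f5a55_nt.RQ.D

open Complex Finset
open scoped Real ComplexConjugate

namespace RQ

open OO

theorem S01_co_eq {q1 q2 : ℕ} (χ1 : DirichletCharacter ℂ q1) (χ2 : DirichletCharacter ℂ q2) {n : ℕ}
    (hn : 0 < n) :
    co χ1 χ2 n = ∑ d ∈ n.divisors, χ1 (d : ZMod q1) * χ2 ((n / d : ℕ) : ZMod q2) := by
  unfold co lamF
  rw [ArithmeticFunction.mul_apply]
  rw [Nat.sum_divisorsAntidiagonal (fun a b => LA (ch χ1) 0 0 a * LA (ch χ2) 0 0 b)]
  refine Finset.sum_congr rfl fun d hd => ?_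
  have hd0 : d ≠ 0 := (Nat.pos_of_mem_divisors hd).ne'
  have hd1 : d ∣ n := Nat.dvd_of_mem_divisors hd
  have hd2 : n / d ≠ 0 := (Nat.div_pos (Nat.le_of_dvd hn hd1) (Nat.pos_of_ne_zero hd0)).ne'
  rw [T_Lam_aux_LA _ _ hd0, T_Lam_aux_LA _ _ hd2]
  rfl

theorem S01_unit {q N d : ℕ} (χ : DirichletCharacter ℂ q) (hq : q ∣ N) (hd : Nat.Coprime d N) :
    χ (d : ZMod q) * conj (χ (d : ZMod q)) = 1 := by
  have h1 : IsUnit (d : ZMod q) := (ZMod.isUnit_iff_coprime d q).mpr (hd.coprime_dvd_right hq)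
  have h2 : ‖χ (d : ZMod q)‖ = 1 := χ.unit_norm_eq_one h1.unit
  rw [Complex.mul_conj, Complex.normSq_eq_norm_sq, h2]
  simp

theorem S01_split {n : ℕ} (hn : 0 < n) (F : ℕ → ℕ → ℂ) :
    ∑ d ∈ n.divisors, F d (n / d) =
      ∑ d ∈ n.divisors.filter (fun d => d * d < n), F d (n / d) +
      ∑ e ∈ n.divisors.filter (fun d => d * d < n), F (n / e) e +
      ∑ d ∈ n.divisors.filter (fun d => d * d = n), F d (n / d) := by
  rw [← Finset.sum_filter_add_sum_filter_not n.divisors (fun d => d * d < n)]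
  rw [add_assoc]
  congr 1
  rw [← Finset.sum_filter_add_sum_filter_not (n.divisors.filter (fun d => ¬ d * d < n))
    (fun d => n < d * d)]
  congr 1
  · refine Finset.sum_nbij' (fun d => n / d) (fun e => n / e) ?_ ?_ ?_ ?_ ?_
    · intro d hd
      simp only [Finset.mem_filter, Nat.mem_divisors] at hd ⊢
      obtain ⟨⟨⟨h1, h2⟩, h3⟩, h4⟩ := hd
      obtain ⟨e, he⟩ := h1
      have hd0 : 0 < d := by
        rcases Nat.eq_zero_or_pos d with h | h
        · subst h; simp at he; omega
        · exact h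
      have hde : n / d = e := by rw [he]; exact Nat.mul_div_cancel_left e hd0
      rw [hde]
      refine ⟨⟨⟨d, by rw [he]; ring⟩, h2⟩, ?_⟩
      rw [he] at h4
      rw [he]
      have : e < d := Nat.lt_of_mul_lt_mul_left h4
      have he0 : 0 < e := by
        rcases Nat.eq_zero_or_pos e with h | h
        · subst h; simp at he; omega
        · exact h
      exact Nat.mul_lt_mul_of_pos_right this he0
    · intro e hd
      simp only [Finset.mem_filter, Nat.mem_divisors] at hd ⊢
      obtain ⟨⟨h1, h2⟩, h4⟩ := hd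
      obtain ⟨d, he⟩ := h1
      have he0 : 0 < e := by
        rcases Nat.eq_zero_or_pos e with h | h
        · subst h; simp at he; omega
        · exact h
      have hde : n / e = d := by rw [he]; exact Nat.mul_div_cancel_left d he0
      rw [hde]
      rw [he] at h4
      have h5 : e < d := Nat.lt_of_mul_lt_mul_left h4
      have hd0 : 0 < d := by omega
      have h6 : n < d * d := by
        rw [he]; exact Nat.mul_lt_mul_of_pos_right h5 hd0
      refine ⟨⟨⟨⟨e, by rw [he]; ring⟩, h2⟩, by omega⟩, h6⟩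
    · intro d hd
      simp only [Finset.mem_filter, Nat.mem_divisors] at hd
      exact Nat.div_div_self hd.1.1.1 hd.1.1.2
    · intro d hd
      simp only [Finset.mem_filter, Nat.mem_divisors] at hd
      exact Nat.div_div_self hd.1.1 hd.1.2
    · intro d hd
      simp only [Finset.mem_filter, Nat.mem_divisors] at hd
      rw [Nat.div_div_self hd.1.1.1 hd.1.1.2]
  · refine Finset.sum_congr ?_ fun _ _ => rfl
    ext d
    simp only [Finset.mem_filter]
    constructor
    · rintro ⟨⟨h1, h2⟩, h3⟩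
      exact ⟨h1, by omega⟩
    · rintro ⟨h1, h2⟩
      exact ⟨⟨h1, by omega⟩, by omega⟩

/-- Row S01. Coefficients at numbers prime to N (q1, q2 divide N): symmetric form. -/
theorem co_cop {q1 q2 : ℕ} (χ1 : DirichletCharacter ℂ q1) (χ2 : DirichletCharacter ℂ q2)
    {N : ℕ} (d1 : q1 ∣ N) (d2 : q2 ∣ N) {n : ℕ} (hn : 0 < n) (hc : Nat.Coprime n N) :
    ∃ s : ℂ, (s ≠ 0 → ∃ j : ℕ, n = j * j) ∧ ‖s‖ ≤ 1 ∧
      co χ1 χ2 n = χ2 (n : ZMod q2) * Sd (qc χ1 χ2 N) n + χ1 (n : ZMod q1) * Sd (fun d => conj (qc χ1 χ2 N d)) n + s := by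
  refine ⟨∑ d ∈ n.divisors.filter (fun d => d * d = n), χ1 (d : ZMod q1) * χ2 ((n / d : ℕ) : ZMod q2),
    ?_, ?_, ?_⟩
  · intro hs
    obtain ⟨d, hd, -⟩ := Finset.exists_ne_zero_of_sum_ne_zero hs
    exact ⟨d, (Finset.mem_filter.mp hd).2.symm⟩
  · have hcard : (n.divisors.filter (fun d => d * d = n)).card ≤ 1 := by
      rw [Finset.card_le_one]
      intro a ha b hb
      have h1 := (Finset.mem_filter.mp ha).2
      have h2 := (Finset.mem_filter.mp hb).2
      exact Nat.mul_self_inj.mp (h1.trans h2.symm)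
    calc ‖∑ d ∈ n.divisors.filter (fun d => d * d = n), χ1 (d : ZMod q1) * χ2 ((n / d : ℕ) : ZMod q2)‖
        ≤ ∑ d ∈ n.divisors.filter (fun d => d * d = n), ‖χ1 (d : ZMod q1) * χ2 ((n / d : ℕ) : ZMod q2)‖ :=
          norm_sum_le _ _
      _ ≤ ∑ d ∈ n.divisors.filter (fun d => d * d = n), (1 : ℝ) := by
          refine Finset.sum_le_sum fun d _ => ?_
          rw [norm_mul]
          exact mul_le_one₀ (χ1.norm_le_one _) (norm_nonneg _) (χ2.norm_le_one _)
      _ ≤ 1 := by simpa using hcard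
  · rw [S01_co_eq χ1 χ2 hn, S01_split hn (fun a b => χ1 (a : ZMod q1) * χ2 (b : ZMod q2))]
    congr 1
    congr 1
    · unfold Sd
      rw [Finset.mul_sum]
      refine Finset.sum_congr rfl fun d hd => ?_
      simp only [Finset.mem_filter, Nat.mem_divisors] at hd
      obtain ⟨⟨⟨e, he⟩, -⟩, -⟩ := hd
      have hdc : Nat.Coprime d N := hc.coprime_dvd_left ⟨e, he⟩
      have hd0 : 0 < d := by
        rcases Nat.eq_zero_or_pos d with h | h
        · subst h; simp at he; omega
        · exact h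
      have hde : n / d = e := by rw [he]; exact Nat.mul_div_cancel_left e hd0
      have hu := S01_unit χ2 d2 hdc
      unfold qc rs
      rw [if_pos hdc, hde, he]
      push_cast
      rw [map_mul]
      linear_combination (-(χ1 (d : ZMod q1) * χ2 (e : ZMod q2))) * hu
    · unfold Sd
      rw [Finset.mul_sum]
      refine Finset.sum_congr rfl fun d hd => ?_
      simp only [Finset.mem_filter, Nat.mem_divisors] at hd
      obtain ⟨⟨⟨e, he⟩, -⟩, -⟩ := hd
      have hdc : Nat.Coprime d N := hc.coprime_dvd_left ⟨e, he⟩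
      have hd0 : 0 < d := by
        rcases Nat.eq_zero_or_pos d with h | h
        · subst h; simp at he; omega
        · exact h
      have hde : n / d = e := by rw [he]; exact Nat.mul_div_cancel_left e hd0
      have hu := S01_unit χ1 d1 hdc
      unfold qc rs
      rw [if_pos hdc, hde, he]
      push_cast
      simp only [map_mul, Complex.conj_conj]
      linear_combination (-(χ1 (e : ZMod q1) * χ2 (d : ZMod q2))) * hu

theorem S01_card (n : ℕ) : (n.divisors.card : ℝ) ≤ 2 * √n := by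
  have h1 : n.divisors.card ≤ 2 * Nat.sqrt n := by
    have h2 : n.divisors ⊆ (Finset.Icc 1 (Nat.sqrt n)) ∪ (Finset.Icc 1 (Nat.sqrt n)).image (fun e => n / e) := by
      intro d hd
      rw [Nat.mem_divisors] at hd
      obtain ⟨⟨e, he⟩, hn⟩ := hd
      have hd0 : 0 < d := by
        rcases Nat.eq_zero_or_pos d with h | h
        · subst h; simp at he; omega
        · exact h
      have he0 : 0 < e := by
        rcases Nat.eq_zero_or_pos e with h | h
        · subst h; simp at he; omega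
        · exact h
      rw [Finset.mem_union, Finset.mem_image]
      rcases le_total d e with h | h
      · left
        rw [Finset.mem_Icc]
        refine ⟨hd0, Nat.le_sqrt.mpr ?_⟩
        rw [he]
        exact Nat.mul_le_mul_left d h
      · right
        refine ⟨e, Finset.mem_Icc.mpr ⟨he0, Nat.le_sqrt.mpr ?_⟩, ?_⟩
        · rw [he]
          exact Nat.mul_le_mul_right e h
        · rw [he]
          exact Nat.mul_div_cancel d he0
    calc n.divisors.card ≤ _ := Finset.card_le_card h2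
      _ ≤ (Finset.Icc 1 (Nat.sqrt n)).card + ((Finset.Icc 1 (Nat.sqrt n)).image (fun e => n / e)).card :=
        Finset.card_union_le _ _
      _ ≤ Nat.sqrt n + Nat.sqrt n := by
        refine add_le_add (by simp) (Finset.card_image_le.trans (by simp))
      _ = 2 * Nat.sqrt n := by ring
  calc (n.divisors.card : ℝ) ≤ ((2 * Nat.sqrt n : ℕ) : ℝ) := by exact_mod_cast h1
    _ = 2 * (Nat.sqrt n : ℝ) := by push_cast; ring
    _ ≤ 2 * √n := by
      have := Real.nat_sqrt_le_real_sqrt (a := n)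
      linarith

/-- coefficients and the sums Sd are bounded by 2 sqrt n -/
theorem co_le {q1 q2 : ℕ} (χ1 : DirichletCharacter ℂ q1) (χ2 : DirichletCharacter ℂ q2) (n : ℕ) :
    ‖co χ1 χ2 n‖ ≤ (n.divisors.card : ℝ) ∧ ‖co χ1 χ2 n‖ ≤ 2 * √n := by
  have h : ‖co χ1 χ2 n‖ ≤ (n.divisors.card : ℝ) := by
    rcases Nat.eq_zero_or_pos n with hn | hn
    · subst hn; simp
    · rw [S01_co_eq χ1 χ2 hn]
      calc _ ≤ ∑ d ∈ n.divisors, ‖χ1 (d : ZMod q1) * χ2 ((n / d : ℕ) : ZMod q2)‖ := norm_sum_le _ _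
        _ ≤ ∑ d ∈ n.divisors, (1 : ℝ) := by
          refine Finset.sum_le_sum fun d _ => ?_
          rw [norm_mul]
          exact mul_le_one₀ (χ1.norm_le_one _) (norm_nonneg _) (χ2.norm_le_one _)
        _ = _ := by simp
  exact ⟨h, h.trans (S01_card n)⟩

theorem S01_mult {q : ℕ} (χ : DirichletCharacter ℂ q) :
    (LA (ch χ) 0 0).IsMultiplicative := by
  refine ⟨?_, ?_⟩
  · rw [T_Lam_aux_LA _ _ one_ne_zero]
    simp [ch]
  · intro m n _
    rcases Nat.eq_zero_or_pos m with hm | hm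
    · subst hm; simp
    rcases Nat.eq_zero_or_pos n with hn | hn
    · subst hn; simp
    rw [T_Lam_aux_LA _ _ (by positivity), T_Lam_aux_LA _ _ hm.ne', T_Lam_aux_LA _ _ hn.ne']
    simp [ch]

/-- multiplicativity -/
theorem co_mul {q1 q2 : ℕ} (χ1 : DirichletCharacter ℂ q1) (χ2 : DirichletCharacter ℂ q2) {m n : ℕ}
    (h : Nat.Coprime m n) : co χ1 χ2 (m * n) = co χ1 χ2 m * co χ1 χ2 n :=
  ((S01_mult χ1).mul (S01_mult χ2)).map_mul_of_coprime h

end RQ
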