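import Pool.Agent.Lib.MP_0f5a55_nt.RQ.D

open Complex Finset
open scoped Real ComplexConjugate

namespace RQ

open OO

/-- a is composed of primes dividing N -/
def Fac (N a : ℕ) : Prop := 0 < a ∧ ∀ p : ℕ, p.Prime → p ∣ a → p ∣ N

private theorem s02_cop {N a b : ℕ} (ha : Fac N a) (hb : Nat.Coprime b N) : Nat.Coprime a b := by
  by_contra h
  obtain ⟨p, hp, h1, h2⟩ := Nat.Prime.not_coprime_iff_dvd.1 h
  exact Nat.Prime.not_coprime_iff_dvd.2 ⟨p, hp, h2, ha.2 p hp h1⟩ hb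

private theorem s02_exists {N : ℕ} (n : ℕ) (hn : 0 < n) :
    ∃ x : ℕ × ℕ, Fac N x.1 ∧ Nat.Coprime x.2 N ∧ 0 < x.2 ∧ x.1 * x.2 = n := by
  induction n using Nat.strong_induction_on with
  | _ n ih =>
    by_cases hc : Nat.Coprime n N
    · refine ⟨(1, n), ⟨Nat.one_pos, fun p hp h => ?_⟩, hc, hn, one_mul n⟩
      exact absurd (Nat.dvd_one.1 h) hp.one_lt.ne'
    · obtain ⟨p, hp, h1, h2⟩ := Nat.Prime.not_coprime_iff_dvd.1 hc
      obtain ⟨m, rfl⟩ := h1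
      have hm : 0 < m := Nat.pos_of_ne_zero (fun h0 => by simp [h0] at hn)
      have hlt : m < p * m := by
        have := hp.one_lt
        nlinarith
      obtain ⟨x, hx1, hx2, hx3, hx4⟩ := ih m hlt hm
      refine ⟨(p * x.1, x.2), ⟨Nat.mul_pos hp.pos hx1.1, fun r hr h => ?_⟩, hx2, hx3, ?_⟩
      · rcases (Nat.Prime.dvd_mul hr).1 h with h | h
        · rw [(Nat.prime_dvd_prime_iff_eq hr hp).1 h]
          exact h2
        · exact hx1.2 r hr h
      · show p * x.1 * x.2 = p * m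
        rw [mul_assoc, hx4]

private theorem s02_unique {N a b c d : ℕ} (ha : Fac N a) (hb : Nat.Coprime b N) (hc : Fac N c)
    (hd : Nat.Coprime d N) (h : a * b = c * d) : a = c ∧ b = d := by
  have h1 : a ∣ c := (s02_cop ha hd).dvd_of_dvd_mul_right (Dvd.intro b h)
  have h2 : c ∣ a := (s02_cop hc hb).dvd_of_dvd_mul_right (Dvd.intro d h.symm)
  have h3 : a = c := Nat.dvd_antisymm h1 h2
  refine ⟨h3, ?_⟩
  rw [h3] at h
  exact Nat.eq_of_mul_eq_mul_left hc.1 h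

/-- Row S02. Unique decomposition n = a n1, a composed of primes of N, n1 prime to N; sum form. -/
theorem sum_decomp {N : ℕ} (hN : 0 < N) (X : ℕ) (F : ℕ → ℕ → ℂ) [DecidablePred (Fac N)] :
    ∃ P : ℕ → ℕ × ℕ, (∀ n : ℕ, 0 < n → Fac N (P n).1 ∧ Nat.Coprime (P n).2 N ∧ 0 < (P n).2 ∧ (P n).1 * (P n).2 = n) ∧
      (∀ n a b : ℕ, 0 < n → Fac N a → Nat.Coprime b N → a * b = n → P n = (a, b)) ∧
      ∑ n ∈ Icc 1 X, F (P n).1 (P n).2 =
        ∑ a ∈ (Icc 1 X).filter (Fac N), ∑ b ∈ (Icc 1 (X / a)).filter (fun b => Nat.Coprime b N), F a b := by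
  have hex : ∀ n : ℕ, ∃ x : ℕ × ℕ, 0 < n → Fac N x.1 ∧ Nat.Coprime x.2 N ∧ 0 < x.2 ∧ x.1 * x.2 = n := by
    intro n
    rcases Nat.eq_zero_or_pos n with h | h
    · exact ⟨(0, 0), fun h' => absurd h' (by omega)⟩
    · obtain ⟨x, hx⟩ := s02_exists (N := N) n h
      exact ⟨x, fun _ => hx⟩
  choose P hP using hex
  have hU : ∀ n a b : ℕ, 0 < n → Fac N a → Nat.Coprime b N → a * b = n → P n = (a, b) := by
    intro n a b hn ha hb hab
    obtain ⟨h1, h2, h3, h4⟩ := hP n hn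
    obtain ⟨h5, h6⟩ := s02_unique h1 h2 ha hb (h4.trans hab.symm)
    exact Prod.ext h5 h6
  refine ⟨P, hP, hU, ?_⟩
  rw [Finset.sum_sigma']
  refine Finset.sum_bij' (fun n _ => ⟨(P n).1, (P n).2⟩) (fun x _ => x.1 * x.2) ?_ ?_ ?_ ?_ ?_
  · intro n hn
    rw [mem_Icc] at hn
    obtain ⟨h1, h2, h3, h4⟩ := hP n hn.1
    simp only [mem_sigma, mem_filter, mem_Icc]
    refine ⟨⟨⟨h1.1, ?_⟩, h1⟩, ⟨h3, ?_⟩, h2⟩
    · calc (P n).1 ≤ (P n).1 * (P n).2 := Nat.le_mul_of_pos_right _ h3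
        _ ≤ X := by rw [h4]; exact hn.2
    · rw [Nat.le_div_iff_mul_le h1.1, mul_comm, h4]
      exact hn.2
  · intro x hx
    simp only [mem_sigma, mem_filter, mem_Icc] at hx
    obtain ⟨⟨⟨h1, h2⟩, h3⟩, ⟨h4, h5⟩, h6⟩ := hx
    rw [mem_Icc]
    refine ⟨Nat.mul_pos h1 h4, ?_⟩
    have := (Nat.le_div_iff_mul_le h1).1 h5
    rwa [mul_comm]
  · intro n hn
    rw [mem_Icc] at hn
    exact (hP n hn.1).2.2.2
  · intro x hx
    simp only [mem_sigma, mem_filter, mem_Icc] at hx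
    obtain ⟨⟨⟨h1, h2⟩, h3⟩, ⟨h4, h5⟩, h6⟩ := hx
    have := hU (x.1 * x.2) x.1 x.2 (Nat.mul_pos h1 h4) h3 h6 rfl
    rw [this]
  · intro n hn
    rfl

private theorem s02_local {p : ℕ} (hp : p.Prime) :
    Summable (fun n : ℕ => ((p ^ n).divisors.card : ℝ) / √((p ^ n : ℕ) : ℝ)) ∧
      ∑' n : ℕ, ((p ^ n).divisors.card : ℝ) / √((p ^ n : ℕ) : ℝ) ≤ (p : ℝ) ^ 4 := by
  have hp2 : (2 : ℝ) ≤ p := by exact_mod_cast hp.two_le
  have hs : (7 / 5 : ℝ) ≤ √(p : ℝ) := Real.le_sqrt_of_sq_le (by nlinarith)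
  have hs0 : 0 < √(p : ℝ) := by linarith
  have hr : ‖(√(p : ℝ))⁻¹‖ < 1 := by
    rw [Real.norm_of_nonneg (by positivity)]
    exact inv_lt_one_of_one_lt₀ (by linarith)
  have he : (fun n : ℕ => ((p ^ n).divisors.card : ℝ) / √((p ^ n : ℕ) : ℝ)) =
      fun n : ℕ => (((n + 1).choose 1 : ℕ) : ℝ) * (√(p : ℝ))⁻¹ ^ n := by
    funext n
    rw [Nat.divisors_prime_pow hp, Finset.card_map, Finset.card_range, Nat.choose_one_right, Nat.cast_pow,
      Real.sqrt_eq_rpow, ← Real.rpow_natCast, ← Real.rpow_mul (by positivity), mul_comm (n : ℝ),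
      Real.rpow_mul (by positivity), ← Real.sqrt_eq_rpow, Real.rpow_natCast, div_eq_mul_inv, inv_pow]
  rw [he]
  refine ⟨summable_choose_mul_geometric_of_norm_lt_one 1 hr, ?_⟩
  rw [tsum_choose_mul_geometric_of_norm_lt_one 1 hr]
  have hi : (√(p : ℝ))⁻¹ ≤ 5 / 7 := by
    rw [inv_le_comm₀ hs0 (by norm_num)]
    norm_num
    exact hs
  have h1 : (2 / 7 : ℝ) ≤ 1 - (√(p : ℝ))⁻¹ := by linarith
  calc 1 / (1 - (√(p : ℝ))⁻¹) ^ (1 + 1) ≤ 1 / (2 / 7 : ℝ) ^ (1 + 1) := by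
        apply one_div_le_one_div_of_le (by positivity)
        exact pow_le_pow_left₀ (by norm_num) h1 _
    _ ≤ (2 : ℝ) ^ 4 := by norm_num
    _ ≤ (p : ℝ) ^ 4 := pow_le_pow_left₀ (by norm_num) hp2 _

/-- sum of d(a)/sqrt a over all a composed of primes of N -/
theorem fac_sum {N : ℕ} (hN : 0 < N) (X : ℕ) [DecidablePred (Fac N)] :
    ∑ a ∈ (Icc 1 X).filter (Fac N), (a.divisors.card : ℝ) / √a ≤ (N : ℝ) ^ 4 := by
  set f : ℕ → ℝ := fun a => (a.divisors.card : ℝ) / √(a : ℝ) with hf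
  have f1 : f 1 = 1 := by simp [hf]
  have hmul : ∀ {m n : ℕ}, Nat.Coprime m n → f (m * n) = f m * f n := by
    intro m n h
    simp only [hf]
    rw [Nat.Coprime.card_divisors_mul h]
    push_cast
    rw [Real.sqrt_mul (by positivity)]
    exact (div_mul_div_comm _ _ _ _).symm
  have f0 : ∀ a, 0 ≤ f a := fun a => by positivity
  have hsum : ∀ {p : ℕ}, p.Prime → Summable (fun n : ℕ => ‖f (p ^ n)‖) := by
    intro p hp
    refine (s02_local hp).1.congr (fun n => ?_)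
    rw [Real.norm_of_nonneg (f0 _)]
  obtain ⟨h1, h2⟩ := EulerProduct.summable_and_hasSum_factoredNumbers_prod_filter_prime_tsum f1 hmul hsum
    N.primeFactors
  have h3 : ∑ a ∈ (Icc 1 X).filter (Fac N), f a ≤ ∏ p ∈ N.primeFactors with p.Prime, ∑' n : ℕ, f (p ^ n) := by
    have hmem : ∀ a ∈ (Icc 1 X).filter (Fac N), a ∈ Nat.factoredNumbers N.primeFactors := by
      intro a ha
      rw [mem_filter] at ha
      rw [Nat.mem_factoredNumbers']
      intro p hp hpa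
      exact Nat.mem_primeFactors.2 ⟨hp, ha.2.2 p hp hpa, hN.ne'⟩
    rw [← h2.tsum_eq]
    have h4 : ∑ a ∈ (Icc 1 X).filter (Fac N), f a =
        ∑ x ∈ ((Icc 1 X).filter (Fac N)).subtype (· ∈ Nat.factoredNumbers N.primeFactors), f x := by
      rw [Finset.sum_subtype_of_mem f hmem]
    rw [h4]
    exact h2.summable.sum_le_tsum _ (fun x _ => f0 _)
  refine h3.trans ?_
  have h5 : (N.primeFactors.filter (fun p => p.Prime)) = N.primeFactors := by
    apply Finset.filter_true_of_mem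
    intro p hp
    exact Nat.prime_of_mem_primeFactors hp
  rw [h5]
  calc ∏ p ∈ N.primeFactors, ∑' n : ℕ, f (p ^ n) ≤ ∏ p ∈ N.primeFactors, (p : ℝ) ^ 4 := by
        apply Finset.prod_le_prod
        · intro p _
          exact tsum_nonneg (fun n => f0 _)
        · intro p hp
          exact (s02_local (Nat.prime_of_mem_primeFactors hp)).2
    _ = ((∏ p ∈ N.primeFactors, p : ℕ) : ℝ) ^ 4 := by
        rw [Finset.prod_pow, Nat.cast_prod]
    _ ≤ (N : ℝ) ^ 4 := by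
        apply pow_le_pow_left₀ (by positivity)
        exact_mod_cast Nat.le_of_dvd hN (Nat.prod_primeFactors_dvd N)

end RQ
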