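import Pool.Agent.Lib.MP_0f5a55_nt.RQ.D

open Complex Finset
open scoped Real ComplexConjugate

namespace RQ

/-- integers `j` with `lo < c + M j ≤ hi` -/
private theorem S04_count {M : ℤ} (hM : 0 < M) (c lo hi : ℤ) (hlh : lo ≤ hi) :
    |(((Finset.Ioc ((lo - c) / M) ((hi - c) / M)).card : ℕ) : ℝ) - ((hi - lo : ℤ) : ℝ) / (M : ℝ)| ≤ 1 := by
  have hMr : (0 : ℝ) < (M : ℝ) := by exact_mod_cast hM
  have hle : (lo - c) / M ≤ (hi - c) / M := Int.ediv_le_ediv hM (by omega)
  rw [Int.card_Ioc]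
  have h1 : (((((hi - c) / M - (lo - c) / M).toNat : ℕ) : ℤ) : ℝ) = (((hi - c) / M - (lo - c) / M : ℤ) : ℝ) := by
    rw [Int.toNat_of_nonneg (by omega)]
  rw [Int.cast_natCast] at h1
  rw [h1]
  have e1 := Int.emod_add_mul_ediv (hi - c) M
  have e2 := Int.emod_add_mul_ediv (lo - c) M
  have b1 := Int.emod_nonneg (hi - c) hM.ne'
  have b2 := Int.emod_lt_of_pos (hi - c) hM
  have b3 := Int.emod_nonneg (lo - c) hM.ne'
  have b4 := Int.emod_lt_of_pos (lo - c) hM
  have e3 : M * ((hi - c) / M - (lo - c) / M) = (hi - lo) - ((hi - c) % M - (lo - c) % M) := by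
    linarith
  have e4 : (M : ℝ) * (((hi - c) / M - (lo - c) / M : ℤ) : ℝ) =
      ((hi - lo : ℤ) : ℝ) - (((hi - c) % M - (lo - c) % M : ℤ) : ℝ) := by exact_mod_cast e3
  have e5 : (((hi - c) / M - (lo - c) / M : ℤ) : ℝ) - ((hi - lo : ℤ) : ℝ) / (M : ℝ) =
      - (((hi - c) % M - (lo - c) % M : ℤ) : ℝ) / M := by
    rw [eq_div_iff hMr.ne', sub_mul, div_mul_cancel₀ _ hMr.ne', mul_comm]
    rw [e4]; ring
  rw [e5, abs_div, abs_neg, abs_of_pos hMr, div_le_one hMr]
  have : |((hi - c) % M - (lo - c) % M : ℤ)| ≤ M := by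
    rw [abs_le]; constructor <;> linarith
  exact_mod_cast this

/-- Row S04. The numbers n in (lo, hi] with n = n0 + L t, t in a class, etc. Solutions (n, m) of A n - B m = k in fixed classes b, b'
mod N with d | n, u | m (d, u coprime and prime to N): their number with lo < A n ≤ hi is g (hi - lo)/(A B N d u) + O(1), g = gcd(A,B),
provided there is one solution at all of the conditions without d and u; the error is at most 2. -/
theorem count_line {N : ℕ} (hN : 0 < N) {A B : ℕ} (hA : 0 < A) (hB : 0 < B) {k : ℤ}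
    (hAN : ∀ p : ℕ, p.Prime → p ∣ A → p ∣ N) (hBN : ∀ p : ℕ, p.Prime → p ∣ B → p ∣ N)
    {b b' : ℕ} (n0 m0 : ℤ) (h0 : (A : ℤ) * n0 - B * m0 = k) (c1 : n0 ≡ b [ZMOD N]) (c2 : m0 ≡ b' [ZMOD N])
    {d u : ℕ} (hd : 0 < d) (hu : 0 < u) (hdu : Nat.Coprime d u) (hdN : Nat.Coprime d N) (huN : Nat.Coprime u N)
    (lo hi : ℤ) (hlh : lo ≤ hi) (S : Finset (ℤ × ℤ))
    (hS : ∀ p : ℤ × ℤ, p ∈ S ↔ (A : ℤ) * p.1 - B * p.2 = k ∧ lo < A * p.1 ∧ A * p.1 ≤ hi ∧ p.1 ≡ b [ZMOD N] ∧
      p.2 ≡ b' [ZMOD N] ∧ (d : ℤ) ∣ p.1 ∧ (u : ℤ) ∣ p.2) :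
    |(S.card : ℝ) - (Nat.gcd A B : ℝ) * ((hi - lo : ℤ) : ℝ) / ((A : ℝ) * B * N * d * u)| ≤ 2 := by
  classical
  obtain ⟨g, A', B', hg, hco, hA', hB'⟩ : ∃ g A' B' : ℕ, 0 < g ∧ Nat.Coprime A' B' ∧ A = A' * g ∧ B = B' * g := by
    obtain ⟨A', B', h1, h2, h3⟩ := Nat.exists_coprime A B
    exact ⟨Nat.gcd A B, A', B', Nat.gcd_pos_of_pos_left _ hA, h1, h2, h3⟩
  have hgcd : Nat.gcd A B = g := by
    rw [hA', hB', Nat.gcd_mul_right, hco.gcd_eq_one, one_mul]
  have hA'0 : 0 < A' := Nat.pos_of_ne_zero fun h => by rw [h, zero_mul] at hA'; omega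
  have hB'0 : 0 < B' := Nat.pos_of_ne_zero fun h => by rw [h, zero_mul] at hB'; omega
  -- coprimality
  have hdA : Nat.Coprime d A' := by
    refine Nat.Coprime.symm (Nat.coprime_of_dvd fun p hp h1 h2 => ?_)
    have h3 : p ∣ N := hAN p hp (hA' ▸ h1.mul_right g)
    exact hp.one_lt.ne' (Nat.dvd_one.1 (hdN.gcd_eq_one ▸ Nat.dvd_gcd h2 h3))
  have hdB : Nat.Coprime d B' := by
    refine Nat.Coprime.symm (Nat.coprime_of_dvd fun p hp h1 h2 => ?_)
    have h3 : p ∣ N := hBN p hp (hB' ▸ h1.mul_right g)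
    exact hp.one_lt.ne' (Nat.dvd_one.1 (hdN.gcd_eq_one ▸ Nat.dvd_gcd h2 h3))
  have huA : Nat.Coprime u A' := by
    refine Nat.Coprime.symm (Nat.coprime_of_dvd fun p hp h1 h2 => ?_)
    have h3 : p ∣ N := hAN p hp (hA' ▸ h1.mul_right g)
    exact hp.one_lt.ne' (Nat.dvd_one.1 (huN.gcd_eq_one ▸ Nat.dvd_gcd h2 h3))
  have hdBN : IsCoprime ((B' : ℤ) * N) d := by
    have : Nat.Coprime (B' * N) d := Nat.Coprime.mul_left hdB.symm hdN.symm
    exact_mod_cast Nat.isCoprime_iff_coprime.2 this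
  have huAN : IsCoprime ((A' : ℤ) * N) u := by
    have : Nat.Coprime (A' * N) u := Nat.Coprime.mul_left huA.symm huN.symm
    exact_mod_cast Nat.isCoprime_iff_coprime.2 this
  have hduI : IsCoprime (d : ℤ) u := Nat.isCoprime_iff_coprime.2 hdu
  have hABI : IsCoprime (A' : ℤ) B' := Nat.isCoprime_iff_coprime.2 hco
  have hgI : (g : ℤ) ≠ 0 := by exact_mod_cast hg.ne'
  -- a particular solution
  obtain ⟨n1, m1, hs1, hs2, hs3, hs4, hs5⟩ : ∃ n1 m1 : ℤ, (A : ℤ) * n1 - B * m1 = k ∧ n1 ≡ b [ZMOD N] ∧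
      m1 ≡ b' [ZMOD N] ∧ (d : ℤ) ∣ n1 ∧ (u : ℤ) ∣ m1 := by
    obtain ⟨x1, y1, e1⟩ := hdBN
    obtain ⟨x2, y2, e2⟩ := huAN
    obtain ⟨p, q, e3⟩ := hduI
    set t1 : ℤ := -n0 * x1 with ht1
    set t2 : ℤ := -m0 * x2 with ht2
    set t : ℤ := t1 * (q * u) + t2 * (p * d) with ht
    refine ⟨n0 + B' * N * t, m0 + A' * N * t, ?_, ?_, ?_, ?_, ?_⟩
    · rw [hA', hB'] at h0 ⊢
      push_cast at h0 ⊢
      rw [← h0]; ring
    · refine Int.ModEq.trans ?_ c1
      have : n0 + B' * N * t = n0 + N * (B' * t) := by ring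
      rw [this]
      exact Int.add_mul_emod_self_left _ _ _
    · refine Int.ModEq.trans ?_ c2
      have : m0 + A' * N * t = m0 + N * (A' * t) := by ring
      rw [this]
      exact Int.add_mul_emod_self_left _ _ _
    · have h1 : n0 + B' * N * t = d * (n0 * y1 + B' * N * (p * (t2 - t1))) := by
        have hq : q * (u : ℤ) = 1 - p * d := by linarith
        have hx : x1 * (B' * (N : ℤ)) = 1 - y1 * d := by linarith
        have : n0 + B' * N * t = n0 + B' * N * (t1 * (q * u) + t2 * (p * d)) := by rw [ht]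
        rw [this, hq, ht1]
        linear_combination (-n0) * hx
      exact ⟨_, h1⟩
    · have h1 : m0 + A' * N * t = u * (m0 * y2 + A' * N * (q * (t1 - t2))) := by
        have hq : p * (d : ℤ) = 1 - q * u := by linarith
        have hx : x2 * (A' * (N : ℤ)) = 1 - y2 * u := by linarith
        have : m0 + A' * N * t = m0 + A' * N * (t1 * (q * u) + t2 * (p * d)) := by rw [ht]
        rw [this, hq, ht2]
        linear_combination (-m0) * hx
      exact ⟨_, h1⟩
  -- parametrisation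
  set L : ℤ := B' * N * (d * u) with hL
  set L' : ℤ := A' * N * (d * u) with hL'
  have hL0 : 0 < L := by rw [hL]; positivity
  have hAL : (A : ℤ) * L = B * L' := by rw [hL, hL', hA', hB']; push_cast; ring
  have hpar : ∀ p : ℤ × ℤ, ((A : ℤ) * p.1 - B * p.2 = k ∧ p.1 ≡ b [ZMOD N] ∧ p.2 ≡ b' [ZMOD N] ∧
      (d : ℤ) ∣ p.1 ∧ (u : ℤ) ∣ p.2) ↔ ∃ j : ℤ, p = (n1 + L * j, m1 + L' * j) := by
    rintro ⟨n, m⟩
    constructor
    · rintro ⟨e1, e2, e3, e4, e5⟩
      simp only at e1 e2 e3 e4 e5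
      have f1 : (A' : ℤ) * (n - n1) = B' * (m - m1) := by
        have : (g : ℤ) * (A' * (n - n1)) = g * (B' * (m - m1)) := by
          rw [hA', hB'] at e1 hs1
          push_cast at e1 hs1
          linear_combination e1 - hs1
        exact mul_left_cancel₀ hgI this
      have f2 : (B' : ℤ) ∣ n - n1 := by
        refine hABI.symm.dvd_of_dvd_mul_left ⟨m - m1, f1⟩
      obtain ⟨t, ht⟩ := f2
      have f3 : m - m1 = A' * t := by
        have hB'I : (B' : ℤ) ≠ 0 := by exact_mod_cast hB'0.ne'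
        refine mul_left_cancel₀ hB'I ?_
        rw [← f1, ht]; ring
      have g1 : (N : ℤ) ∣ B' * t := by
        rw [← ht]
        exact (hs2.trans e2.symm).dvd
      have g2 : (N : ℤ) ∣ A' * t := by
        rw [← f3]
        exact (hs3.trans e3.symm).dvd
      have g3 : (N : ℤ) ∣ t := by
        obtain ⟨x, y, hxy⟩ := hABI
        have : t = x * (A' * t) + y * (B' * t) := by linear_combination (-t) * hxy
        rw [this]
        exact dvd_add (g2.mul_left x) (g1.mul_left y)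
      obtain ⟨τ, hτ⟩ := g3
      have k1 : (d : ℤ) ∣ τ := by
        have : (d : ℤ) ∣ (B' * N) * τ := by
          have h1 := dvd_sub e4 hs4
          rw [ht, hτ] at h1
          rwa [← mul_assoc] at h1
        exact hdBN.symm.dvd_of_dvd_mul_left this
      have k2 : (u : ℤ) ∣ τ := by
        have : (u : ℤ) ∣ (A' * N) * τ := by
          have h1 := dvd_sub e5 hs5
          rw [f3, hτ] at h1
          rwa [← mul_assoc] at h1
        exact huAN.symm.dvd_of_dvd_mul_left this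
      obtain ⟨j, hj⟩ := hduI.mul_dvd k1 k2
      refine ⟨j, ?_⟩
      ext
      · simp only
        rw [hL]
        have : n = n1 + B' * t := by linarith
        rw [this, hτ, hj]; ring
      · simp only
        rw [hL']
        have : m = m1 + A' * t := by linarith
        rw [this, hτ, hj]; ring
    · rintro ⟨j, hj⟩
      obtain ⟨rfl, rfl⟩ := Prod.mk.inj hj
      refine ⟨?_, ?_, ?_, ?_, ?_⟩
      · simp only
        linear_combination hs1 + j * hAL
      · refine Int.ModEq.trans ?_ hs2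
        have : n1 + L * j = n1 + N * (B' * (d * u) * j) := by rw [hL]; ring
        simp only
        rw [this]
        exact Int.add_mul_emod_self_left _ _ _
      · refine Int.ModEq.trans ?_ hs3
        have : m1 + L' * j = m1 + N * (A' * (d * u) * j) := by rw [hL']; ring
        simp only
        rw [this]
        exact Int.add_mul_emod_self_left _ _ _
      · refine dvd_add hs4 ?_
        rw [hL]
        exact ⟨B' * N * u * j, by ring⟩
      · refine dvd_add hs5 ?_
        rw [hL']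
        exact ⟨A' * N * d * j, by ring⟩
  have hA0 : (0 : ℤ) < A := by exact_mod_cast hA
  set M : ℤ := A * L with hM
  have hM0 : 0 < M := mul_pos hA0 hL0
  have hSI : S = (Finset.Ioc ((lo - A * n1) / M) ((hi - A * n1) / M)).image
      (fun j : ℤ => ((n1 + L * j, m1 + L' * j) : ℤ × ℤ)) := by
    ext p
    rw [hS, mem_image]
    constructor
    · rintro ⟨e1, e2, e3, e4, e5, e6, e7⟩
      obtain ⟨j, hj⟩ := (hpar p).1 ⟨e1, e4, e5, e6, e7⟩
      refine ⟨j, ?_, hj.symm⟩
      rw [hj] at e2 e3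
      simp only at e2 e3
      rw [mem_Ioc]
      have hexp : (A : ℤ) * (n1 + L * j) = A * n1 + j * (A * L) := by ring
      rw [hexp] at e2 e3
      constructor
      · rw [Int.ediv_lt_iff_lt_mul hM0, hM]; linarith
      · rw [Int.le_ediv_iff_mul_le hM0, hM]; linarith
    · rintro ⟨j, hj, rfl⟩
      rw [mem_Ioc] at hj
      obtain ⟨e1, e2, e3, e4, e5⟩ := (hpar _).2 ⟨j, rfl⟩
      have hj1 := (Int.ediv_lt_iff_lt_mul hM0).1 hj.1
      have hj2 := (Int.le_ediv_iff_mul_le hM0).1 hj.2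
      have hexp : (A : ℤ) * (n1 + L * j) = A * n1 + j * (A * L) := by ring
      refine ⟨e1, ?_, ?_, e2, e3, e4, e5⟩
      · simp only; rw [hM] at hj1; rw [hexp]; linarith
      · simp only; rw [hM] at hj2; rw [hexp]; linarith
  have hcard : S.card = (Finset.Ioc ((lo - A * n1) / M) ((hi - A * n1) / M)).card := by
    rw [hSI, card_image_of_injective]
    intro i j hij
    have h1 : n1 + L * i = n1 + L * j := congrArg Prod.fst hij
    have h2 : L * i = L * j := by linarith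
    exact mul_left_cancel₀ hL0.ne' h2
  have hfin := S04_count hM0 (A * n1) lo hi hlh
  rw [← hcard] at hfin
  have hval : (Nat.gcd A B : ℝ) * ((hi - lo : ℤ) : ℝ) / ((A : ℝ) * B * N * d * u) =
      ((hi - lo : ℤ) : ℝ) / (M : ℝ) := by
    rw [hgcd, hM, hL]
    push_cast
    have hgr : (0 : ℝ) < g := by exact_mod_cast hg
    have hAr : (0 : ℝ) < A := by exact_mod_cast hA
    have hBr : (0 : ℝ) < B' := by exact_mod_cast hB'0
    have hNr : (0 : ℝ) < N := by exact_mod_cast hN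
    have hdr : (0 : ℝ) < d := by exact_mod_cast hd
    have hur : (0 : ℝ) < u := by exact_mod_cast hu
    have hBB : (B : ℝ) = B' * g := by rw [hB']; push_cast; ring
    rw [hBB]
    field_simp
  rw [hval]
  exact hfin.trans (by norm_num)

end RQ
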