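import Pool.Agent.Lib.MP_0f5a55_nt.RQ.S03
import Pool.Agent.Lib.MP_0f5a55_nt.RQ.S04

open Complex Finset
open scoped Real ComplexConjugate

namespace RQ

private theorem S05_down (P : ℕ → Prop) [DecidablePred P] (hP : ∀ a b, a ≤ b → P b → P a) (M : ℕ) :
    ∃ D, (Icc 1 M).filter P = Icc 1 D := by
  induction M with
  | zero => exact ⟨0, by simp⟩
  | succ M ih =>
    by_cases h : P (M+1)
    · refine ⟨M+1, ?_⟩
      ext a; simp only [mem_filter, mem_Icc]
      exact ⟨fun h => h.1, fun h' => ⟨h', hP a (M+1) h'.2 h⟩⟩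
    · obtain ⟨D, hD⟩ := ih
      refine ⟨D, ?_⟩
      rw [← hD]
      ext a; simp only [mem_filter, mem_Icc]
      constructor
      · rintro ⟨⟨h1, h2⟩, h3⟩
        refine ⟨⟨h1, ?_⟩, h3⟩
        rcases Nat.lt_or_ge a (M+1) with h4 | h4
        · omega
        · have h5 : a = M + 1 := by omega
          rw [h5] at h3
          exact absurd h3 h
      · rintro ⟨⟨h1, h2⟩, h3⟩
        exact ⟨⟨h1, by omega⟩, h3⟩

/-- Sd over a fixed range -/
private theorem S05_Sd (f : ℕ → ℂ) {n M : ℕ} (h1 : 1 ≤ n) (h2 : n ≤ M) :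
    Sd f n = ∑ d ∈ Icc 1 M, if (d ∣ n ∧ d * d < n) then f d else 0 := by
  unfold Sd
  rw [← Finset.sum_filter]
  apply Finset.sum_congr _ (fun _ _ => rfl)
  ext d
  simp only [mem_filter, Nat.mem_divisors, mem_Icc]
  constructor
  · rintro ⟨⟨h3, h4⟩, h5⟩
    exact ⟨⟨Nat.pos_of_dvd_of_pos h3 h1, (Nat.le_of_dvd h1 h3).trans h2⟩, h3, h5⟩
  · rintro ⟨_, h3, h5⟩
    exact ⟨⟨h3, by omega⟩, h5⟩

private theorem S05_expand (f g : ℕ → ℂ) {n m M : ℕ} (h1 : 1 ≤ n) (h2 : n ≤ M) (h3 : 1 ≤ m) (h4 : m ≤ M) :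
    Sd f n * Sd g m = ∑ d ∈ Icc 1 M, ∑ u ∈ Icc 1 M,
      if ((d ∣ n ∧ d * d < n) ∧ (u ∣ m ∧ u * u < m)) then f d * g u else 0 := by
  rw [S05_Sd f h1 h2, S05_Sd g h3 h4, Finset.sum_mul_sum]
  apply Finset.sum_congr rfl; intro d _
  apply Finset.sum_congr rfl; intro u _
  by_cases a : (d ∣ n ∧ d * d < n) <;> by_cases b : (u ∣ m ∧ u * u < m) <;> simp [a, b]

/-- the set of solutions for fixed d, u -/
private def S05T (k : ℤ) (A B X N b b' d u : ℕ) : Finset (ℕ × ℕ) :=
  ((LP k A B X).filter (fun p => p.1 ≡ b [MOD N] ∧ p.2 ≡ b' [MOD N])).filter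
    (fun p => (d ∣ p.1 ∧ d * d < p.1) ∧ (u ∣ p.2 ∧ u * u < p.2))

private theorem S05_mem {k : ℤ} {A B X N b b' d u : ℕ} {p : ℕ × ℕ} : p ∈ S05T k A B X N b b' d u ↔
    ((((1 ≤ p.1 ∧ p.1 ≤ X) ∧ (1 ≤ p.2 ∧ p.2 ≤ X + k.natAbs)) ∧ (A * p.1 ≤ X ∧ (A : ℤ) * p.1 - B * p.2 = k)) ∧
      (p.1 ≡ b [MOD N] ∧ p.2 ≡ b' [MOD N])) ∧ ((d ∣ p.1 ∧ d * d < p.1) ∧ (u ∣ p.2 ∧ u * u < p.2)) := by
  simp only [S05T, LP, mem_filter, mem_product, mem_Icc]

private theorem S05_count {k : ℤ} {A B X N b b' d u : ℕ} (hN : 0 < N) (hA : 0 < A) (hB : 0 < B)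
    (hAN : ∀ p : ℕ, p.Prime → p ∣ A → p ∣ N) (hBN : ∀ p : ℕ, p.Prime → p ∣ B → p ∣ N)
    (n0 m0 : ℤ) (h0 : (A : ℤ) * n0 - B * m0 = k) (c1 : n0 ≡ b [ZMOD N]) (c2 : m0 ≡ b' [ZMOD N])
    (hd : 0 < d) (hu : 0 < u) (hdu : Nat.Coprime d u) (hdN : Nat.Coprime d N) (huN : Nat.Coprime u N) :
    |((S05T k A B X N b b' d u).card : ℝ) - (Nat.gcd A B : ℝ) / ((A : ℝ) * B * N) *
      (((Icc 1 X).filter (fun v : ℕ => A * (d * d) < v ∧ (B : ℤ) * (u * u) + k < v)).card : ℝ) / (d * u)| ≤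
      if (A * (d * d) < X ∧ (B : ℤ) * (u * u) + k < X) then 2 else 0 := by
  split_ifs with hX
  · set lo : ℤ := max ((A : ℤ) * (d * d)) ((B : ℤ) * (u * u) + k) with hlo
    have hlo0 : 0 ≤ lo := le_max_of_le_left (by positivity)
    have hloX : lo < X := by
      rw [hlo]
      refine max_lt ?_ hX.2
      have := hX.1
      zify at this
      exact this
    have hcardP : (((Icc 1 X).filter (fun v : ℕ => A * (d * d) < v ∧ (B : ℤ) * (u * u) + k < v)).card : ℝ) =
        ((X - lo : ℤ) : ℝ) := by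
      obtain ⟨l, hl⟩ := Int.eq_ofNat_of_zero_le hlo0
      have e : (Icc 1 X).filter (fun v : ℕ => A * (d * d) < v ∧ (B : ℤ) * (u * u) + k < v) = Ioc l X := by
        ext v
        simp only [mem_filter, mem_Icc, mem_Ioc]
        have e1 : (A * (d * d) < v ∧ (B : ℤ) * (u * u) + k < v) ↔ l < v := by
          have e2 : lo < (v : ℤ) ↔ ((A : ℤ) * (d * d) < v ∧ (B : ℤ) * (u * u) + k < v) := by
            rw [hlo]; exact max_lt_iff
          rw [hl] at e2
          constructor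
          · intro h
            have := e2.2 ⟨by exact_mod_cast h.1, h.2⟩
            exact_mod_cast this
          · intro h
            have := e2.1 (by exact_mod_cast h)
            exact ⟨by exact_mod_cast this.1, this.2⟩
        rw [e1]
        constructor
        · rintro ⟨⟨_, h2⟩, h3⟩; exact ⟨h3, h2⟩
        · rintro ⟨h3, h2⟩; exact ⟨⟨by omega, h2⟩, h3⟩
      rw [e, Nat.card_Ioc, hl]
      have h3 : l ≤ X := by
        rw [hl] at hloX
        have : (l : ℤ) < X := hloX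
        omega
      push_cast [Nat.cast_sub h3]
      ring
    let S : Finset (ℤ × ℤ) := (S05T k A B X N b b' d u).image (fun p => ((p.1 : ℤ), (p.2 : ℤ)))
    have hScard : S.card = (S05T k A B X N b b' d u).card := by
      apply Finset.card_image_of_injective
      intro p q h
      simp only [Prod.mk.injEq, Nat.cast_inj] at h
      exact Prod.ext h.1 h.2
    have hS : ∀ p : ℤ × ℤ, p ∈ S ↔ (A : ℤ) * p.1 - B * p.2 = k ∧ lo < A * p.1 ∧ A * p.1 ≤ (X : ℤ) ∧ p.1 ≡ b [ZMOD N] ∧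
      p.2 ≡ b' [ZMOD N] ∧ (d : ℤ) ∣ p.1 ∧ (u : ℤ) ∣ p.2 := by
      rintro ⟨n, m⟩
      simp only [S, mem_image, Prod.mk.injEq]
      constructor
      · rintro ⟨p, hp, rfl, rfl⟩
        rw [S05_mem] at hp
        obtain ⟨⟨⟨_, h1, h2⟩, h3, h4⟩, ⟨h5, h6⟩, h7, h8⟩ := hp
        have h6' : (d : ℤ) * d < p.1 := by exact_mod_cast h6
        have h8' : (u : ℤ) * u < p.2 := by exact_mod_cast h8
        have hA' : (0 : ℤ) < A := by exact_mod_cast hA
        have hB' : (0 : ℤ) < B := by exact_mod_cast hB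
        refine ⟨h2, ?_, by exact_mod_cast h1, (Int.natCast_modEq_iff).2 h3, (Int.natCast_modEq_iff).2 h4,
          by exact_mod_cast h5, by exact_mod_cast h7⟩
        rw [hlo]
        refine max_lt ?_ ?_
        · exact mul_lt_mul_of_pos_left h6' hA'
        · have := mul_lt_mul_of_pos_left h8' hB'
          linarith
      · rintro ⟨h1, h2, h3, h4, h5, h6, h7⟩
        have hA' : (0 : ℤ) < A := by exact_mod_cast hA
        have hB' : (0 : ℤ) < B := by exact_mod_cast hB
        rw [hlo, max_lt_iff] at h2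
        have h8 : (d : ℤ) * d < n := lt_of_mul_lt_mul_left h2.1 hA'.le
        have h9 : (u : ℤ) * u < m := by
          have : (B : ℤ) * (u * u) < B * m := by linarith [h2.2]
          exact lt_of_mul_lt_mul_left this hB'.le
        have hd1 : (0 : ℤ) < d * d := by positivity
        have hu1 : (0 : ℤ) < u * u := by positivity
        obtain ⟨n', rfl⟩ := Int.eq_ofNat_of_zero_le (a := n) (by omega)
        obtain ⟨m', rfl⟩ := Int.eq_ofNat_of_zero_le (a := m) (by omega)
        refine ⟨(n', m'), ?_, rfl, rfl⟩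
        rw [S05_mem]
        have hA1 : (1 : ℤ) ≤ A := by omega
        have hB1 : (1 : ℤ) ≤ B := by omega
        have g1 : (n' : ℤ) ≤ A * n' := by nlinarith
        have g2 : (m' : ℤ) ≤ B * m' := by nlinarith
        have g3 : (m' : ℤ) ≤ X + k.natAbs := by
          have : -k ≤ k.natAbs := by
            rw [Int.natCast_natAbs]; exact neg_le_abs k
          linarith
        refine ⟨⟨⟨⟨⟨?_, ?_⟩, ?_, ?_⟩, ?_, h1⟩, (Int.natCast_modEq_iff).1 h4, (Int.natCast_modEq_iff).1 h5⟩,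
          ⟨by exact_mod_cast h6, by exact_mod_cast h8⟩, by exact_mod_cast h7, by exact_mod_cast h9⟩
        · have : (0 : ℤ) < n' := by linarith
          simp only; omega
        · have : (n' : ℤ) ≤ X := g1.trans h3
          simp only; omega
        · have : (0 : ℤ) < m' := by linarith
          simp only; omega
        · simp only; omega
        · simp only; exact_mod_cast h3
    have := count_line hN hA hB hAN hBN n0 m0 h0 c1 c2 hd hu hdu hdN huN lo X hloX.le S hS
    rw [hScard] at this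
    rw [hcardP]
    have e : (Nat.gcd A B : ℝ) / ((A : ℝ) * B * N) * ((X - lo : ℤ) : ℝ) / (d * u) =
        (Nat.gcd A B : ℝ) * (((X : ℤ) - lo : ℤ) : ℝ) / ((A : ℝ) * B * N * d * u) := by
      have h1 : (d : ℝ) ≠ 0 := by positivity
      have h2 : (u : ℝ) ≠ 0 := by positivity
      have h3 : (A : ℝ) ≠ 0 := by positivity
      have h4 : (B : ℝ) ≠ 0 := by positivity
      have h5 : (N : ℝ) ≠ 0 := by positivity
      field_simp
    rw [e]
    exact this
  · have e1 : S05T k A B X N b b' d u = ∅ := by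
      apply Finset.eq_empty_of_forall_notMem
      intro p hp
      rw [S05_mem] at hp
      obtain ⟨⟨⟨_, h1, h2⟩, h3, h4⟩, ⟨h5, h6⟩, h7, h8⟩ := hp
      apply hX
      constructor
      · calc A * (d * d) < A * p.1 := Nat.mul_lt_mul_of_pos_left h6 hA
          _ ≤ X := h1
      · have h8' : (u : ℤ) * u < p.2 := by exact_mod_cast h8
        have hB' : (0 : ℤ) < B := by exact_mod_cast hB
        have := mul_lt_mul_of_pos_left h8' hB'
        have h1' : (A : ℤ) * p.1 ≤ X := by exact_mod_cast h1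
        linarith
    have e2 : (Icc 1 X).filter (fun v : ℕ => A * (d * d) < v ∧ (B : ℤ) * (u * u) + k < v) = ∅ := by
      apply Finset.eq_empty_of_forall_notMem
      intro v hv
      simp only [mem_filter, mem_Icc] at hv
      apply hX
      refine ⟨by omega, ?_⟩
      have : (v : ℤ) ≤ X := by exact_mod_cast hv.1.2
      linarith [hv.2.2]
    rw [e1, e2]; simp

/-- count of d with A d d < X -/
private theorem S05_sqrt {A Y : ℕ} (hA : 0 < A) (P : ℕ → Prop) [DecidablePred P] (M : ℕ)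
    (hP : ∀ a b, a ≤ b → P b → P a) (hY : ∀ a, 1 ≤ a → P a → A * (a * a) ≤ Y) :
    (((Icc 1 M).filter P).card : ℝ) ≤ √((Y : ℝ) / A) := by
  obtain ⟨D, hD⟩ := S05_down P hP M
  rw [hD]
  simp only [Nat.card_Icc, Nat.add_sub_cancel]
  rcases Nat.eq_zero_or_pos D with h | h
  · rw [h]; simp only [Nat.cast_zero]; positivity
  · have h1 : D ∈ (Icc 1 M).filter P := by rw [hD]; simp; omega
    have h2 := hY D h (by simpa using (mem_filter.1 h1).2)
    apply Real.le_sqrt_of_sq_le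
    rw [le_div_iff₀ (by positivity)]
    have : ((A * (D * D) : ℕ) : ℝ) ≤ Y := by exact_mod_cast h2
    push_cast at this
    nlinarith

private theorem S05_main {f g : ℕ → ℂ} {K : ℝ} (hf : CM f K) (hg : CM g K) (A B X M : ℕ) (k : ℤ) :
    ‖∑ d ∈ Icc 1 M, ∑ u ∈ Icc 1 M, (if Nat.Coprime d u then f d * g u / (d * u) else 0) *
      ((((Icc 1 X).filter (fun v : ℕ => A * (d * d) < v ∧ (B : ℤ) * (u * u) + k < v)).card : ℕ) : ℂ)‖ ≤
      X * (2 * K ^ 2) := by
  have e1 : ∑ d ∈ Icc 1 M, ∑ u ∈ Icc 1 M, (if Nat.Coprime d u then f d * g u / (d * u) else 0) *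
      ((((Icc 1 X).filter (fun v : ℕ => A * (d * d) < v ∧ (B : ℤ) * (u * u) + k < v)).card : ℕ) : ℂ) =
      ∑ v ∈ Icc 1 X, ∑ d ∈ (Icc 1 M).filter (fun d => A * (d * d) < v),
        ∑ u ∈ (Icc 1 M).filter (fun u : ℕ => (B : ℤ) * (u * u) + k < v),
          (if Nat.Coprime d u then f d * g u / (d * u) else 0) := by
    calc _ = ∑ d ∈ Icc 1 M, ∑ u ∈ Icc 1 M, ∑ v ∈ Icc 1 X,
          (if A * (d * d) < v then (if (B : ℤ) * (u * u) + k < v then
            (if Nat.Coprime d u then f d * g u / (d * u) else 0) else 0) else 0) := by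
          apply Finset.sum_congr rfl; intro d _
          apply Finset.sum_congr rfl; intro u _
          rw [Finset.card_eq_sum_ones, Nat.cast_sum, Finset.mul_sum, Finset.sum_filter]
          apply Finset.sum_congr rfl; intro v _
          by_cases a : A * (d * d) < v <;> by_cases b : (B : ℤ) * (u * u) + k < v <;> simp [a, b]
      _ = ∑ d ∈ Icc 1 M, ∑ v ∈ Icc 1 X, ∑ u ∈ Icc 1 M,
          (if A * (d * d) < v then (if (B : ℤ) * (u * u) + k < v then
            (if Nat.Coprime d u then f d * g u / (d * u) else 0) else 0) else 0) := by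
          apply Finset.sum_congr rfl; intro d _
          exact Finset.sum_comm
      _ = ∑ v ∈ Icc 1 X, ∑ d ∈ Icc 1 M, ∑ u ∈ Icc 1 M,
          (if A * (d * d) < v then (if (B : ℤ) * (u * u) + k < v then
            (if Nat.Coprime d u then f d * g u / (d * u) else 0) else 0) else 0) := Finset.sum_comm
      _ = _ := by
          apply Finset.sum_congr rfl; intro v _
          rw [Finset.sum_filter]
          apply Finset.sum_congr rfl; intro d _
          by_cases a : A * (d * d) < v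
          · simp only [a, if_true]
            rw [Finset.sum_filter]
          · simp [a]
  rw [e1]
  calc _ ≤ ∑ v ∈ Icc 1 X, (2 * K ^ 2) := by
        apply norm_sum_le_of_le
        intro v _
        obtain ⟨D, hD⟩ := S05_down (fun d => A * (d * d) < v) (by
          intro a b hab h
          exact (Nat.mul_le_mul_left A (Nat.mul_le_mul hab hab)).trans_lt h) M
        obtain ⟨U, hU⟩ := S05_down (fun u : ℕ => (B : ℤ) * (u * u) + k < v) (by
          intro a b hab h
          have : (B : ℤ) * (a * a) ≤ B * (b * b) := by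
            exact_mod_cast Nat.mul_le_mul_left B (Nat.mul_le_mul hab hab)
          linarith) M
        rw [hD, hU]
        exact cop_sum hf hg D U
    _ = _ := by simp

/-- Row S05. One pair of classes. -/
theorem line_class : ∃ C : ℝ, 0 < C ∧ ∀ (f g : ℕ → ℂ) (K : ℝ), CM f K → CM g K → 1 ≤ K → ∀ N : ℕ, 0 < N →
    (∀ n, ¬ Nat.Coprime n N → f n = 0) → (∀ n, ¬ Nat.Coprime n N → g n = 0) → ∀ A B : ℕ, 0 < A → 0 < B →
    (∀ p : ℕ, p.Prime → p ∣ A → p ∣ N) → (∀ p : ℕ, p.Prime → p ∣ B → p ∣ N) → ∀ k : ℤ, k ≠ 0 → k ∣ (N : ℤ) →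
    ∀ b b' X : ℕ, Nat.Coprime b N → Nat.Coprime b' N → 1 ≤ X →
    ‖∑ p ∈ (LP k A B X).filter (fun p => p.1 ≡ b [MOD N] ∧ p.2 ≡ b' [MOD N]), Sd f p.1 * Sd g p.2‖ ≤
      C * K ^ 2 * k.natAbs * X / √(A * B) := by
  refine ⟨6, by norm_num, ?_⟩
  intro f g K hf hg hK N hN hfN hgN A B hA hB hAN hBN k hk hkN b b' X _ _ hX
  have hkpos : 1 ≤ k.natAbs := Nat.one_le_iff_ne_zero.2 (Int.natAbs_ne_zero.2 hk)
  have hk1 : (1 : ℝ) ≤ (k.natAbs : ℝ) := by exact_mod_cast hkpos
  have hX1 : (1 : ℝ) ≤ (X : ℝ) := by exact_mod_cast hX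
  have hA1 : (1 : ℝ) ≤ (A : ℝ) := by exact_mod_cast hA
  have hB1 : (1 : ℝ) ≤ (B : ℝ) := by exact_mod_cast hB
  have hN1 : (1 : ℝ) ≤ (N : ℝ) := by exact_mod_cast hN
  have hAB1 : (1 : ℝ) ≤ (A : ℝ) * B := by nlinarith
  have hsq1 : 1 ≤ √((A : ℝ) * B) := Real.one_le_sqrt.2 hAB1
  have hsq0 : 0 < √((A : ℝ) * B) := by linarith
  set M : ℕ := X + k.natAbs with hM
  have e1 : ∑ p ∈ (LP k A B X).filter (fun p => p.1 ≡ b [MOD N] ∧ p.2 ≡ b' [MOD N]), Sd f p.1 * Sd g p.2 =
      ∑ d ∈ Icc 1 M, ∑ u ∈ Icc 1 M, (f d * g u) * ((S05T k A B X N b b' d u).card : ℂ) := by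
    calc _ = ∑ p ∈ (LP k A B X).filter (fun p => p.1 ≡ b [MOD N] ∧ p.2 ≡ b' [MOD N]),
          ∑ d ∈ Icc 1 M, ∑ u ∈ Icc 1 M,
          if ((d ∣ p.1 ∧ d * d < p.1) ∧ (u ∣ p.2 ∧ u * u < p.2)) then f d * g u else 0 := by
          apply Finset.sum_congr rfl; intro p hp
          simp only [LP, mem_filter, mem_product, mem_Icc] at hp
          exact S05_expand f g hp.1.1.1.1 (by omega) hp.1.1.2.1 (by omega)
      _ = ∑ d ∈ Icc 1 M, ∑ u ∈ Icc 1 M, ∑ p ∈ (LP k A B X).filter (fun p => p.1 ≡ b [MOD N] ∧ p.2 ≡ b' [MOD N]),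
          if ((d ∣ p.1 ∧ d * d < p.1) ∧ (u ∣ p.2 ∧ u * u < p.2)) then f d * g u else 0 := by
          rw [Finset.sum_comm]
          apply Finset.sum_congr rfl; intro d _
          rw [Finset.sum_comm]
      _ = _ := by
          apply Finset.sum_congr rfl; intro d _
          apply Finset.sum_congr rfl; intro u _
          rw [← Finset.sum_filter, Finset.sum_const, nsmul_eq_mul, mul_comm]
          rfl
  rw [e1]
  have hRHS0 : 0 ≤ 6 * K ^ 2 * k.natAbs * X / √(A * B) := by positivity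
  by_cases hsol : ∃ n0 m0 : ℤ, (A : ℤ) * n0 - B * m0 = k ∧ n0 ≡ b [ZMOD N] ∧ m0 ≡ b' [ZMOD N]
  swap
  · have e2 : ∀ d u : ℕ, S05T k A B X N b b' d u = ∅ := by
      intro d u
      apply Finset.eq_empty_of_forall_notMem
      intro p hp
      rw [S05_mem] at hp
      exact hsol ⟨p.1, p.2, hp.1.1.2.2, (Int.natCast_modEq_iff).2 hp.1.2.1, (Int.natCast_modEq_iff).2 hp.1.2.2⟩
    simp only [e2, Finset.card_empty, Nat.cast_zero, mul_zero, Finset.sum_const_zero, norm_zero]
    exact hRHS0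
  obtain ⟨n0, m0, h0, c1, c2⟩ := hsol
  set c : ℝ := (Nat.gcd A B : ℝ) / ((A : ℝ) * B * N) with hc
  have hc0 : 0 ≤ c := by positivity
  -- the comparison
  have hcmp : ∀ d ∈ Icc 1 M, ∀ u ∈ Icc 1 M, ‖(f d * g u) * ((S05T k A B X N b b' d u).card : ℂ) -
      (c : ℂ) * ((if Nat.Coprime d u then f d * g u / (d * u) else 0) *
      ((((Icc 1 X).filter (fun v : ℕ => A * (d * d) < v ∧ (B : ℤ) * (u * u) + k < v)).card : ℕ) : ℂ))‖ ≤
      (if A * (d * d) < X then 1 else 0) * (if (B : ℤ) * (u * u) + k < X then 2 else 0) := by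
    intro d hd u hu
    have hd1 := (mem_Icc.1 hd).1
    have hu1 := (mem_Icc.1 hu).1
    have hnn : (0 : ℝ) ≤ (if A * (d * d) < X then 1 else 0) * (if (B : ℤ) * (u * u) + k < X then 2 else 0) := by
      split_ifs <;> norm_num
    by_cases h1 : f d = 0
    · simpa [h1] using hnn
    by_cases h2 : g u = 0
    · simpa [h2] using hnn
    have hdN : Nat.Coprime d N := by by_contra h; exact h1 (hfN d h)
    have huN : Nat.Coprime u N := by by_contra h; exact h2 (hgN u h)
    by_cases h3 : Nat.Coprime d u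
    · have h4 := S05_count (X := X) hN hA hB hAN hBN n0 m0 h0 c1 c2 hd1 hu1 h3 hdN huN
      rw [if_pos h3]
      have e3 : (f d * g u) * ((S05T k A B X N b b' d u).card : ℂ) - (c : ℂ) * (f d * g u / (d * u) *
          ((((Icc 1 X).filter (fun v : ℕ => A * (d * d) < v ∧ (B : ℤ) * (u * u) + k < v)).card : ℕ) : ℂ)) =
          (f d * g u) * ((((S05T k A B X N b b' d u).card : ℝ) - c *
          (((Icc 1 X).filter (fun v : ℕ => A * (d * d) < v ∧ (B : ℤ) * (u * u) + k < v)).card : ℝ) / (d * u) : ℝ) : ℂ) := by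
        push_cast
        ring
      rw [e3, norm_mul, Complex.norm_real, Real.norm_eq_abs]
      have h5 : ‖f d * g u‖ ≤ 1 := by
        rw [norm_mul]
        exact mul_le_one₀ (hf.2.1 d) (norm_nonneg _) (hg.2.1 u)
      have h6 : (if (A * (d * d) < X ∧ (B : ℤ) * (u * u) + k < X) then (2 : ℝ) else 0) =
          (if A * (d * d) < X then 1 else 0) * (if (B : ℤ) * (u * u) + k < X then 2 else 0) := by
        by_cases a : A * (d * d) < X <;> by_cases b : (B : ℤ) * (u * u) + k < X <;> simp [a, b]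
      rw [← h6]
      calc _ ≤ 1 * |((S05T k A B X N b b' d u).card : ℝ) - c *
          (((Icc 1 X).filter (fun v : ℕ => A * (d * d) < v ∧ (B : ℤ) * (u * u) + k < v)).card : ℝ) / (d * u)| :=
            mul_le_mul_of_nonneg_right h5 (abs_nonneg _)
        _ ≤ _ := by rw [one_mul]; exact h4
    · have e4 : S05T k A B X N b b' d u = ∅ := by
        apply Finset.eq_empty_of_forall_notMem
        intro p hp
        rw [S05_mem] at hp
        obtain ⟨q, hq, hqd, hqu⟩ := Nat.Prime.not_coprime_iff_dvd.1 h3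
        have g1 : (q : ℤ) ∣ p.1 := by exact_mod_cast hqd.trans hp.2.1.1
        have g2 : (q : ℤ) ∣ p.2 := by exact_mod_cast hqu.trans hp.2.2.1
        have g3 : (q : ℤ) ∣ k := by
          rw [← hp.1.1.2.2]
          exact dvd_sub (Dvd.dvd.mul_left g1 _) (Dvd.dvd.mul_left g2 _)
        have g4 : q ∣ N := by exact_mod_cast g3.trans hkN
        have g5 : q ∣ Nat.gcd d N := Nat.dvd_gcd hqd g4
        rw [hdN] at g5
        exact hq.one_lt.ne' (Nat.dvd_one.1 g5)
      rw [e4, if_neg h3]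
      simpa using hnn
  set Mn : ℂ := ∑ d ∈ Icc 1 M, ∑ u ∈ Icc 1 M, (if Nat.Coprime d u then f d * g u / (d * u) else 0) *
      ((((Icc 1 X).filter (fun v : ℕ => A * (d * d) < v ∧ (B : ℤ) * (u * u) + k < v)).card : ℕ) : ℂ) with hMn
  have hMn1 : ‖Mn‖ ≤ X * (2 * K ^ 2) := S05_main hf hg A B X M k
  have hdiff : ‖(∑ d ∈ Icc 1 M, ∑ u ∈ Icc 1 M, (f d * g u) * ((S05T k A B X N b b' d u).card : ℂ)) - (c : ℂ) * Mn‖ ≤
      √((X : ℝ) / A) * (2 * √((M : ℝ) / B)) := by
    have e5 : (∑ d ∈ Icc 1 M, ∑ u ∈ Icc 1 M, (f d * g u) * ((S05T k A B X N b b' d u).card : ℂ)) - (c : ℂ) * Mn =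
        ∑ d ∈ Icc 1 M, ∑ u ∈ Icc 1 M, ((f d * g u) * ((S05T k A B X N b b' d u).card : ℂ) -
      (c : ℂ) * ((if Nat.Coprime d u then f d * g u / (d * u) else 0) *
      ((((Icc 1 X).filter (fun v : ℕ => A * (d * d) < v ∧ (B : ℤ) * (u * u) + k < v)).card : ℕ) : ℂ))) := by
      rw [hMn, Finset.mul_sum, ← Finset.sum_sub_distrib]
      apply Finset.sum_congr rfl; intro d _
      rw [Finset.mul_sum, ← Finset.sum_sub_distrib]
    rw [e5]
    calc _ ≤ ∑ d ∈ Icc 1 M, ∑ u ∈ Icc 1 M, ((if A * (d * d) < X then (1 : ℝ) else 0) *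
          (if (B : ℤ) * (u * u) + k < X then (2 : ℝ) else 0)) := by
          apply norm_sum_le_of_le; intro d hd
          apply norm_sum_le_of_le; intro u hu
          exact hcmp d hd u hu
      _ = (∑ d ∈ Icc 1 M, (if A * (d * d) < X then (1 : ℝ) else 0)) *
          (∑ u ∈ Icc 1 M, (if (B : ℤ) * (u * u) + k < X then (2 : ℝ) else 0)) := by
          rw [Finset.sum_mul_sum]
      _ = (((Icc 1 M).filter (fun d => A * (d * d) < X)).card : ℝ) *
          (2 * (((Icc 1 M).filter (fun u : ℕ => (B : ℤ) * (u * u) + k < X)).card : ℝ)) := by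
          congr 1
          · rw [← Finset.sum_filter]; simp
          · rw [← Finset.sum_filter]; simp; ring
      _ ≤ _ := by
          have g1 := S05_sqrt (Y := X) hA (fun d => A * (d * d) < X) M (by
            intro a b hab h
            exact (Nat.mul_le_mul_left A (Nat.mul_le_mul hab hab)).trans_lt h) (fun a _ h => h.le)
          have g2 := S05_sqrt (Y := M) hB (fun u : ℕ => (B : ℤ) * (u * u) + k < X) M (by
            intro a b hab h
            have : (B : ℤ) * (a * a) ≤ B * (b * b) := by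
              exact_mod_cast Nat.mul_le_mul_left B (Nat.mul_le_mul hab hab)
            linarith) (by
            intro a _ h
            have h7 : -k ≤ k.natAbs := by
              rw [Int.natCast_natAbs]; exact neg_le_abs k
            have h8 : ((B * (a * a) : ℕ) : ℤ) ≤ ((X + k.natAbs : ℕ) : ℤ) := by
              push_cast
              push_cast at h7
              linarith
            rw [hM]
            exact_mod_cast h8)
          exact mul_le_mul g1 (mul_le_mul_of_nonneg_left g2 (by norm_num)) (by positivity) (by positivity)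
  have hroot : √((X : ℝ) / A) * (2 * √((M : ℝ) / B)) ≤ 4 * k.natAbs * X / √(A * B) := by
    have e6 : √((X : ℝ) / A) * (2 * √((M : ℝ) / B)) = 2 * √((X : ℝ) * M) / √((A : ℝ) * B) := by
      rw [show √((X : ℝ) / A) * (2 * √((M : ℝ) / B)) = 2 * (√((X : ℝ) / A) * √((M : ℝ) / B)) by ring,
        ← Real.sqrt_mul (by positivity), show (X : ℝ) / A * ((M : ℝ) / B) = (X * M) / (A * B) by
          field_simp, Real.sqrt_div (by positivity)]
      ring
    rw [e6]
    apply div_le_div_of_nonneg_right _ hsq0.le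
    have e7 : √((X : ℝ) * M) ≤ 2 * k.natAbs * X := by
      apply Real.sqrt_le_iff.2
      refine ⟨by positivity, ?_⟩
      rw [hM]
      push_cast
      nlinarith [mul_nonneg (sub_nonneg.2 hk1) (sub_nonneg.2 hX1), mul_pos (lt_of_lt_of_le one_pos hk1) (lt_of_lt_of_le one_pos hX1),
        mul_nonneg (mul_nonneg (sub_nonneg.2 hk1) (sub_nonneg.2 hX1)) (lt_of_lt_of_le one_pos hX1).le]
    linarith
  have hcb : c ≤ k.natAbs / √(A * B) := by
    rw [hc]
    have g1 : Nat.gcd A B ≤ k.natAbs := by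
      apply Nat.le_of_dvd hkpos
      have g2 : ((Nat.gcd A B : ℕ) : ℤ) ∣ k := by
        rw [← h0]
        exact dvd_sub (Dvd.dvd.mul_right (by exact_mod_cast Nat.gcd_dvd_left A B) _)
          (Dvd.dvd.mul_right (by exact_mod_cast Nat.gcd_dvd_right A B) _)
      exact Int.natCast_dvd.1 g2
    have g3 : √((A : ℝ) * B) ≤ (A : ℝ) * B * N := by
      have g4 : √((A : ℝ) * B) ≤ (A : ℝ) * B := by
        rw [Real.sqrt_le_iff]
        exact ⟨by positivity, by nlinarith⟩
      nlinarith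
    have g5 : ((Nat.gcd A B : ℕ) : ℝ) ≤ (k.natAbs : ℝ) := by exact_mod_cast g1
    exact div_le_div₀ (by positivity) g5 hsq0 g3
  have hmain : ‖(c : ℂ) * Mn‖ ≤ 2 * K ^ 2 * k.natAbs * X / √(A * B) := by
    rw [norm_mul, Complex.norm_real, Real.norm_eq_abs, abs_of_nonneg hc0]
    calc c * ‖Mn‖ ≤ (k.natAbs / √(A * B)) * (X * (2 * K ^ 2)) :=
          mul_le_mul hcb hMn1 (norm_nonneg _) (by positivity)
      _ = _ := by ring
  have hK2 : (1 : ℝ) ≤ K ^ 2 := by nlinarith
  calc ‖∑ d ∈ Icc 1 M, ∑ u ∈ Icc 1 M, (f d * g u) * ((S05T k A B X N b b' d u).card : ℂ)‖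
      = ‖((∑ d ∈ Icc 1 M, ∑ u ∈ Icc 1 M, (f d * g u) * ((S05T k A B X N b b' d u).card : ℂ)) - (c : ℂ) * Mn) +
          (c : ℂ) * Mn‖ := by rw [sub_add_cancel]
    _ ≤ √((X : ℝ) / A) * (2 * √((M : ℝ) / B)) + 2 * K ^ 2 * k.natAbs * X / √(A * B) :=
        (norm_add_le _ _).trans (add_le_add hdiff hmain)
    _ ≤ 4 * k.natAbs * X / √(A * B) + 2 * K ^ 2 * k.natAbs * X / √(A * B) := by linarith
    _ ≤ _ := by
        rw [← add_div]
        apply div_le_div_of_nonneg_right _ hsq0.le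
        have : (0 : ℝ) ≤ k.natAbs * X := by positivity
        nlinarith

end RQ
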