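import Pool.Agent.Lib.MP_0f5a55_nt.RQ.S01
import Pool.Agent.Lib.MP_0f5a55_nt.RQ.S05

open Complex Finset
open scoped Real ComplexConjugate

namespace RQ

open OO

theorem s06_mem {k : ℤ} {A B X : ℕ} {p : ℕ × ℕ} (hp : p ∈ LP k A B X) :
    1 ≤ p.1 ∧ 1 ≤ p.2 ∧ A * p.1 ≤ X ∧ (A : ℤ) * p.1 - B * p.2 = k := by
  unfold LP at hp
  simp only [mem_filter, mem_product, mem_Icc] at hp
  exact ⟨hp.1.1.1, hp.1.2.1, hp.2.1, hp.2.2⟩

theorem s06_conj (f : ℕ → ℂ) (n : ℕ) : conj (Sd f n) = Sd (fun d => conj (f d)) n := by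
  unfold Sd
  rw [map_sum]

/-- sum over classes -/
theorem s06_main {C : ℝ} (hC : 0 < C) (hS : ∀ (f g : ℕ → ℂ) (K : ℝ), CM f K → CM g K → 1 ≤ K → ∀ N : ℕ, 0 < N →
    (∀ n, ¬ Nat.Coprime n N → f n = 0) → (∀ n, ¬ Nat.Coprime n N → g n = 0) → ∀ A B : ℕ, 0 < A → 0 < B →
    (∀ p : ℕ, p.Prime → p ∣ A → p ∣ N) → (∀ p : ℕ, p.Prime → p ∣ B → p ∣ N) → ∀ k : ℤ, k ≠ 0 → k ∣ (N : ℤ) →
    ∀ b b' X : ℕ, Nat.Coprime b N → Nat.Coprime b' N → 1 ≤ X →
    ‖∑ p ∈ (LP k A B X).filter (fun p => p.1 ≡ b [MOD N] ∧ p.2 ≡ b' [MOD N]), Sd f p.1 * Sd g p.2‖ ≤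
      C * K ^ 2 * k.natAbs * X / √(A * B))
    {N : ℕ} (hN : 0 < N) {f g : ℕ → ℂ} (hf : CM f N) (hg : CM g N)
    (hf0 : ∀ n, ¬ Nat.Coprime n N → f n = 0) (hg0 : ∀ n, ¬ Nat.Coprime n N → g n = 0)
    {u v : ℕ → ℂ} (hu : ∀ n m, n ≡ m [MOD N] → u n = u m) (hv : ∀ n m, n ≡ m [MOD N] → v n = v m)
    (hu1 : ∀ n, ‖u n‖ ≤ 1) (hv1 : ∀ n, ‖v n‖ ≤ 1)
    {A B : ℕ} (hA : 0 < A) (hB : 0 < B) (hAN : ∀ p : ℕ, p.Prime → p ∣ A → p ∣ N)
    (hBN : ∀ p : ℕ, p.Prime → p ∣ B → p ∣ N) {k : ℤ} (hk : k ≠ 0) (hkN : k ∣ (N : ℤ)) {X : ℕ} (hX : 1 ≤ X) :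
    ‖∑ p ∈ (LP k A B X).filter (fun p => Nat.Coprime p.1 N ∧ Nat.Coprime p.2 N),
      (u p.1 * Sd f p.1) * (v p.2 * Sd g p.2)‖ ≤ N ^ 2 * (C * N ^ 2 * k.natAbs * X / √(A * B)) := by
  have hN1 : (1 : ℝ) ≤ N := by exact_mod_cast hN
  set P := (LP k A B X).filter (fun p => Nat.Coprime p.1 N ∧ Nat.Coprime p.2 N) with hP
  have hmap : ∀ p ∈ P, (p.1 % N, p.2 % N) ∈ range N ×ˢ range N := fun p _ => by
    simp only [mem_product, mem_range]
    exact ⟨Nat.mod_lt _ hN, Nat.mod_lt _ hN⟩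
  rw [← sum_fiberwise_of_maps_to hmap]
  have hbd : (0 : ℝ) ≤ C * N ^ 2 * k.natAbs * X / √(A * B) := by positivity
  calc ‖∑ c ∈ range N ×ˢ range N, ∑ p ∈ P.filter (fun p => (p.1 % N, p.2 % N) = c),
        (u p.1 * Sd f p.1) * (v p.2 * Sd g p.2)‖
      ≤ ∑ c ∈ range N ×ˢ range N, (C * N ^ 2 * k.natAbs * X / √(A * B)) := by
        refine norm_sum_le_of_le _ fun c hc => ?_
        by_cases hcop : Nat.Coprime c.1 N ∧ Nat.Coprime c.2 N
        · have hfib : P.filter (fun p => (p.1 % N, p.2 % N) = c) =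
              (LP k A B X).filter (fun p => p.1 ≡ c.1 [MOD N] ∧ p.2 ≡ c.2 [MOD N]) := by
            simp only [mem_product, mem_range] at hc
            ext p
            simp only [hP, mem_filter]
            constructor
            · rintro ⟨⟨h1, -⟩, h2⟩
              refine ⟨h1, ?_, ?_⟩
              · rw [← h2]; exact (Nat.mod_modEq _ _).symm
              · rw [← h2]; exact (Nat.mod_modEq _ _).symm
            · rintro ⟨h1, h2, h3⟩
              refine ⟨⟨h1, ?_, ?_⟩, ?_⟩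
              · have := h2.gcd_eq
                unfold Nat.Coprime
                rw [this]; exact hcop.1
              · have := h3.gcd_eq
                unfold Nat.Coprime
                rw [this]; exact hcop.2
              · have e1 : p.1 % N = c.1 := by
                  have := h2
                  unfold Nat.ModEq at this
                  rw [this, Nat.mod_eq_of_lt hc.1]
                have e2 : p.2 % N = c.2 := by
                  have := h3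
                  unfold Nat.ModEq at this
                  rw [this, Nat.mod_eq_of_lt hc.2]
                rw [e1, e2]
          rw [hfib]
          have e : ∑ p ∈ (LP k A B X).filter (fun p => p.1 ≡ c.1 [MOD N] ∧ p.2 ≡ c.2 [MOD N]),
              (u p.1 * Sd f p.1) * (v p.2 * Sd g p.2) = (u c.1 * v c.2) *
              ∑ p ∈ (LP k A B X).filter (fun p => p.1 ≡ c.1 [MOD N] ∧ p.2 ≡ c.2 [MOD N]), Sd f p.1 * Sd g p.2 := by
            rw [mul_sum]
            refine sum_congr rfl fun p hp => ?_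
            simp only [mem_filter] at hp
            rw [hu _ _ hp.2.1, hv _ _ hp.2.2]
            ring
          rw [e, norm_mul, norm_mul]
          have h1 : ‖u c.1‖ * ‖v c.2‖ ≤ 1 := mul_le_one₀ (hu1 _) (norm_nonneg _) (hv1 _)
          have h2 := hS f g N hf hg hN1 N hN hf0 hg0 A B hA hB hAN hBN k hk hkN c.1 c.2 X hcop.1 hcop.2 hX
          calc _ ≤ 1 * _ := mul_le_mul_of_nonneg_right h1 (norm_nonneg _)
            _ ≤ _ := by rw [one_mul]; exact h2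
        · have hfib : P.filter (fun p => (p.1 % N, p.2 % N) = c) = ∅ := by
            rw [filter_eq_empty_iff]
            intro p hp h2
            simp only [hP, mem_filter] at hp
            apply hcop
            rw [← h2]
            constructor
            · have := (Nat.mod_modEq p.1 N).gcd_eq
              show Nat.gcd (p.1 % N) N = 1
              rw [this]; exact hp.2.1
            · have := (Nat.mod_modEq p.2 N).gcd_eq
              show Nat.gcd (p.2 % N) N = 1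
              rw [this]; exact hp.2.2
          rw [hfib]
          simpa using hbd
    _ = N ^ 2 * (C * N ^ 2 * k.natAbs * X / √(A * B)) := by
        rw [sum_const, card_product, card_range, nsmul_eq_mul]
        push_cast
        ring

theorem s06_card1 {k : ℤ} {A B X : ℕ} (hA : 0 < A) (hB : 0 < B) (P : Finset (ℕ × ℕ)) (hP : P ⊆ LP k A B X) :
    ((P.filter (fun p => IsSquare p.1)).card : ℝ) ≤ √((X : ℝ) / A) := by
  have h1 : (P.filter (fun p => IsSquare p.1)).card ≤ (Icc 1 (Nat.sqrt (X / A))).card := by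
    refine card_le_card_of_injOn (fun p => Nat.sqrt p.1) ?_ ?_
    · intro p hp
      simp only [coe_filter, Set.mem_ofPred_eq] at hp
      obtain ⟨hp, j, hj⟩ := hp
      obtain ⟨m1, m2, m3, m4⟩ := s06_mem (hP hp)
      simp only [coe_Icc, Set.mem_Icc]
      constructor
      · rw [Nat.one_le_iff_ne_zero, Ne, Nat.sqrt_eq_zero]; omega
      · apply Nat.sqrt_le_sqrt
        rw [Nat.le_div_iff_mul_le hA, mul_comm]
        exact m3
    · intro p hp p' hp' he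
      simp only [coe_filter, Set.mem_ofPred_eq] at hp hp'
      obtain ⟨hp, j, hj⟩ := hp
      obtain ⟨hp', j', hj'⟩ := hp'
      obtain ⟨m1, m2, m3, m4⟩ := s06_mem (hP hp)
      obtain ⟨m1', m2', m3', m4'⟩ := s06_mem (hP hp')
      have he : Nat.sqrt p.1 = Nat.sqrt p'.1 := he
      rw [hj, hj', Nat.sqrt_eq, Nat.sqrt_eq] at he
      have e1 : p.1 = p'.1 := by rw [hj, hj', he]
      have e2 : p.2 = p'.2 := by
        rw [e1] at m4
        have : (B : ℤ) * p.2 = B * p'.2 := by linarith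
        have hB' : (B : ℤ) ≠ 0 := by exact_mod_cast hB.ne'
        exact_mod_cast mul_left_cancel₀ hB' this
      exact Prod.ext e1 e2
  rw [Nat.card_Icc, Nat.add_sub_cancel] at h1
  refine (Nat.cast_le.2 h1).trans ?_
  apply Real.le_sqrt_of_sq_le
  have h2 : Nat.sqrt (X / A) ^ 2 ≤ X / A := by rw [sq]; exact Nat.sqrt_le (X / A)
  calc ((Nat.sqrt (X / A) : ℕ) : ℝ) ^ 2 ≤ ((X / A : ℕ) : ℝ) := by exact_mod_cast h2
    _ ≤ (X : ℝ) / A := Nat.cast_div_le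

theorem s06_bd2 {k : ℤ} {A B X : ℕ} {p : ℕ × ℕ} (hp : p ∈ LP k A B X) :
    B * p.2 ≤ X + k.natAbs := by
  obtain ⟨m1, m2, m3, m4⟩ := s06_mem hp
  zify
  have : ((A * p.1 : ℕ) : ℤ) ≤ X := by exact_mod_cast m3
  push_cast at this
  have h2 := neg_abs_le k
  linarith

theorem s06_card2 {k : ℤ} {A B X : ℕ} (hA : 0 < A) (hB : 0 < B) (P : Finset (ℕ × ℕ)) (hP : P ⊆ LP k A B X) :
    ((P.filter (fun p => IsSquare p.2)).card : ℝ) ≤ √(((X : ℝ) + k.natAbs) / B) := by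
  have h1 : (P.filter (fun p => IsSquare p.2)).card ≤ (Icc 1 (Nat.sqrt ((X + k.natAbs) / B))).card := by
    refine card_le_card_of_injOn (fun p => Nat.sqrt p.2) ?_ ?_
    · intro p hp
      simp only [coe_filter, Set.mem_ofPred_eq] at hp
      obtain ⟨hp, j, hj⟩ := hp
      obtain ⟨m1, m2, m3, m4⟩ := s06_mem (hP hp)
      simp only [coe_Icc, Set.mem_Icc]
      constructor
      · rw [Nat.one_le_iff_ne_zero, Ne, Nat.sqrt_eq_zero]; omega
      · apply Nat.sqrt_le_sqrt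
        rw [Nat.le_div_iff_mul_le hB, mul_comm]
        exact s06_bd2 (hP hp)
    · intro p hp p' hp' he
      simp only [coe_filter, Set.mem_ofPred_eq] at hp hp'
      obtain ⟨hp, j, hj⟩ := hp
      obtain ⟨hp', j', hj'⟩ := hp'
      obtain ⟨m1, m2, m3, m4⟩ := s06_mem (hP hp)
      obtain ⟨m1', m2', m3', m4'⟩ := s06_mem (hP hp')
      have he : Nat.sqrt p.2 = Nat.sqrt p'.2 := he
      rw [hj, hj', Nat.sqrt_eq, Nat.sqrt_eq] at he
      have e1 : p.2 = p'.2 := by rw [hj, hj', he]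
      have e2 : p.1 = p'.1 := by
        rw [e1] at m4
        have : (A : ℤ) * p.1 = A * p'.1 := by linarith
        have hA' : (A : ℤ) ≠ 0 := by exact_mod_cast hA.ne'
        exact_mod_cast mul_left_cancel₀ hA' this
      exact Prod.ext e2 e1
  rw [Nat.card_Icc, Nat.add_sub_cancel] at h1
  refine (Nat.cast_le.2 h1).trans ?_
  apply Real.le_sqrt_of_sq_le
  have h2 : Nat.sqrt ((X + k.natAbs) / B) ^ 2 ≤ (X + k.natAbs) / B := by rw [sq]; exact Nat.sqrt_le _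
  calc ((Nat.sqrt ((X + k.natAbs) / B) : ℕ) : ℝ) ^ 2 ≤ (((X + k.natAbs) / B : ℕ) : ℝ) := by exact_mod_cast h2
    _ ≤ ((X + k.natAbs : ℕ) : ℝ) / B := Nat.cast_div_le
    _ = ((X : ℝ) + k.natAbs) / B := by push_cast; rfl

theorem s06_U {k : ℤ} (hk : k ≠ 0) {A B X : ℕ} (hA : 0 < A) (hB : 0 < B) (hX : 1 ≤ X) :
    √((X : ℝ) / A) * √(((X : ℝ) + k.natAbs) / B) ≤ 2 * (k.natAbs * X / √(A * B)) := by
  have hk1 : (1 : ℝ) ≤ k.natAbs := by exact_mod_cast Int.natAbs_pos.2 hk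
  have hX1 : (1 : ℝ) ≤ X := by exact_mod_cast hX
  have hA' : (0 : ℝ) < A := by exact_mod_cast hA
  have hB' : (0 : ℝ) < B := by exact_mod_cast hB
  have hr : 2 * ((k.natAbs : ℝ) * X / √(A * B)) = (2 * (k.natAbs * X)) / √(A * B) := by ring
  rw [hr, le_div_iff₀ (by positivity), ← Real.sqrt_mul (by positivity), ← Real.sqrt_mul (by positivity)]
  have e : (X : ℝ) / A * (((X : ℝ) + k.natAbs) / B) * (A * B) = X * (X + k.natAbs) := by field_simp
  rw [e]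
  apply Real.sqrt_le_iff.2
  refine ⟨by positivity, ?_⟩
  have h1 : (X : ℝ) + k.natAbs ≤ 2 * (k.natAbs * X) := by nlinarith
  have h2 : (1 : ℝ) ≤ k.natAbs * X := by nlinarith
  calc (X : ℝ) * (X + k.natAbs) ≤ (k.natAbs * X) * (2 * (k.natAbs * X)) := by
        apply mul_le_mul _ h1 (by positivity) (by positivity)
        nlinarith
    _ ≤ (2 * (k.natAbs * X)) ^ 2 := by nlinarith

/-- Row S06. The part of the shifted sum with n, m prime to N. -/
theorem line_cop : ∃ C : ℝ, 0 < C ∧ ∀ (q1 q2 q3 q4 : ℕ) [NeZero q1] [NeZero q2] [NeZero q3] [NeZero q4]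
    (χ1 : DirichletCharacter ℂ q1) (χ2 : DirichletCharacter ℂ q2) (χ3 : DirichletCharacter ℂ q3)
    (χ4 : DirichletCharacter ℂ q4), Ne12 χ1 χ2 → Ne12 χ3 χ4 → ∀ N : ℕ, 0 < N → q1 ∣ N → q2 ∣ N → q3 ∣ N → q4 ∣ N →
    ∀ A B : ℕ, 0 < A → 0 < B → (∀ p : ℕ, p.Prime → p ∣ A → p ∣ N) → (∀ p : ℕ, p.Prime → p ∣ B → p ∣ N) →
    ∀ k : ℤ, k ≠ 0 → k ∣ (N : ℤ) → ∀ X : ℕ, 1 ≤ X →
    ‖∑ p ∈ (LP k A B X).filter (fun p => Nat.Coprime p.1 N ∧ Nat.Coprime p.2 N),
      co χ1 χ2 p.1 * conj (co χ3 χ4 p.2)‖ ≤ C * N ^ 4 * k.natAbs * X / √(A * B) := by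
  obtain ⟨C, hC, hS⟩ := line_class
  refine ⟨4 * C + 10, by positivity, ?_⟩
  intro q1 q2 q3 q4 _ _ _ _ χ1 χ2 χ3 χ4 hne hne' N hN d1 d2 d3 d4 A B hA hB hAN hBN k hk hkN X hX
  have hN1 : (1 : ℝ) ≤ N := by exact_mod_cast hN
  set P := (LP k A B X).filter (fun p => Nat.Coprime p.1 N ∧ Nat.Coprime p.2 N) with hP
  have hPs : P ⊆ LP k A B X := filter_subset _ _
  have hmemc : ∀ p ∈ P, Nat.Coprime p.1 N ∧ Nat.Coprime p.2 N := fun p hp => (mem_filter.1 hp).2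
  obtain ⟨c1, c2⟩ := qc_CM hne hN d1 d2
  obtain ⟨c3, c4⟩ := qc_CM hne' hN d3 d4
  have z1 : ∀ n, ¬ Nat.Coprime n N → qc χ1 χ2 N n = 0 := fun n hn => by simp [qc, rs, hn]
  have z3 : ∀ n, ¬ Nat.Coprime n N → qc χ3 χ4 N n = 0 := fun n hn => by simp [qc, rs, hn]
  have z2 : ∀ n, ¬ Nat.Coprime n N → (fun d => conj (qc χ1 χ2 N d)) n = 0 := fun n hn => by simp [z1 n hn]
  have z4 : ∀ n, ¬ Nat.Coprime n N → (fun d => conj (qc χ3 χ4 N d)) n = 0 := fun n hn => by simp [z3 n hn]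
  have per : ∀ {q : ℕ} (χ : DirichletCharacter ℂ q), q ∣ N → ∀ n m : ℕ, n ≡ m [MOD N] →
      χ (n : ZMod q) = χ (m : ZMod q) := fun χ hq n m h => by
    rw [(ZMod.natCast_eq_natCast_iff _ _ _).2 (h.of_dvd hq)]
  have bd : ∀ {q : ℕ} (χ : DirichletCharacter ℂ q) (n : ℕ), ‖χ (n : ZMod q)‖ ≤ 1 := fun χ n => χ.norm_le_one _
  -- the decomposition
  have ex1 : ∀ n : ℕ, ∃ s : ℂ, (0 < n → Nat.Coprime n N → (s ≠ 0 → ∃ j : ℕ, n = j * j) ∧ ‖s‖ ≤ 1 ∧
      co χ1 χ2 n = χ2 (n : ZMod q2) * Sd (qc χ1 χ2 N) n + χ1 (n : ZMod q1) * Sd (fun d => conj (qc χ1 χ2 N d)) n + s) := by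
    intro n
    by_cases h : 0 < n ∧ Nat.Coprime n N
    · obtain ⟨s, hs⟩ := co_cop χ1 χ2 d1 d2 h.1 h.2
      exact ⟨s, fun _ _ => hs⟩
    · exact ⟨0, fun h1 h2 => absurd ⟨h1, h2⟩ h⟩
  have ex2 : ∀ n : ℕ, ∃ s : ℂ, (0 < n → Nat.Coprime n N → (s ≠ 0 → ∃ j : ℕ, n = j * j) ∧ ‖s‖ ≤ 1 ∧
      co χ3 χ4 n = χ4 (n : ZMod q4) * Sd (qc χ3 χ4 N) n + χ3 (n : ZMod q3) * Sd (fun d => conj (qc χ3 χ4 N d)) n + s) := by
    intro n
    by_cases h : 0 < n ∧ Nat.Coprime n N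
    · obtain ⟨s, hs⟩ := co_cop χ3 χ4 d3 d4 h.1 h.2
      exact ⟨s, fun _ _ => hs⟩
    · exact ⟨0, fun h1 h2 => absurd ⟨h1, h2⟩ h⟩
  choose s hs using ex1
  choose s' hs' using ex2
  have hcc : ∀ n : ℕ, Sd (fun d => conj (conj (qc χ3 χ4 N d))) n = Sd (qc χ3 χ4 N) n := fun n => by simp
  have hdec : ∀ p ∈ P, co χ1 χ2 p.1 * conj (co χ3 χ4 p.2) =
      (χ2 (p.1 : ZMod q2) * Sd (qc χ1 χ2 N) p.1) * (conj (χ4 (p.2 : ZMod q4)) * Sd (fun d => conj (qc χ3 χ4 N d)) p.2) +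
      (χ2 (p.1 : ZMod q2) * Sd (qc χ1 χ2 N) p.1) * (conj (χ3 (p.2 : ZMod q3)) * Sd (qc χ3 χ4 N) p.2) +
      (χ1 (p.1 : ZMod q1) * Sd (fun d => conj (qc χ1 χ2 N d)) p.1) * (conj (χ4 (p.2 : ZMod q4)) * Sd (fun d => conj (qc χ3 χ4 N d)) p.2) +
      (χ1 (p.1 : ZMod q1) * Sd (fun d => conj (qc χ1 χ2 N d)) p.1) * (conj (χ3 (p.2 : ZMod q3)) * Sd (qc χ3 χ4 N) p.2) +
      (s p.1 * conj (co χ3 χ4 p.2) + (co χ1 χ2 p.1 - s p.1) * conj (s' p.2)) := by
    intro p hp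
    obtain ⟨m1, m2, m3, m4⟩ := s06_mem (hPs hp)
    obtain ⟨cc1, cc2⟩ := hmemc p hp
    obtain ⟨-, -, e1⟩ := hs p.1 m1 cc1
    obtain ⟨-, -, e2⟩ := hs' p.2 m2 cc2
    rw [e1, e2]
    simp only [map_add, map_mul, s06_conj, hcc]
    ring
  rw [sum_congr rfl hdec, sum_add_distrib, sum_add_distrib, sum_add_distrib, sum_add_distrib]
  set Y : ℝ := k.natAbs * X / √(A * B) with hY
  have hY0 : 0 ≤ Y := by positivity
  have hmain : ∀ {f g : ℕ → ℂ}, CM f N → CM g N → (∀ n, ¬ Nat.Coprime n N → f n = 0) →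
      (∀ n, ¬ Nat.Coprime n N → g n = 0) → ∀ {u v : ℕ → ℂ}, (∀ n m, n ≡ m [MOD N] → u n = u m) →
      (∀ n m, n ≡ m [MOD N] → v n = v m) → (∀ n, ‖u n‖ ≤ 1) → (∀ n, ‖v n‖ ≤ 1) →
      ‖∑ p ∈ P, (u p.1 * Sd f p.1) * (v p.2 * Sd g p.2)‖ ≤ C * (N ^ 4 * Y) := by
    intro f g hf hg hf0 hg0 u v hu hv hu1 hv1
    refine (s06_main hC hS hN hf hg hf0 hg0 hu hv hu1 hv1 hA hB hAN hBN hk hkN hX).trans (le_of_eq ?_)
    rw [hY]; ring
  have nc : ∀ z : ℂ, ‖conj z‖ = ‖z‖ := fun z => RCLike.norm_conj z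
  have t1 := hmain c1 c4 z1 z4 (u := fun n => χ2 (n : ZMod q2)) (v := fun n => conj (χ4 (n : ZMod q4)))
    (per χ2 d2) (fun n m h => by simp only [per χ4 d4 n m h]) (bd χ2) (fun n => by rw [nc]; exact bd χ4 n)
  have t2 := hmain c1 c3 z1 z3 (u := fun n => χ2 (n : ZMod q2)) (v := fun n => conj (χ3 (n : ZMod q3)))
    (per χ2 d2) (fun n m h => by simp only [per χ3 d3 n m h]) (bd χ2) (fun n => by rw [nc]; exact bd χ3 n)
  have t3 := hmain c2 c4 z2 z4 (u := fun n => χ1 (n : ZMod q1)) (v := fun n => conj (χ4 (n : ZMod q4)))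
    (per χ1 d1) (fun n m h => by simp only [per χ4 d4 n m h]) (bd χ1) (fun n => by rw [nc]; exact bd χ4 n)
  have t4 := hmain c2 c3 z2 z3 (u := fun n => χ1 (n : ZMod q1)) (v := fun n => conj (χ3 (n : ZMod q3)))
    (per χ1 d1) (fun n m h => by simp only [per χ3 d3 n m h]) (bd χ1) (fun n => by rw [nc]; exact bd χ3 n)
  have hA' : (0 : ℝ) < A := by exact_mod_cast hA
  have hB' : (0 : ℝ) < B := by exact_mod_cast hB
  have hU := s06_U hk hA hB hX
  set a := √((X : ℝ) / A) with ha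
  set b := √(((X : ℝ) + k.natAbs) / B) with hb
  have ha0 : 0 ≤ a := Real.sqrt_nonneg _
  have hb0 : 0 ≤ b := Real.sqrt_nonneg _
  have r1 : ∀ p ∈ P, √(p.1 : ℝ) ≤ a := fun p hp => by
    obtain ⟨m1, m2, m3, m4⟩ := s06_mem (hPs hp)
    apply Real.sqrt_le_sqrt
    rw [le_div_iff₀ hA', mul_comm]
    exact_mod_cast m3
  have r2 : ∀ p ∈ P, √(p.2 : ℝ) ≤ b := fun p hp => by
    have := s06_bd2 (hPs hp)
    apply Real.sqrt_le_sqrt
    rw [le_div_iff₀ hB', mul_comm]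
    exact_mod_cast this
  have q1' : ‖∑ p ∈ P, s p.1 * conj (co χ3 χ4 p.2)‖ ≤ 2 * (a * b) := by
    have e : ∑ p ∈ P, s p.1 * conj (co χ3 χ4 p.2) =
        ∑ p ∈ P.filter (fun p => IsSquare p.1), s p.1 * conj (co χ3 χ4 p.2) := by
      refine (sum_filter_of_ne ?_).symm
      intro p hp hne0
      obtain ⟨m1, m2, m3, m4⟩ := s06_mem (hPs hp)
      exact (hs p.1 m1 (hmemc p hp).1).1 (left_ne_zero_of_mul hne0)
    rw [e]
    calc _ ≤ ∑ p ∈ P.filter (fun p => IsSquare p.1), 2 * b := by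
          refine norm_sum_le_of_le _ fun p hp => ?_
          have hp' := (mem_filter.1 hp).1
          obtain ⟨m1, m2, m3, m4⟩ := s06_mem (hPs hp')
          rw [norm_mul, nc]
          have h1 := (hs p.1 m1 (hmemc p hp').1).2.1
          have h2 := (co_le χ3 χ4 p.2).2
          have h3 := r2 p hp'
          calc _ ≤ 1 * (2 * b) := mul_le_mul h1 (by linarith) (norm_nonneg _) zero_le_one
            _ = 2 * b := one_mul _
      _ = (P.filter (fun p => IsSquare p.1)).card * (2 * b) := by rw [sum_const, nsmul_eq_mul]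
      _ ≤ a * (2 * b) := mul_le_mul_of_nonneg_right (s06_card1 hA hB P hPs) (by positivity)
      _ = 2 * (a * b) := by ring
  have q2' : ‖∑ p ∈ P, (co χ1 χ2 p.1 - s p.1) * conj (s' p.2)‖ ≤ 3 * (a * b) := by
    have e : ∑ p ∈ P, (co χ1 χ2 p.1 - s p.1) * conj (s' p.2) =
        ∑ p ∈ P.filter (fun p => IsSquare p.2), (co χ1 χ2 p.1 - s p.1) * conj (s' p.2) := by
      refine (sum_filter_of_ne ?_).symm
      intro p hp hne0
      obtain ⟨m1, m2, m3, m4⟩ := s06_mem (hPs hp)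
      refine (hs' p.2 m2 (hmemc p hp).2).1 ?_
      intro h0
      apply hne0
      rw [h0]; simp
    rw [e]
    calc _ ≤ ∑ p ∈ P.filter (fun p => IsSquare p.2), 3 * a := by
          refine norm_sum_le_of_le _ fun p hp => ?_
          have hp' := (mem_filter.1 hp).1
          obtain ⟨m1, m2, m3, m4⟩ := s06_mem (hPs hp')
          rw [norm_mul, nc]
          have h1 := (hs' p.2 m2 (hmemc p hp').2).2.1
          have h1' := (hs p.1 m1 (hmemc p hp').1).2.1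
          have h2 := (co_le χ1 χ2 p.1).2
          have h3 := r1 p hp'
          have h4 : (1 : ℝ) ≤ √(p.1 : ℝ) := by
            rw [Real.one_le_sqrt]; exact_mod_cast m1
          have h5 := norm_sub_le (co χ1 χ2 p.1) (s p.1)
          calc _ ≤ (3 * a) * 1 := mul_le_mul (by linarith) h1 (norm_nonneg _) (by positivity)
            _ = 3 * a := mul_one _
      _ = (P.filter (fun p => IsSquare p.2)).card * (3 * a) := by rw [sum_const, nsmul_eq_mul]
      _ ≤ b * (3 * a) := mul_le_mul_of_nonneg_right (s06_card2 hA hB P hPs) (by positivity)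
      _ = 3 * (a * b) := by ring
  rw [sum_add_distrib]
  have hN4 : Y ≤ N ^ 4 * Y := le_mul_of_one_le_left hY0 (one_le_pow₀ hN1)
  refine (norm_add_le _ _).trans ?_
  refine (add_le_add (norm_add_le _ _) (norm_add_le _ _)).trans ?_
  refine (add_le_add (add_le_add (norm_add_le _ _) le_rfl) le_rfl).trans ?_
  refine (add_le_add (add_le_add (add_le_add (norm_add_le _ _) le_rfl) le_rfl) le_rfl).trans ?_
  have hfin : (4 * C + 10) * N ^ 4 * k.natAbs * X / √(A * B) = (4 * C + 10) * (N ^ 4 * Y) := by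
    rw [hY]; ring
  rw [hfin]
  linarith

end RQ
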