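import Pool.Agent.Lib.MP_0f5a55_nt.RQ.S01
import Pool.Agent.Lib.MP_0f5a55_nt.RQ.S02
import Pool.Agent.Lib.MP_0f5a55_nt.RQ.S06

open Complex Finset
open scoped Real ComplexConjugate

namespace RQ

open OO

private lemma s07_mem {k : ℤ} {A B X : ℕ} {p : ℕ × ℕ} (hA : 0 < A) (hB : 0 < B) :
    p ∈ LP k A B X ↔ 0 < p.1 ∧ 0 < p.2 ∧ A * p.1 ≤ X ∧ (A : ℤ) * p.1 - B * p.2 = k := by
  unfold LP
  rw [mem_filter, mem_product, mem_Icc, mem_Icc]
  constructor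
  · rintro ⟨⟨⟨h1, h2⟩, h3, h4⟩, h5, h6⟩
    exact ⟨h1, h3, h5, h6⟩
  · rintro ⟨h1, h3, h5, h6⟩
    refine ⟨⟨⟨h1, ?_⟩, h3, ?_⟩, h5, h6⟩
    · calc p.1 = 1 * p.1 := (one_mul _).symm
        _ ≤ A * p.1 := Nat.mul_le_mul_right _ hA
        _ ≤ X := h5
    · have e1 : (B : ℤ) * p.2 = A * p.1 - k := by linarith
      have e2 : ((A * p.1 : ℕ) : ℤ) ≤ X := by exact_mod_cast h5
      have e3 : -k ≤ (k.natAbs : ℤ) := by omega
      have e4 : (B : ℤ) * p.2 ≤ X + k.natAbs := by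
        push_cast at e2
        linarith
      have e5 : (1 : ℤ) * p.2 ≤ B * p.2 := by
        apply mul_le_mul_of_nonneg_right
        · exact_mod_cast hB
        · positivity
      have e6 : (p.2 : ℤ) ≤ X + k.natAbs := by linarith
      exact_mod_cast e6

/-- the shifted sum as a sum over pairs -/
private lemma s07_pairs {r s : ℕ} (hr : 0 < r) (hs : 0 < s) (k : ℤ) (x : ℕ) (f g : ℕ → ℂ) :
    (∑ n ∈ Icc 1 x, if (r : ℤ) ∣ s * n - k ∧ 0 < s * (n : ℤ) - k then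
      f n * g ((s * n - k) / r).toNat else 0) = ∑ p ∈ LP k s r (s * x), f p.1 * g p.2 := by
  rw [← sum_filter]
  refine sum_nbij' (fun n => (n, (((s : ℤ) * n - k) / r).toNat)) (fun p => p.1) ?_ ?_ ?_ ?_ ?_
  · intro n hn
    rw [mem_filter, mem_Icc] at hn
    obtain ⟨⟨h1, h2⟩, ⟨c, hc⟩, h4⟩ := hn
    have hr' : (0 : ℤ) < r := by exact_mod_cast hr
    have e1 : ((s : ℤ) * n - k) / r = c := by rw [hc]; exact Int.mul_ediv_cancel_left _ hr'.ne'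
    have hc0 : 0 < c := by
      rw [hc] at h4
      by_contra hcn
      push Not at hcn
      have := mul_nonpos_of_nonneg_of_nonpos hr'.le hcn
      linarith
    rw [s07_mem hs hr]
    simp only
    rw [e1]
    refine ⟨h1, ?_, Nat.mul_le_mul_left _ h2, ?_⟩
    · omega
    · rw [Int.toNat_of_nonneg hc0.le, ← hc]
      ring
  · intro p hp
    rw [s07_mem hs hr] at hp
    obtain ⟨h1, h2, h3, h4⟩ := hp
    rw [mem_filter, mem_Icc]
    have e1 : (s : ℤ) * p.1 - k = r * p.2 := by linarith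
    refine ⟨⟨h1, Nat.le_of_mul_le_mul_left h3 hs⟩, ⟨p.2, e1⟩, ?_⟩
    rw [e1]
    positivity
  · intro n hn
    rfl
  · intro p hp
    rw [s07_mem hs hr] at hp
    obtain ⟨h1, h2, h3, h4⟩ := hp
    have hr' : (0 : ℤ) < r := by exact_mod_cast hr
    have e1 : (s : ℤ) * p.1 - k = r * p.2 := by linarith
    ext
    · rfl
    · simp only
      rw [e1, Int.mul_ediv_cancel_left _ hr'.ne']
      simp
  · intro n hn
    rfl

/-- Row S07. The shifted sum: s n - r m = k. -/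
theorem shifted {q1 q2 q3 q4 : ℕ} [NeZero q1] [NeZero q2] [NeZero q3] [NeZero q4] {χ1 : DirichletCharacter ℂ q1}
    {χ2 : DirichletCharacter ℂ q2} {χ3 : DirichletCharacter ℂ q3} {χ4 : DirichletCharacter ℂ q4}
    (n12 : Ne12 χ1 χ2) (n34 : Ne12 χ3 χ4) {r s : ℕ} (hr : 0 < r) (hs : 0 < s) : ∃ C : ℝ, 0 < C ∧
    ∀ k : ℤ, k ≠ 0 → ∀ x : ℕ, 1 ≤ x →
    ‖∑ n ∈ Icc 1 x, if (r : ℤ) ∣ s * n - k ∧ 0 < s * (n : ℤ) - k then
      co χ1 χ2 n * conj (co χ3 χ4 ((s * n - k) / r).toNat) else 0‖ ≤ C * (k.natAbs : ℝ) ^ 13 * x := by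
  classical
  obtain ⟨C0, hC0, H⟩ := line_cop
  have hq1 : 0 < q1 := Nat.pos_of_ne_zero (NeZero.ne q1)
  have hq2 : 0 < q2 := Nat.pos_of_ne_zero (NeZero.ne q2)
  have hq3 : 0 < q3 := Nat.pos_of_ne_zero (NeZero.ne q3)
  have hq4 : 0 < q4 := Nat.pos_of_ne_zero (NeZero.ne q4)
  set M : ℕ := q1 * q2 * q3 * q4 * r * s with hM
  have hMpos : 0 < M := by positivity
  refine ⟨C0 * (M : ℝ) ^ 12 * s, by positivity, ?_⟩
  intro k hk x hx
  have hk' : 0 < k.natAbs := Int.natAbs_pos.mpr hk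
  set N : ℕ := M * k.natAbs with hN
  have hNpos : 0 < N := Nat.mul_pos hMpos hk'
  set X : ℕ := s * x with hX
  have hX1 : 1 ≤ X := Nat.mul_pos hs hx
  have hdvd : ∀ p : ℕ, p ∣ M → p ∣ N := fun p hp => hp.mul_right _
  have d1 : q1 ∣ N := hdvd _ ⟨q2 * q3 * q4 * r * s, by rw [hM]; ring⟩
  have d2 : q2 ∣ N := hdvd _ ⟨q1 * q3 * q4 * r * s, by rw [hM]; ring⟩
  have d3 : q3 ∣ N := hdvd _ ⟨q1 * q2 * q4 * r * s, by rw [hM]; ring⟩
  have d4 : q4 ∣ N := hdvd _ ⟨q1 * q2 * q3 * r * s, by rw [hM]; ring⟩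
  have dr : r ∣ N := hdvd _ ⟨q1 * q2 * q3 * q4 * s, by rw [hM]; ring⟩
  have ds : s ∣ N := hdvd _ ⟨q1 * q2 * q3 * q4 * r, by rw [hM]; ring⟩
  have dk : k ∣ (N : ℤ) := by
    have h1 : k ∣ ((k.natAbs : ℕ) : ℤ) := Int.dvd_natAbs.mpr (dvd_refl k)
    rw [hN, Nat.cast_mul]
    exact h1.mul_left _
  obtain ⟨P, hP1, hP2, -⟩ := sum_decomp hNpos 0 (fun _ _ => 0)
  rw [s07_pairs hr hs k x (fun n => co χ1 χ2 n) (fun n => conj (co χ3 χ4 n))]
  -- fibres over the N-parts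
  set S1 : Finset ℕ := (Icc 1 (X + k.natAbs)).filter (Fac N) with hS1
  have key : ∑ p ∈ LP k s r X, co χ1 χ2 p.1 * conj (co χ3 χ4 p.2) =
      ∑ c ∈ S1 ×ˢ S1, (co χ1 χ2 c.1 * conj (co χ3 χ4 c.2)) *
        ∑ q ∈ (LP k (s * c.1) (r * c.2) X).filter (fun p => Nat.Coprime p.1 N ∧ Nat.Coprime p.2 N),
          co χ1 χ2 q.1 * conj (co χ3 χ4 q.2) := by
    have hmaps : ∀ p ∈ LP k s r X, ((P p.1).1, (P p.2).1) ∈ S1 ×ˢ S1 := by
      intro p hp
      have hp0 := (s07_mem hs hr).mp hp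
      have hpl : p.1 ≤ X ∧ p.2 ≤ X + k.natAbs := by
        unfold LP at hp
        rw [mem_filter, mem_product, mem_Icc, mem_Icc] at hp
        exact ⟨hp.1.1.2, hp.1.2.2⟩
      obtain ⟨h1, h2, -, -⟩ := hp0
      obtain ⟨a1, a2, a3, a4⟩ := hP1 p.1 h1
      obtain ⟨b1, b2, b3, b4⟩ := hP1 p.2 h2
      rw [mem_product, hS1, mem_filter, mem_filter, mem_Icc, mem_Icc]
      refine ⟨⟨⟨a1.1, ?_⟩, a1⟩, ⟨b1.1, ?_⟩, b1⟩
      · have : (P p.1).1 ∣ p.1 := ⟨_, a4.symm⟩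
        exact (Nat.le_of_dvd h1 this).trans (hpl.1.trans (Nat.le_add_right _ _))
      · have : (P p.2).1 ∣ p.2 := ⟨_, b4.symm⟩
        exact (Nat.le_of_dvd h2 this).trans hpl.2
    rw [← sum_fiberwise_of_maps_to hmaps]
    refine sum_congr rfl ?_
    intro c hc
    rw [mem_product, hS1, mem_filter, mem_filter] at hc
    obtain ⟨⟨-, hc1⟩, -, hc2⟩ := hc
    have hsc : 0 < s * c.1 := Nat.mul_pos hs hc1.1
    have hrc : 0 < r * c.2 := Nat.mul_pos hr hc2.1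
    rw [mul_sum]
    have cop : ∀ a b : ℕ, Fac N a → Nat.Coprime b N → Nat.Coprime a b := by
      intro a b ha hb
      refine Nat.Coprime.symm ?_
      refine Nat.coprime_of_dvd ?_
      intro p hp hpb hpa
      have h1 : p ∣ N := ha.2 p hp hpa
      have h2 : p ∣ Nat.gcd b N := Nat.dvd_gcd hpb h1
      rw [hb] at h2
      exact hp.one_lt.ne' (Nat.dvd_one.mp h2)
    refine sum_nbij' (fun p => ((P p.1).2, (P p.2).2)) (fun q => (c.1 * q.1, c.2 * q.2)) ?_ ?_ ?_ ?_ ?_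
    · intro p hp
      rw [mem_filter, s07_mem hs hr] at hp
      obtain ⟨⟨h1, h2, h3, h4⟩, h5⟩ := hp
      obtain ⟨a1, a2, a3, a4⟩ := hP1 p.1 h1
      obtain ⟨b1, b2, b3, b4⟩ := hP1 p.2 h2
      have hc1' : (P p.1).1 = c.1 := by rw [← h5]
      have hc2' : (P p.2).1 = c.2 := by rw [← h5]
      rw [hc1'] at a4
      rw [hc2'] at b4
      rw [mem_filter, s07_mem hsc hrc]
      refine ⟨⟨a3, b3, ?_, ?_⟩, a2, b2⟩
      · simp only
        rw [mul_assoc, a4]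
        exact h3
      · simp only
        have e1 : ((s * c.1 : ℕ) : ℤ) * ((P p.1).2 : ℤ) = s * (p.1 : ℤ) := by
          conv_rhs => rw [← a4]
          push_cast
          ring
        have e2 : ((r * c.2 : ℕ) : ℤ) * ((P p.2).2 : ℤ) = r * (p.2 : ℤ) := by
          conv_rhs => rw [← b4]
          push_cast
          ring
        rw [e1, e2]
        exact h4
    · intro q hq
      rw [mem_filter, s07_mem hsc hrc] at hq
      obtain ⟨⟨h1, h2, h3, h4⟩, h5, h6⟩ := hq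
      rw [mem_filter, s07_mem hs hr]
      have u1 := hP2 (c.1 * q.1) c.1 q.1 (Nat.mul_pos hc1.1 h1) hc1 h5 rfl
      have u2 := hP2 (c.2 * q.2) c.2 q.2 (Nat.mul_pos hc2.1 h2) hc2 h6 rfl
      refine ⟨⟨Nat.mul_pos hc1.1 h1, Nat.mul_pos hc2.1 h2, ?_, ?_⟩, ?_⟩
      · simp only
        rw [← mul_assoc]
        exact h3
      · simp only
        rw [← h4]
        push_cast
        ring
      · simp only
        rw [u1, u2]
    · intro p hp
      rw [mem_filter, s07_mem hs hr] at hp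
      obtain ⟨⟨h1, h2, h3, h4⟩, h5⟩ := hp
      obtain ⟨a1, a2, a3, a4⟩ := hP1 p.1 h1
      obtain ⟨b1, b2, b3, b4⟩ := hP1 p.2 h2
      have hc1' : (P p.1).1 = c.1 := by rw [← h5]
      have hc2' : (P p.2).1 = c.2 := by rw [← h5]
      rw [hc1'] at a4
      rw [hc2'] at b4
      ext
      · exact a4
      · exact b4
    · intro q hq
      rw [mem_filter, s07_mem hsc hrc] at hq
      obtain ⟨⟨h1, h2, h3, h4⟩, h5, h6⟩ := hq
      have u1 := hP2 (c.1 * q.1) c.1 q.1 (Nat.mul_pos hc1.1 h1) hc1 h5 rfl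
      have u2 := hP2 (c.2 * q.2) c.2 q.2 (Nat.mul_pos hc2.1 h2) hc2 h6 rfl
      simp only
      rw [u1, u2]
    · intro p hp
      rw [mem_filter, s07_mem hs hr] at hp
      obtain ⟨⟨h1, h2, h3, h4⟩, h5⟩ := hp
      obtain ⟨a1, a2, a3, a4⟩ := hP1 p.1 h1
      obtain ⟨b1, b2, b3, b4⟩ := hP1 p.2 h2
      have hc1' : (P p.1).1 = c.1 := by rw [← h5]
      have hc2' : (P p.2).1 = c.2 := by rw [← h5]
      rw [hc1'] at a4
      rw [hc2'] at b4
      simp only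
      have e1 : co χ1 χ2 p.1 = co χ1 χ2 c.1 * co χ1 χ2 (P p.1).2 := by
        conv_lhs => rw [← a4]
        exact co_mul χ1 χ2 (cop _ _ hc1 a2)
      have e2 : co χ3 χ4 p.2 = co χ3 χ4 c.2 * co χ3 χ4 (P p.2).2 := by
        conv_lhs => rw [← b4]
        exact co_mul χ3 χ4 (cop _ _ hc2 b2)
      rw [e1, e2, map_mul]
      ring
  rw [key]
  have hb : ∀ c ∈ S1 ×ˢ S1, ‖(co χ1 χ2 c.1 * conj (co χ3 χ4 c.2)) *
        ∑ q ∈ (LP k (s * c.1) (r * c.2) X).filter (fun p => Nat.Coprime p.1 N ∧ Nat.Coprime p.2 N),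
          co χ1 χ2 q.1 * conj (co χ3 χ4 q.2)‖ ≤
      (C0 * N ^ 4 * k.natAbs * X) * (((c.1.divisors.card : ℝ) / √c.1) * ((c.2.divisors.card : ℝ) / √c.2)) := by
    intro c hc
    rw [mem_product, hS1, mem_filter, mem_filter] at hc
    obtain ⟨⟨-, hc1⟩, -, hc2⟩ := hc
    have hA : ∀ p : ℕ, p.Prime → p ∣ s * c.1 → p ∣ N := by
      intro p hp hpd
      rcases hp.dvd_mul.mp hpd with h | h
      · exact h.trans ds
      · exact hc1.2 p hp h
    have hB : ∀ p : ℕ, p.Prime → p ∣ r * c.2 → p ∣ N := by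
      intro p hp hpd
      rcases hp.dvd_mul.mp hpd with h | h
      · exact h.trans dr
      · exact hc2.2 p hp h
    have h1 := H q1 q2 q3 q4 χ1 χ2 χ3 χ4 n12 n34 N hNpos d1 d2 d3 d4 (s * c.1) (r * c.2)
      (Nat.mul_pos hs hc1.1) (Nat.mul_pos hr hc2.1) hA hB k hk dk X hX1
    have ha : ‖co χ1 χ2 c.1‖ ≤ (c.1.divisors.card : ℝ) := (co_le χ1 χ2 c.1).1
    have hb' : ‖co χ3 χ4 c.2‖ ≤ (c.2.divisors.card : ℝ) := (co_le χ3 χ4 c.2).1
    have hc1p : (0 : ℝ) < c.1 := by exact_mod_cast hc1.1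
    have hc2p : (0 : ℝ) < c.2 := by exact_mod_cast hc2.1
    have hsp : (1 : ℝ) ≤ s := by exact_mod_cast hs
    have hrp : (1 : ℝ) ≤ r := by exact_mod_cast hr
    have h2 : √(c.1 : ℝ) * √(c.2 : ℝ) ≤ √(((s * c.1 : ℕ) : ℝ) * ((r * c.2 : ℕ) : ℝ)) := by
      rw [← Real.sqrt_mul hc1p.le]
      apply Real.sqrt_le_sqrt
      push_cast
      calc (c.1 : ℝ) * c.2 = 1 * (1 * (c.1 * c.2)) := by ring
        _ ≤ s * (r * (c.1 * c.2)) := by gcongr
        _ = s * c.1 * (r * c.2) := by ring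
    have h2p : 0 < √(c.1 : ℝ) * √(c.2 : ℝ) := mul_pos (Real.sqrt_pos.mpr hc1p) (Real.sqrt_pos.mpr hc2p)
    rw [norm_mul, norm_mul, RCLike.norm_conj]
    calc ‖co χ1 χ2 c.1‖ * ‖co χ3 χ4 c.2‖ * _
        ≤ ((c.1.divisors.card : ℝ) * (c.2.divisors.card : ℝ)) *
          (C0 * N ^ 4 * k.natAbs * X / √(((s * c.1 : ℕ) : ℝ) * ((r * c.2 : ℕ) : ℝ))) := by
          apply mul_le_mul (mul_le_mul ha hb' (norm_nonneg _) (by positivity)) h1 (norm_nonneg _) (by positivity)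
      _ ≤ ((c.1.divisors.card : ℝ) * (c.2.divisors.card : ℝ)) *
          (C0 * N ^ 4 * k.natAbs * X / (√(c.1 : ℝ) * √(c.2 : ℝ))) := by
          apply mul_le_mul_of_nonneg_left _ (by positivity)
          exact div_le_div_of_nonneg_left (by positivity) h2p h2
      _ = _ := by
          field_simp
  have hfac : ∑ a ∈ S1, (a.divisors.card : ℝ) / √a ≤ (N : ℝ) ^ 4 := fac_sum hNpos _
  have hfac0 : 0 ≤ ∑ a ∈ S1, (a.divisors.card : ℝ) / √a := sum_nonneg (fun a _ => by positivity)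
  calc ‖∑ c ∈ S1 ×ˢ S1, (co χ1 χ2 c.1 * conj (co χ3 χ4 c.2)) *
        ∑ q ∈ (LP k (s * c.1) (r * c.2) X).filter (fun p => Nat.Coprime p.1 N ∧ Nat.Coprime p.2 N),
          co χ1 χ2 q.1 * conj (co χ3 χ4 q.2)‖
      ≤ ∑ c ∈ S1 ×ˢ S1, (C0 * N ^ 4 * k.natAbs * X) *
        (((c.1.divisors.card : ℝ) / √c.1) * ((c.2.divisors.card : ℝ) / √c.2)) := norm_sum_le_of_le _ hb
    _ = (C0 * N ^ 4 * k.natAbs * X) * ((∑ a ∈ S1, (a.divisors.card : ℝ) / √a) *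
        ∑ a ∈ S1, (a.divisors.card : ℝ) / √a) := by
        rw [← mul_sum, sum_mul_sum, sum_product]
    _ ≤ (C0 * N ^ 4 * k.natAbs * X) * ((N : ℝ) ^ 4 * (N : ℝ) ^ 4) := by
        apply mul_le_mul_of_nonneg_left _ (by positivity)
        exact mul_le_mul hfac hfac hfac0 (by positivity)
    _ = C0 * (M : ℝ) ^ 12 * s * (k.natAbs : ℝ) ^ 13 * x := by
        rw [hN, hX]
        push_cast
        ring

end RQ
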