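import Pool.Agent.Lib.MP_0f5a55_nt.RQ.R04
import Pool.Agent.Lib.MP_0f5a55_nt.RQ.S01
import Pool.Agent.Lib.MP_0f5a55_nt.RQ.S07

open Complex MeasureTheory Set Filter Topology
open scoped Real ComplexConjugate

namespace RQ

open OO

private theorem M02_sq (q1 q2 : ℕ) [NeZero q1] [NeZero q2] :
    Real.exp (-(T_psi q1 q2)) ^ 2 * ((q1 : ℝ) * q2) = 1 := by
  have h1 : 0 < (q1 : ℝ) := Nat.cast_pos.2 (NeZero.pos q1)
  have h2 : 0 < (q2 : ℝ) := Nat.cast_pos.2 (NeZero.pos q2)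
  have hQ : 0 < (q1 : ℝ) * q2 := mul_pos h1 h2
  unfold T_psi
  rw [← Real.exp_nat_mul, show ((2 : ℕ) : ℝ) * (-(Real.log (q1 * q2) / 2)) = -Real.log (q1 * q2) by
    push_cast; ring, Real.exp_neg, Real.exp_log hQ, inv_mul_cancel₀ hQ.ne']

private theorem M02_eq {q1 q2 q3 q4 : ℕ} [NeZero q1] [NeZero q2] [NeZero q3] [NeZero q4] {r s : ℕ}
    (hq : q1 * q2 * s ^ 2 = q3 * q4 * r ^ 2) :
    (s : ℝ) * Real.exp (-(T_psi q3 q4)) = r * Real.exp (-(T_psi q1 q2)) := by
  have e1 := M02_sq q1 q2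
  have e2 := M02_sq q3 q4
  have h1 : 0 < (q1 : ℝ) * q2 := mul_pos (Nat.cast_pos.2 (NeZero.pos q1)) (Nat.cast_pos.2 (NeZero.pos q2))
  have h2 : 0 < (q3 : ℝ) * q4 := mul_pos (Nat.cast_pos.2 (NeZero.pos q3)) (Nat.cast_pos.2 (NeZero.pos q4))
  have hq' : (q1 : ℝ) * q2 * (s : ℝ) ^ 2 = q3 * q4 * (r : ℝ) ^ 2 := by exact_mod_cast hq
  refine (sq_eq_sq₀ (by positivity) (by positivity)).1 ?_
  have h3 : ((q1 : ℝ) * q2) * ((q3 : ℝ) * q4) ≠ 0 := (mul_pos h1 h2).ne'
  refine mul_left_cancel₀ h3 ?_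
  calc ((q1 : ℝ) * q2) * ((q3 : ℝ) * q4) * ((s : ℝ) * Real.exp (-(T_psi q3 q4))) ^ 2
      = ((q1 : ℝ) * q2 * (s : ℝ) ^ 2) * (Real.exp (-(T_psi q3 q4)) ^ 2 * ((q3 : ℝ) * q4)) := by ring
    _ = (q3 * q4 * (r : ℝ) ^ 2) * (Real.exp (-(T_psi q1 q2)) ^ 2 * ((q1 : ℝ) * q2)) := by rw [hq', e1, e2]
    _ = ((q1 : ℝ) * q2) * ((q3 : ℝ) * q4) * ((r : ℝ) * Real.exp (-(T_psi q1 q2))) ^ 2 := by ring

private theorem M02_zz (ε : ℝ) : zz ε = ((Real.sin ε : ℝ) : ℂ) + ((Real.cos ε : ℝ) : ℂ) * I := by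
  unfold zz
  refine Complex.ext ?_ ?_
  · rw [Complex.exp_ofReal_mul_I_re, Real.cos_pi_div_two_sub, Complex.add_re, Complex.ofReal_re,
      Complex.re_ofReal_mul, Complex.I_re, mul_zero, add_zero]
  · rw [Complex.exp_ofReal_mul_I_im, Real.sin_pi_div_two_sub, Complex.add_im, Complex.ofReal_im,
      Complex.im_ofReal_mul, Complex.I_im, mul_one, zero_add]

private noncomputable def M02_W (E : ℝ) (s : ℕ) (k : ℤ) (ε : ℝ) (n : ℕ) : ℂ :=
  ((2 * π * E * (Real.sin ε * (2 * n - k / s)) : ℝ) : ℂ) + ((2 * π * E * (k / s * Real.cos ε) : ℝ) : ℂ) * I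

private theorem M02_re (E : ℝ) (s : ℕ) (k : ℤ) (ε : ℝ) (n : ℕ) :
    (M02_W E s k ε n).re = 2 * π * E * (Real.sin ε * (2 * n - k / s)) := by
  unfold M02_W
  rw [Complex.add_re, Complex.ofReal_re, Complex.re_ofReal_mul, Complex.I_re, mul_zero, add_zero]

private theorem M02_im (E : ℝ) (s : ℕ) (k : ℤ) (ε : ℝ) (n : ℕ) :
    (M02_W E s k ε n).im = 2 * π * E * (k / s * Real.cos ε) := by
  unfold M02_W
  rw [Complex.add_im, Complex.ofReal_im, Complex.im_ofReal_mul, Complex.I_im, mul_one, zero_add]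

private theorem M02_succ (E : ℝ) (s : ℕ) (k : ℤ) (ε : ℝ) (n : ℕ) :
    M02_W E s k ε (n + 1) = M02_W E s k ε n + ((4 * π * E * Real.sin ε : ℝ) : ℂ) := by
  unfold M02_W
  push_cast
  ring

private theorem M02_wf {q1 q2 q3 q4 : ℕ} [NeZero q1] [NeZero q2] [NeZero q3] [NeZero q4] {r s : ℕ} (hs : 0 < s)
    (hq : q1 * q2 * s ^ 2 = q3 * q4 * r ^ 2) (ε : ℝ) {k : ℤ} {n m : ℕ} (h : (s : ℤ) * n - r * m = k) :
    wf (T_psi q1 q2) (T_psi q3 q4) ε n m = M02_W (Real.exp (-(T_psi q1 q2))) s k ε n := by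
  have h1 := M02_eq hq
  set E : ℝ := Real.exp (-(T_psi q1 q2)) with hE
  set E' : ℝ := Real.exp (-(T_psi q3 q4)) with hE'
  have hs' : (s : ℝ) ≠ 0 := Nat.cast_ne_zero.2 hs.ne'
  have hk : (k : ℝ) = s * n - r * m := by
    rw [← h]
    push_cast
    ring
  have h2 : (m : ℝ) * E' = (n - k / s) * E := by
    refine mul_left_cancel₀ hs' ?_
    rw [hk]
    field_simp
    linear_combination (m : ℝ) * h1
  have h2' : (m : ℂ) * (E' : ℂ) = (n - k / s) * (E : ℂ) := by exact_mod_cast congrArg (fun x : ℝ => (x : ℂ)) h2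
  unfold wf M02_W
  rw [M02_zz, ← hE, ← hE', map_mul, map_add, map_mul, conj_ofReal, conj_ofReal, conj_ofReal, conj_I]
  push_cast
  linear_combination (2 * (π : ℂ) * (Complex.sin ε - Complex.cos ε * I)) * h2'

private theorem M02_parts (a b : ℕ → ℂ) (n : ℕ) :
    ∑ l ∈ Finset.range (n + 1), a l * b l = (∑ l ∈ Finset.range (n + 1), a l) * b n +
      ∑ j ∈ Finset.range n, (∑ l ∈ Finset.range (j + 1), a l) * (b j - b (j + 1)) := by
  induction n with
  | zero => simp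
  | succ n ih =>
    rw [Finset.sum_range_succ, ih, Finset.sum_range_succ (fun j => (∑ l ∈ Finset.range (j + 1), a l) *
      (b j - b (j + 1))), Finset.sum_range_succ a (n + 1)]
    ring

private theorem M02_icc {f : ℕ → ℂ} (h0 : f 0 = 0) (N : ℕ) :
    ∑ l ∈ Finset.range (N + 1), f l = ∑ l ∈ Finset.Icc 1 N, f l := by
  induction N with
  | zero => simp [h0]
  | succ n ih => rw [Finset.sum_range_succ, ih, Finset.sum_Icc_succ_top (by omega)]

private theorem M02_xexp {x d : ℝ} (hd : 0 < d) : x * Real.exp (-(d * x)) ≤ 1 / d := by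
  have h1 : d * x ≤ Real.exp (d * x) := by linarith [Real.add_one_le_exp (d * x)]
  rw [le_div_iff₀ hd, Real.exp_neg]
  have h2 : 0 < Real.exp (d * x) := Real.exp_pos _
  calc x * (Real.exp (d * x))⁻¹ * d = (d * x) * (Real.exp (d * x))⁻¹ := by ring
    _ ≤ Real.exp (d * x) * (Real.exp (d * x))⁻¹ := mul_le_mul_of_nonneg_right h1 (by positivity)
    _ = 1 := mul_inv_cancel₀ h2.ne'

private theorem M02_geom {d : ℝ} (hd : 0 < d) (N : ℕ) :
    ∑ j ∈ Finset.range N, Real.exp (-(d * j)) * (if j = 0 then 0 else 1) ≤ 1 / d := by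
  rw [le_div_iff₀ hd]
  have key : ∀ n : ℕ, (∑ j ∈ Finset.range (n + 1), Real.exp (-(d * j)) * (if j = 0 then 0 else 1)) * d ≤
      1 - Real.exp (-(d * n)) := by
    intro n
    induction n with
    | zero => simp
    | succ n ih =>
      rw [Finset.sum_range_succ, add_mul]
      have e1 : Real.exp (-(d * ((n + 1 : ℕ) : ℝ))) * (if n + 1 = 0 then (0 : ℝ) else 1) * d ≤
          Real.exp (-(d * n)) - Real.exp (-(d * ((n + 1 : ℕ) : ℝ))) := by
        rw [if_neg (Nat.succ_ne_zero n), mul_one]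
        have e2 : Real.exp (-(d * n)) = Real.exp (-(d * ((n + 1 : ℕ) : ℝ))) * Real.exp d := by
          rw [← Real.exp_add]
          congr 1
          push_cast
          ring
        rw [e2]
        nlinarith [Real.add_one_le_exp d, Real.exp_pos (-(d * ((n + 1 : ℕ) : ℝ)))]
      linarith
  rcases N with _ | n
  · simp
  · exact (key n).trans (by linarith [Real.exp_pos (-(d * n))])

private theorem M02_sumn {d : ℝ} (hd : 0 < d) (N : ℕ) :
    ∑ j ∈ Finset.range N, (j : ℝ) * Real.exp (-(d * j)) ≤ 4 / d ^ 2 := by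
  have h1 : ∀ j ∈ Finset.range N, (j : ℝ) * Real.exp (-(d * j)) ≤
      (2 / d) * (Real.exp (-(d / 2 * j)) * (if j = 0 then 0 else 1)) := by
    intro j _
    by_cases hj : j = 0
    · subst hj
      simp
    · rw [if_neg hj, mul_one]
      have e1 := M02_xexp (x := (j : ℝ)) (half_pos hd)
      have e2 : Real.exp (-(d * j)) = Real.exp (-(d / 2 * j)) * Real.exp (-(d / 2 * j)) := by
        rw [← Real.exp_add]
        congr 1
        ring
      rw [e2]
      calc (j : ℝ) * (Real.exp (-(d / 2 * j)) * Real.exp (-(d / 2 * j)))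
          = ((j : ℝ) * Real.exp (-(d / 2 * j))) * Real.exp (-(d / 2 * j)) := by ring
        _ ≤ (1 / (d / 2)) * Real.exp (-(d / 2 * j)) := mul_le_mul_of_nonneg_right e1 (Real.exp_pos _).le
        _ = (2 / d) * Real.exp (-(d / 2 * j)) := by
          congr 1
          field_simp
  refine (Finset.sum_le_sum h1).trans ?_
  rw [← Finset.mul_sum]
  calc (2 / d) * _ ≤ (2 / d) * (1 / (d / 2)) := mul_le_mul_of_nonneg_left (M02_geom (half_pos hd) N) (by positivity)
    _ = 4 / d ^ 2 := by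
      field_simp
      norm_num

/-- Abel summation with exponentially decreasing weights -/
private theorem M02_abel {a b : ℕ → ℂ} {K B D d : ℝ} (hK : 0 ≤ K) (hB : 0 ≤ B) (hD : 0 ≤ D) (hd : 0 < d)
    (h0 : a 0 = 0)
    (ha : ∀ n : ℕ, ‖∑ l ∈ Finset.Icc 1 n, a l‖ ≤ K * n)
    (hb : ∀ n : ℕ, ∑ l ∈ Finset.Icc 1 n, a l ≠ 0 → ‖b n‖ ≤ B * Real.exp (-(d * n)))
    (hdf : ∀ n : ℕ, ∑ l ∈ Finset.Icc 1 n, a l ≠ 0 → ‖b n - b (n + 1)‖ ≤ D * d * Real.exp (-(d * n))) (N : ℕ) :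
    ‖∑ l ∈ Finset.range N, a l * b l‖ ≤ K * (B + 4 * D) / d := by
  rcases N with _ | n
  · rw [Finset.sum_range_zero, norm_zero]
    positivity
  rw [M02_parts]
  refine (norm_add_le _ _).trans ?_
  have e1 : ‖(∑ l ∈ Finset.range (n + 1), a l) * b n‖ ≤ K * B * (1 / d) := by
    rw [M02_icc h0, norm_mul]
    by_cases hz : ∑ l ∈ Finset.Icc 1 n, a l = 0
    · rw [hz, norm_zero, zero_mul]
      positivity
    · calc ‖∑ l ∈ Finset.Icc 1 n, a l‖ * ‖b n‖ ≤ (K * n) * (B * Real.exp (-(d * n))) :=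
            mul_le_mul (ha n) (hb n hz) (norm_nonneg _) (by positivity)
        _ = K * B * (n * Real.exp (-(d * n))) := by ring
        _ ≤ K * B * (1 / d) := mul_le_mul_of_nonneg_left (M02_xexp hd) (by positivity)
  have e2 : ‖∑ j ∈ Finset.range n, (∑ l ∈ Finset.range (j + 1), a l) * (b j - b (j + 1))‖ ≤
      K * D * d * (4 / d ^ 2) := by
    have e3 : ∀ j ∈ Finset.range n, ‖(∑ l ∈ Finset.range (j + 1), a l) * (b j - b (j + 1))‖ ≤
        K * D * d * ((j : ℝ) * Real.exp (-(d * j))) := by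
      intro j _
      rw [M02_icc h0, norm_mul]
      by_cases hz : ∑ l ∈ Finset.Icc 1 j, a l = 0
      · rw [hz, norm_zero, zero_mul]
        positivity
      · calc ‖∑ l ∈ Finset.Icc 1 j, a l‖ * ‖b j - b (j + 1)‖ ≤ (K * j) * (D * d * Real.exp (-(d * j))) :=
              mul_le_mul (ha j) (hdf j hz) (norm_nonneg _) (by positivity)
          _ = K * D * d * ((j : ℝ) * Real.exp (-(d * j))) := by ring
    refine (norm_sum_le_of_le _ e3).trans ?_
    rw [← Finset.mul_sum]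
    exact mul_le_mul_of_nonneg_left (M02_sumn hd n) (by positivity)
  calc _ ≤ K * B * (1 / d) + K * D * d * (4 / d ^ 2) := add_le_add e1 e2
    _ = K * (B + 4 * D) / d := by
      field_simp

/-- Row M02. One line s n - r m = k, k not 0. -/
theorem line_bound {q1 q2 q3 q4 : ℕ} [NeZero q1] [NeZero q2] [NeZero q3] [NeZero q4] {χ1 : DirichletCharacter ℂ q1}
    {χ2 : DirichletCharacter ℂ q2} {χ3 : DirichletCharacter ℂ q3} {χ4 : DirichletCharacter ℂ q4}
    (n12 : Ne12 χ1 χ2) (n34 : Ne12 χ3 χ4) {r s : ℕ} (hr : 0 < r) (hs : 0 < s)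
    (hq : q1 * q2 * s ^ 2 = q3 * q4 * r ^ 2) : ∃ C : ℝ, 0 < C ∧ ∀ ε : ℝ, 0 < ε → ε ≤ 1 / 10 → ∀ k : ℤ, k ≠ 0 →
    ‖∑' p : {p : ℕ × ℕ // (s : ℤ) * p.1 - r * p.2 = k}, co χ1 χ2 p.1.1 * conj (co χ3 χ4 p.1.2) *
      Ph (wf (T_psi q1 q2) (T_psi q3 q4) ε p.1.1 p.1.2)‖ ≤ C * ((k.natAbs : ℝ) ^ 2)⁻¹ / ε := by
  obtain ⟨C1, hC1, hsh⟩ := shifted n12 n34 hr hs
  obtain ⟨CB, hCB, hPb⟩ := Ph_bound 15 (by norm_num)
  obtain ⟨CD, hCD, hPd⟩ := Ph_diff 15 (by norm_num)
  set E : ℝ := Real.exp (-(T_psi q1 q2)) with hEdef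
  have hE : 0 < E := Real.exp_pos _
  have hs' : 0 < (s : ℝ) := Nat.cast_pos.2 hs
  have hr' : 0 < (r : ℝ) := Nat.cast_pos.2 hr
  set c1 : ℝ := π * E / s with hc1def
  have hc1 : 0 < c1 := by positivity
  refine ⟨C1 * (c1 ^ 15)⁻¹ * (CB + 32 * CD) / E, by positivity, ?_⟩
  intro ε h0 h1 k hk
  have hsin : 2 / π * ε ≤ Real.sin ε := TT.sin_ge h0 (by linarith)
  have hsin0 : 0 < Real.sin ε := TT.sin_pos' h0 (by linarith)
  have hcos : 1 / 2 ≤ Real.cos ε := by
    have := Real.one_sub_sq_div_two_le_cos (x := ε)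
    nlinarith
  have hkn : 0 < (k.natAbs : ℝ) := Nat.cast_pos.2 (Int.natAbs_pos.2 hk)
  have hkabs : (k.natAbs : ℝ) = |(k : ℝ)| := by
    rw [Nat.cast_natAbs, Int.cast_abs]
  set d : ℝ := π / 2 * E * Real.sin ε with hddef
  have hd : 0 < d := by positivity
  have hdge : E * ε ≤ d := by
    have e1 : E * ε = π / 2 * E * (2 / π * ε) := by
      field_simp
    rw [e1, hddef]
    exact mul_le_mul_of_nonneg_left hsin (by positivity)
  set W : ℕ → ℂ := M02_W E s k ε with hWdef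
  set a : ℕ → ℂ := fun n => if (r : ℤ) ∣ s * n - k ∧ 0 < s * (n : ℤ) - k then
      co χ1 χ2 n * conj (co χ3 χ4 ((s * n - k) / r).toNat) else 0 with hadef
  have ha0 : a 0 = 0 := by
    simp only [hadef]
    split_ifs <;> simp
  -- reindexing
  have htsum : (∑' p : {p : ℕ × ℕ // (s : ℤ) * p.1 - r * p.2 = k}, co χ1 χ2 p.1.1 * conj (co χ3 χ4 p.1.2) *
      Ph (wf (T_psi q1 q2) (T_psi q3 q4) ε p.1.1 p.1.2)) = ∑' n : ℕ, a n * Ph (W n) := by
    have hinj : Function.Injective (fun p : {p : ℕ × ℕ // (s : ℤ) * p.1 - r * p.2 = k} => p.1.1) := by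
      rintro ⟨⟨n, m⟩, h⟩ ⟨⟨n', m'⟩, h'⟩ he
      have he' : n = n' := he
      subst he'
      have h3 : (r : ℤ) * m = r * m' := by
        have h4 : (s : ℤ) * n - r * m = k := h
        have h5 : (s : ℤ) * n - r * m' = k := h'
        linarith
      have h6 : m = m' := by
        have : r * m = r * m' := by exact_mod_cast h3
        exact Nat.eq_of_mul_eq_mul_left hr this
      subst h6
      rfl
    rw [← hinj.tsum_eq]
    · refine tsum_congr ?_
      rintro ⟨⟨n, m⟩, h⟩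
      have h' : (s : ℤ) * n - r * m = k := h
      change co χ1 χ2 n * conj (co χ3 χ4 m) * Ph (wf (T_psi q1 q2) (T_psi q3 q4) ε n m) = a n * Ph (W n)
      have h3 : (s : ℤ) * n - k = r * m := by linarith
      rcases Nat.eq_zero_or_pos m with rfl | hm
      · have : a n = 0 := by
          simp only [hadef]
          rw [if_neg]
          rintro ⟨-, h4⟩
          rw [h3] at h4
          simp at h4
        rw [this]
        simp
      · have h4 : (0 : ℤ) < r * m := by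
          have : 0 < r * m := Nat.mul_pos hr hm
          exact_mod_cast this
        have h5 : a n = co χ1 χ2 n * conj (co χ3 χ4 m) := by
          simp only [hadef]
          rw [if_pos ⟨by rw [h3]; exact dvd_mul_right _ _, by rw [h3]; exact h4⟩, h3,
            Int.mul_ediv_cancel_left _ (by exact_mod_cast hr.ne'), Int.toNat_natCast]
        rw [h5, M02_wf hs hq ε h']
    · intro n hn
      rw [Function.mem_support] at hn
      have h2 : a n ≠ 0 := left_ne_zero_of_mul hn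
      have h3 : (r : ℤ) ∣ s * n - k ∧ 0 < s * (n : ℤ) - k := by
        by_contra h4
        apply h2
        simp only [hadef]
        rw [if_neg h4]
      obtain ⟨⟨c, hc⟩, h4⟩ := h3
      have hc0 : 0 < c := by
        rw [hc] at h4
        exact (mul_pos_iff_of_pos_left (by exact_mod_cast hr)).1 h4
      obtain ⟨m, rfl⟩ := Int.eq_ofNat_of_zero_le hc0.le
      refine ⟨⟨(n, m), ?_⟩, rfl⟩
      change (s : ℤ) * n - r * m = k
      linarith
  rw [htsum]
  -- estimates on the support of the partial sums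
  have hK : ∀ n : ℕ, ‖∑ l ∈ Finset.Icc 1 n, a l‖ ≤ C1 * (k.natAbs : ℝ) ^ 13 * n := by
    intro n
    rcases Nat.eq_zero_or_pos n with rfl | hn
    · simp
    · exact hsh k hk n hn
  have hsupp : ∀ n : ℕ, ∑ l ∈ Finset.Icc 1 n, a l ≠ 0 → (k : ℝ) / s ≤ n := by
    intro n hn
    obtain ⟨l, hl, hl2⟩ := Finset.exists_ne_zero_of_sum_ne_zero hn
    rw [Finset.mem_Icc] at hl
    have h3 : 0 < s * (l : ℤ) - k := by
      by_contra h4
      apply hl2
      simp only [hadef]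
      rw [if_neg (fun h => h4 h.2)]
    rw [div_le_iff₀ hs']
    have h5 : (k : ℝ) < s * l := by
      have : k < s * (l : ℤ) := by linarith
      exact_mod_cast this
    have h6 : (l : ℝ) ≤ n := by exact_mod_cast hl.2
    nlinarith
  have hre : ∀ n : ℕ, ∑ l ∈ Finset.Icc 1 n, a l ≠ 0 → 4 * (d * n) ≤ (W n).re ∧ 0 < (W n).re := by
    intro n hn
    have h3 := hsupp n hn
    have hn1 : 0 < (n : ℝ) := by
      rw [Nat.cast_pos]
      rcases Nat.eq_zero_or_pos n with rfl | h4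
      · simp at hn
      · exact h4
    have h4 : 4 * (d * n) ≤ (W n).re := by
      rw [hWdef, M02_re, hddef]
      calc 4 * (π / 2 * E * Real.sin ε * n) = 2 * π * E * (Real.sin ε * n) := by ring
        _ ≤ 2 * π * E * (Real.sin ε * (2 * n - k / s)) := by
          refine mul_le_mul_of_nonneg_left (mul_le_mul_of_nonneg_left ?_ hsin0.le) (by positivity)
          linarith
    exact ⟨h4, lt_of_lt_of_le (by positivity) h4⟩
  have hnorm : ∀ n : ℕ, c1 * (k.natAbs : ℝ) ≤ ‖W n‖ := by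
    intro n
    refine le_trans ?_ (Complex.abs_im_le_norm _)
    rw [hWdef, M02_im, abs_mul (2 * π * E), abs_mul (_ / _), abs_div, ← hkabs, abs_of_pos (by positivity : 0 < 2 * π * E),
      abs_of_pos hs', abs_of_pos (by linarith : 0 < Real.cos ε), hc1def]
    have h3 : 0 ≤ 2 * π * E * ((k.natAbs : ℝ) / s) := by positivity
    calc π * E / s * (k.natAbs : ℝ) = 2 * π * E * ((k.natAbs : ℝ) / s) * (1 / 2) := by ring
      _ ≤ 2 * π * E * ((k.natAbs : ℝ) / s) * Real.cos ε := mul_le_mul_of_nonneg_left hcos h3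
      _ = _ := by ring
  have hpow : ∀ n : ℕ, (‖W n‖ ^ 15)⁻¹ ≤ ((c1 * (k.natAbs : ℝ)) ^ 15)⁻¹ := by
    intro n
    exact inv_anti₀ (by positivity) (pow_le_pow_left₀ (by positivity) (hnorm n) 15)
  have hexp : ∀ n : ℕ, ∑ l ∈ Finset.Icc 1 n, a l ≠ 0 → Real.exp (-((W n).re / 4)) ≤ Real.exp (-(d * n)) := by
    intro n hn
    have := (hre n hn).1
    exact Real.exp_le_exp.2 (by linarith)
  have hpart : ∀ N : ℕ, ‖∑ n ∈ Finset.range N, a n * Ph (W n)‖ ≤
      C1 * (c1 ^ 15)⁻¹ * (CB + 32 * CD) / E * ((k.natAbs : ℝ) ^ 2)⁻¹ / ε := by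
    intro N
    have h3 := M02_abel (a := a) (b := fun n => Ph (W n)) (K := C1 * (k.natAbs : ℝ) ^ 13)
      (B := CB * ((c1 * (k.natAbs : ℝ)) ^ 15)⁻¹) (D := 8 * CD * ((c1 * (k.natAbs : ℝ)) ^ 15)⁻¹) (d := d)
      (by positivity) (by positivity) (by positivity) hd ha0 hK
      (fun n hn => by
        refine (hPb (W n) (hre n hn).2).trans ?_
        exact mul_le_mul (mul_le_mul_of_nonneg_left (hpow n) hCB.le) (hexp n hn) (Real.exp_pos _).le (by positivity))
      (fun n hn => by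
        have h4 := hPd (W n) (4 * π * E * Real.sin ε) (hre n hn).2 (by positivity)
        have h5 : W (n + 1) = W n + ((4 * π * E * Real.sin ε : ℝ) : ℂ) := M02_succ E s k ε n
        rw [norm_sub_rev, h5]
        refine h4.trans ?_
        have h6 : 8 * CD * ((c1 * (k.natAbs : ℝ)) ^ 15)⁻¹ * d = CD * (4 * π * E * Real.sin ε) *
            ((c1 * (k.natAbs : ℝ)) ^ 15)⁻¹ := by
          rw [hddef]
          ring
        rw [h6]
        exact mul_le_mul (mul_le_mul_of_nonneg_left (hpow n) (by positivity)) (hexp n hn) (Real.exp_pos _).le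
          (by positivity)) N
    refine h3.trans ?_
    have h7 : C1 * (k.natAbs : ℝ) ^ 13 * (CB * ((c1 * (k.natAbs : ℝ)) ^ 15)⁻¹ +
        4 * (8 * CD * ((c1 * (k.natAbs : ℝ)) ^ 15)⁻¹)) =
        C1 * (c1 ^ 15)⁻¹ * (CB + 32 * CD) * ((k.natAbs : ℝ) ^ 2)⁻¹ := by
      field_simp
      ring
    rw [h7]
    calc C1 * (c1 ^ 15)⁻¹ * (CB + 32 * CD) * ((k.natAbs : ℝ) ^ 2)⁻¹ / d ≤
        C1 * (c1 ^ 15)⁻¹ * (CB + 32 * CD) * ((k.natAbs : ℝ) ^ 2)⁻¹ / (E * ε) :=
          div_le_div_of_nonneg_left (by positivity) (by positivity) hdge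
      _ = _ := by
        field_simp
  by_cases hsF : Summable (fun n => a n * Ph (W n))
  · have ht := hsF.hasSum.tendsto_sum_nat.norm
    exact le_of_tendsto' ht hpart
  · rw [tsum_eq_zero_of_not_summable hsF, norm_zero]
    positivity

end RQ
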