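import Mathlib

open Complex Finset
open scoped Real ComplexConjugate

namespace RQ

theorem S08_aux {d e u v g : ℕ} (hd : 0 < d) (hu : 0 < u) (h : d * e = u * v) (hg : g = Nat.gcd d u) :
    g * (d / g) = d ∧ g * (u / g) = u ∧ Nat.Coprime (d / g) (u / g) ∧
      (u / g) * (e / (u / g)) = e ∧ (d / g) * (e / (u / g)) = v := by
  have hgpos : 0 < g := by
    rw [hg]
    exact Nat.gcd_pos_of_pos_left _ hd
  have h1 : g * (d / g) = d := Nat.mul_div_cancel' (hg ▸ Nat.gcd_dvd_left d u)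
  have h2 : g * (u / g) = u := Nat.mul_div_cancel' (hg ▸ Nat.gcd_dvd_right d u)
  have h3 : Nat.Coprime (d / g) (u / g) := by
    rw [hg]
    exact Nat.coprime_div_gcd_div_gcd (Nat.gcd_pos_of_pos_left _ hd)
  have h4 : (d / g) * e = (u / g) * v := by
    have : g * ((d / g) * e) = g * ((u / g) * v) := by
      rw [← mul_assoc, ← mul_assoc, h1, h2, h]
    exact Nat.eq_of_mul_eq_mul_left hgpos this
  have h5 : (u / g) ∣ e := by
    have : (u / g) ∣ (d / g) * e := ⟨v, h4⟩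
    exact (Nat.Coprime.dvd_of_dvd_mul_left h3.symm this)
  have h6 : (u / g) * (e / (u / g)) = e := Nat.mul_div_cancel' h5
  refine ⟨h1, h2, h3, h6, ?_⟩
  have h0 : 0 < u / g := Nat.pos_of_ne_zero (fun h0 => by rw [h0, mul_zero] at h2; omega)
  have h8 : (u / g) * ((d / g) * (e / (u / g))) = (u / g) * v := by
    rw [← h4]
    calc (u / g) * ((d / g) * (e / (u / g))) = (d / g) * ((u / g) * (e / (u / g))) := by ring
      _ = (d / g) * e := by rw [h6]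
  exact Nat.eq_of_mul_eq_mul_left h0 h8

/-- Row S08. Product of two convolutions of completely multiplicative functions (Ramanujan): d = g a, e = b w, u = g b, v = a w,
a and b coprime. -/
theorem four_bij {f1 f2 f3 f4 : ℕ → ℂ} (m1 : ∀ m n, f1 (m * n) = f1 m * f1 n) (m2 : ∀ m n, f2 (m * n) = f2 m * f2 n)
    (m3 : ∀ m n, f3 (m * n) = f3 m * f3 n) (m4 : ∀ m n, f4 (m * n) = f4 m * f4 n) {l : ℕ} (hl : 0 < l) :
    (∑ x ∈ l.divisorsAntidiagonal, f1 x.1 * f2 x.2) * (∑ y ∈ l.divisorsAntidiagonal, f3 y.1 * f4 y.2) =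
      ∑ x ∈ l.divisorsAntidiagonal, ∑ y ∈ x.1.divisorsAntidiagonal, ∑ z ∈ x.2.divisorsAntidiagonal,
        if Nat.Coprime y.2 z.1 then
          (f1 y.1 * f3 y.1) * (f1 y.2 * f4 y.2) * ((f2 z.1 * f3 z.1) * (f2 z.2 * f4 z.2)) else 0 := by
  rw [Finset.sum_mul_sum]
  refine Finset.sum_congr rfl (fun x hx => ?_)
  rw [Nat.mem_divisorsAntidiagonal] at hx
  obtain ⟨hxl, -⟩ := hx
  have hx1 : 0 < x.1 := Nat.pos_of_ne_zero (fun h => by rw [h, zero_mul] at hxl; omega)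
  have hx2 : 0 < x.2 := Nat.pos_of_ne_zero (fun h => by rw [h, mul_zero] at hxl; omega)
  rw [← Finset.sum_product', ← Finset.sum_filter]
  symm
  refine Finset.sum_nbij' (fun p : (ℕ × ℕ) × (ℕ × ℕ) => (p.1.1 * p.2.1, p.1.2 * p.2.2))
    (fun q : ℕ × ℕ => ((Nat.gcd x.1 q.1, x.1 / Nat.gcd x.1 q.1),
      (q.1 / Nat.gcd x.1 q.1, x.2 / (q.1 / Nat.gcd x.1 q.1)))) ?_ ?_ ?_ ?_ ?_
  · rintro ⟨⟨g, a⟩, ⟨b, w⟩⟩ hp
    simp only [Finset.mem_filter, Finset.mem_product, Nat.mem_divisorsAntidiagonal] at hp ⊢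
    obtain ⟨⟨⟨h1, -⟩, ⟨h2, -⟩⟩, -⟩ := hp
    refine ⟨?_, hl.ne'⟩
    rw [← hxl, ← h1, ← h2]
    ring
  · rintro ⟨u, v⟩ hq
    simp only [Finset.mem_filter, Finset.mem_product, Nat.mem_divisorsAntidiagonal] at hq ⊢
    have hu : 0 < u := Nat.pos_of_ne_zero (fun h => by rw [h, zero_mul] at hq; omega)
    obtain ⟨h1, h2, h3, h4, h5⟩ := S08_aux (d := x.1) (e := x.2) (u := u) (v := v) hx1 hu
      (hxl.trans hq.1.symm) rfl
    exact ⟨⟨⟨h1, hx1.ne'⟩, ⟨h4, hx2.ne'⟩⟩, h3⟩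
  · rintro ⟨⟨g, a⟩, ⟨b, w⟩⟩ hp
    simp only [Finset.mem_filter, Finset.mem_product, Nat.mem_divisorsAntidiagonal] at hp
    obtain ⟨⟨⟨h1, -⟩, ⟨h2, -⟩⟩, h3⟩ := hp
    have hg : 0 < g := Nat.pos_of_ne_zero (fun h => by rw [h, zero_mul] at h1; omega)
    have hb : 0 < b := Nat.pos_of_ne_zero (fun h => by rw [h, zero_mul] at h2; omega)
    have hgcd : Nat.gcd x.1 (g * b) = g := by
      rw [← h1, Nat.gcd_mul_left, h3.gcd_eq_one, mul_one]
    simp only [hgcd, Prod.mk.injEq]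
    have e1 : x.1 / g = a := by rw [← h1, Nat.mul_div_cancel_left _ hg]
    have e2 : g * b / g = b := Nat.mul_div_cancel_left _ hg
    have e3 : x.2 / b = w := by rw [← h2, Nat.mul_div_cancel_left _ hb]
    simp [e1, e2, e3]
  · rintro ⟨u, v⟩ hq
    simp only [Nat.mem_divisorsAntidiagonal] at hq
    have hu : 0 < u := Nat.pos_of_ne_zero (fun h => by rw [h, zero_mul] at hq; omega)
    obtain ⟨h1, h2, h3, h4, h5⟩ := S08_aux (d := x.1) (e := x.2) (u := u) (v := v) hx1 hu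
      (hxl.trans hq.1.symm) rfl
    simp only [Prod.mk.injEq]
    exact ⟨h2, h5⟩
  · rintro ⟨⟨g, a⟩, ⟨b, w⟩⟩ hp
    simp only [Finset.mem_filter, Finset.mem_product, Nat.mem_divisorsAntidiagonal] at hp
    obtain ⟨⟨⟨h1, -⟩, ⟨h2, -⟩⟩, -⟩ := hp
    simp only [← h1, ← h2, m1, m2, m3, m4]
    ring

end RQ
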