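import Pool.Agent.Lib.MP_0f5a55_nt.RQ.S03

open Complex Finset
open scoped Real ComplexConjugate

namespace RQ

/-- fourfold convolution -/
noncomputable def H4 (g1 g2 g3 g4 : ℕ → ℂ) (n : ℕ) : ℂ :=
  ∑ x ∈ n.divisorsAntidiagonal, (∑ y ∈ x.1.divisorsAntidiagonal, g1 y.1 * g2 y.2) *
    (∑ z ∈ x.2.divisorsAntidiagonal, g3 z.1 * g4 z.2)

/-- convolution of two sequences -/
noncomputable def S09_cv (a b : ℕ → ℂ) (n : ℕ) : ℂ := ∑ x ∈ n.divisorsAntidiagonal, a x.1 * b x.2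

theorem S09_K {f : ℕ → ℂ} {K : ℝ} (hf : CM f K) : 0 ≤ K := by
  have := hf.2.2 0
  simpa using this

/-- sums over the pairs with product at most x -/
theorem S09_pairs {M : Type*} [AddCommMonoid M] (x : ℕ) (F : ℕ × ℕ → M) :
    ∑ n ∈ Icc 1 x, ∑ p ∈ n.divisorsAntidiagonal, F p =
      ∑ p ∈ (Icc 1 x ×ˢ Icc 1 x).filter (fun p => p.1 * p.2 ≤ x), F p := by
  rw [← Finset.sum_fiberwise_of_maps_to (s := (Icc 1 x ×ˢ Icc 1 x).filter (fun p => p.1 * p.2 ≤ x))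
    (t := Icc 1 x) (g := fun p => p.1 * p.2)]
  · refine Finset.sum_congr rfl fun n hn => ?_
    rw [Finset.mem_Icc] at hn
    refine Finset.sum_congr ?_ fun _ _ => rfl
    ext p
    simp only [Nat.mem_divisorsAntidiagonal, Finset.mem_filter, Finset.mem_product, Finset.mem_Icc]
    constructor
    · rintro ⟨h1, h2⟩
      have hp1 : 1 ≤ p.1 := by
        rcases Nat.eq_zero_or_pos p.1 with h | h
        · rw [h, zero_mul] at h1; omega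
        · exact h
      have hp2 : 1 ≤ p.2 := by
        rcases Nat.eq_zero_or_pos p.2 with h | h
        · rw [h, mul_zero] at h1; omega
        · exact h
      have h3 : p.1 ≤ p.1 * p.2 := Nat.le_mul_of_pos_right _ hp2
      have h4 : p.2 ≤ p.1 * p.2 := Nat.le_mul_of_pos_left _ hp1
      refine ⟨⟨⟨⟨hp1, by omega⟩, hp2, by omega⟩, by omega⟩, h1⟩
    · rintro ⟨-, h⟩
      exact ⟨h, by omega⟩
  · intro p hp
    simp only [Finset.mem_filter, Finset.mem_product, Finset.mem_Icc] at hp ⊢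
    exact ⟨Nat.mul_pos hp.1.1.1 hp.1.2.1, hp.2⟩

/-- the hyperbola method -/
theorem S09_hyp (a b : ℕ → ℂ) (x : ℕ) :
    ∑ n ∈ Icc 1 x, S09_cv a b n =
      ∑ m ∈ Icc 1 (Nat.sqrt x), a m * ∑ k ∈ Icc 1 (x / m), b k +
      ∑ k ∈ Icc 1 (Nat.sqrt x), b k * ∑ m ∈ Icc 1 (x / k), a m -
      (∑ m ∈ Icc 1 (Nat.sqrt x), a m) * ∑ k ∈ Icc 1 (Nat.sqrt x), b k := by
  unfold S09_cv
  rw [S09_pairs x (fun p : ℕ × ℕ => a p.1 * b p.2)]
  set s := Nat.sqrt x with hs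
  set P := (Icc 1 x ×ˢ Icc 1 x).filter (fun p : ℕ × ℕ => p.1 * p.2 ≤ x) with hP
  have hsx : s * s ≤ x := Nat.sqrt_le x
  have hsx' : x < (s + 1) * (s + 1) := Nat.lt_succ_sqrt x
  have hsx2 : s ≤ x := Nat.sqrt_le_self x
  have hmem : ∀ p : ℕ × ℕ, p ∈ P ↔ (1 ≤ p.1 ∧ 1 ≤ p.2) ∧ p.1 * p.2 ≤ x := by
    intro p
    rw [hP]
    simp only [Finset.mem_filter, Finset.mem_product, Finset.mem_Icc]
    constructor
    · rintro ⟨⟨⟨h1, _⟩, h2, _⟩, h3⟩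
      exact ⟨⟨h1, h2⟩, h3⟩
    · rintro ⟨⟨h1, h2⟩, h3⟩
      have h4 : p.1 ≤ p.1 * p.2 := Nat.le_mul_of_pos_right _ h2
      have h5 : p.2 ≤ p.1 * p.2 := Nat.le_mul_of_pos_left _ h1
      exact ⟨⟨⟨h1, by omega⟩, h2, by omega⟩, h3⟩
  have e1 : P.filter (fun p => p.1 ≤ s) ∪ P.filter (fun p => p.2 ≤ s) = P := by
    ext p
    simp only [Finset.mem_union, Finset.mem_filter]
    constructor
    · rintro (h | h) <;> exact h.1
    · intro h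
      by_contra hcon
      push Not at hcon
      have h1 := hcon.1 h
      have h2 := hcon.2 h
      have h3 := ((hmem p).1 h).2
      have : (s + 1) * (s + 1) ≤ p.1 * p.2 := Nat.mul_le_mul h1 h2
      omega
  have e2 : P.filter (fun p => p.1 ≤ s) ∩ P.filter (fun p => p.2 ≤ s) = Icc 1 s ×ˢ Icc 1 s := by
    ext p
    simp only [Finset.mem_inter, Finset.mem_filter, hmem, Finset.mem_product, Finset.mem_Icc]
    constructor
    · rintro ⟨⟨⟨⟨h1, h2⟩, _⟩, h3⟩, _, h4⟩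
      exact ⟨⟨h1, h3⟩, h2, h4⟩
    · rintro ⟨⟨h1, h3⟩, h2, h4⟩
      have : p.1 * p.2 ≤ s * s := Nat.mul_le_mul h3 h4
      exact ⟨⟨⟨⟨h1, h2⟩, by omega⟩, h3⟩, ⟨⟨h1, h2⟩, by omega⟩, h4⟩
  have h := Finset.sum_union_inter (s₁ := P.filter (fun p => p.1 ≤ s))
    (s₂ := P.filter (fun p => p.2 ≤ s)) (f := fun p : ℕ × ℕ => a p.1 * b p.2)
  rw [e1, e2, Finset.sum_product] at h
  have h1 : ∑ p ∈ P.filter (fun p => p.1 ≤ s), a p.1 * b p.2 =
      ∑ m ∈ Icc 1 s, a m * ∑ k ∈ Icc 1 (x / m), b k := by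
    rw [Finset.sum_finset_product (P.filter (fun p => p.1 ≤ s)) (Icc 1 s) (fun m => Icc 1 (x / m))]
    · refine Finset.sum_congr rfl fun m _ => ?_
      rw [Finset.mul_sum]
    · intro p
      simp only [Finset.mem_filter, hmem, Finset.mem_Icc]
      constructor
      · rintro ⟨⟨⟨h1, h2⟩, h3⟩, h4⟩
        exact ⟨⟨h1, h4⟩, h2, (Nat.le_div_iff_mul_le h1).2 (by rw [mul_comm]; exact h3)⟩
      · rintro ⟨⟨h1, h4⟩, h2, h3⟩
        exact ⟨⟨⟨h1, h2⟩, by rw [mul_comm]; exact (Nat.le_div_iff_mul_le h1).1 h3⟩, h4⟩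
  have h2 : ∑ p ∈ P.filter (fun p => p.2 ≤ s), a p.1 * b p.2 =
      ∑ k ∈ Icc 1 s, b k * ∑ m ∈ Icc 1 (x / k), a m := by
    rw [Finset.sum_finset_product_right (P.filter (fun p => p.2 ≤ s)) (Icc 1 s) (fun k => Icc 1 (x / k))]
    · refine Finset.sum_congr rfl fun k _ => ?_
      rw [Finset.mul_sum]
      exact Finset.sum_congr rfl fun m _ => mul_comm _ _
    · intro p
      simp only [Finset.mem_filter, hmem, Finset.mem_Icc]
      constructor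
      · rintro ⟨⟨⟨h1, h2⟩, h3⟩, h4⟩
        exact ⟨⟨h2, h4⟩, h1, (Nat.le_div_iff_mul_le h2).2 h3⟩
      · rintro ⟨⟨h2, h4⟩, h1, h3⟩
        exact ⟨⟨⟨h1, h2⟩, (Nat.le_div_iff_mul_le h2).1 h3⟩, h4⟩
  rw [h1, h2] at h
  rw [← h, Finset.sum_mul_sum]
  ring

/-- Abel: tails of the sum of f(n)/n -/
theorem S09_tail {f : ℕ → ℂ} {K : ℝ} (hf : CM f K) {x y : ℕ} (hy : y ≤ x) :
    ‖∑ n ∈ Icc 1 y, f n / n - ∑ n ∈ Icc 1 x, f n / n‖ ≤ 2 * K / ((y : ℝ) + 1) := by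
  have hK := S09_K hf
  have hS := hf.2.2
  have key : ∀ x : ℕ, y ≤ x → ‖(∑ n ∈ Icc 1 x, f n / n - ∑ n ∈ Icc 1 y, f n / n) -
      ((∑ n ∈ Icc 1 x, f n) / ((x : ℂ) + 1) - (∑ n ∈ Icc 1 y, f n) / ((y : ℂ) + 1))‖ ≤
      K * (1 / ((y : ℝ) + 1) - 1 / ((x : ℝ) + 1)) := by
    intro x hx
    induction x, hx using Nat.le_induction with
    | base => simp
    | succ x hx ih =>
      have hx1 : (0 : ℝ) < (x : ℝ) + 1 := by positivity
      have hx2 : (0 : ℝ) < (x : ℝ) + 2 := by positivity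
      have hx1' : ((x : ℂ) + 1) ≠ 0 := by exact_mod_cast hx1.ne'
      have hx2' : ((x : ℂ) + 2) ≠ 0 := by exact_mod_cast hx2.ne'
      have e : (∑ n ∈ Icc 1 (x + 1), f n / n - ∑ n ∈ Icc 1 y, f n / n) -
          ((∑ n ∈ Icc 1 (x + 1), f n) / (((x + 1 : ℕ) : ℂ) + 1) - (∑ n ∈ Icc 1 y, f n) / ((y : ℂ) + 1)) =
          ((∑ n ∈ Icc 1 x, f n / n - ∑ n ∈ Icc 1 y, f n / n) -
          ((∑ n ∈ Icc 1 x, f n) / ((x : ℂ) + 1) - (∑ n ∈ Icc 1 y, f n) / ((y : ℂ) + 1))) +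
          (∑ n ∈ Icc 1 (x + 1), f n) * (1 / ((x : ℂ) + 1) - 1 / ((x : ℂ) + 2)) := by
        rw [Finset.sum_Icc_succ_top (by omega), Finset.sum_Icc_succ_top (by omega)]
        push_cast
        rw [show ((x : ℂ) + 1 + 1) = (x : ℂ) + 2 by ring]
        field_simp
        ring
      rw [e]
      have e2 : ‖(1 / ((x : ℂ) + 1) - 1 / ((x : ℂ) + 2))‖ = 1 / ((x : ℝ) + 1) - 1 / ((x : ℝ) + 2) := by
        have h1 : (1 / ((x : ℂ) + 1) - 1 / ((x : ℂ) + 2)) =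
            ((1 / ((x : ℝ) + 1) - 1 / ((x : ℝ) + 2) : ℝ) : ℂ) := by
          push_cast
          ring
        rw [h1, Complex.norm_real, Real.norm_eq_abs, abs_of_nonneg]
        rw [sub_nonneg]
        exact one_div_le_one_div_of_le hx1 (by linarith)
      have e3 : ‖(∑ n ∈ Icc 1 (x + 1), f n) * (1 / ((x : ℂ) + 1) - 1 / ((x : ℂ) + 2))‖ ≤
          K * (1 / ((x : ℝ) + 1) - 1 / ((x : ℝ) + 2)) := by
        rw [norm_mul, e2]
        refine mul_le_mul_of_nonneg_right (hS (x + 1)) ?_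
        rw [sub_nonneg]
        exact one_div_le_one_div_of_le hx1 (by linarith)
      refine (norm_add_le _ _).trans ((add_le_add ih e3).trans (le_of_eq ?_))
      push_cast
      rw [show ((x : ℝ) + 1 + 1) = (x : ℝ) + 2 by ring]
      ring
  have hb : ∀ z : ℕ, ‖(∑ n ∈ Icc 1 z, f n) / ((z : ℂ) + 1)‖ ≤ K * (1 / ((z : ℝ) + 1)) := by
    intro z
    have hz : (0 : ℝ) < (z : ℝ) + 1 := by positivity
    rw [norm_div, show ‖((z : ℂ) + 1)‖ = (z : ℝ) + 1 by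
      rw [show ((z : ℂ) + 1) = (((z : ℝ) + 1 : ℝ) : ℂ) by push_cast; ring, Complex.norm_real,
        Real.norm_eq_abs, abs_of_pos hz]]
    rw [div_eq_mul_one_div]
    exact mul_le_mul_of_nonneg_right (hS z) (by positivity)
  have h1 := key x hy
  have h2 := hb x
  have h3 := hb y
  rw [norm_sub_rev]
  have e : ∑ n ∈ Icc 1 x, f n / n - ∑ n ∈ Icc 1 y, f n / n =
      ((∑ n ∈ Icc 1 x, f n / n - ∑ n ∈ Icc 1 y, f n / n) -
      ((∑ n ∈ Icc 1 x, f n) / ((x : ℂ) + 1) - (∑ n ∈ Icc 1 y, f n) / ((y : ℂ) + 1))) +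
      ((∑ n ∈ Icc 1 x, f n) / ((x : ℂ) + 1) - (∑ n ∈ Icc 1 y, f n) / ((y : ℂ) + 1)) := by ring
  rw [e]
  refine (norm_add_le _ _).trans ?_
  have h4 := norm_sub_le ((∑ n ∈ Icc 1 x, f n) / ((x : ℂ) + 1)) ((∑ n ∈ Icc 1 y, f n) / ((y : ℂ) + 1))
  have h5 : 2 * K / ((y : ℝ) + 1) = K * (1 / ((y : ℝ) + 1) - 1 / ((x : ℝ) + 1)) +
      (K * (1 / ((x : ℝ) + 1)) + K * (1 / ((y : ℝ) + 1))) := by ring
  rw [h5]
  exact add_le_add h1 (h4.trans (add_le_add h2 h3))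

theorem S09_term {f : ℕ → ℂ} {K : ℝ} (hf : CM f K) (n : ℕ) : ‖f n / n‖ ≤ 1 / n := by
  rw [norm_div, Complex.norm_natCast]
  exact div_le_div_of_nonneg_right (hf.2.1 n) (Nat.cast_nonneg n)

/-- one side of the hyperbola -/
theorem S09_side {f g : ℕ → ℂ} {K : ℝ} (hf : CM f K) (hg : CM g K) {x y : ℕ} (hy1 : 1 ≤ y)
    (hyx : y ≤ x) :
    ‖∑ m ∈ Icc 1 (Nat.sqrt y), (f m / m) * (∑ k ∈ Icc 1 (y / m), g k / k - ∑ k ∈ Icc 1 x, g k / k)‖ ≤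
      2 * K / √y := by
  have hK := S09_K hf
  have hy0 : (0 : ℝ) < y := by exact_mod_cast hy1
  have h1 : ∀ m ∈ Icc 1 (Nat.sqrt y), ‖(f m / m) * (∑ k ∈ Icc 1 (y / m), g k / k -
      ∑ k ∈ Icc 1 x, g k / k)‖ ≤ 2 * K / y := by
    intro m hm
    rw [Finset.mem_Icc] at hm
    have hm0 : (0 : ℝ) < m := by exact_mod_cast hm.1
    have h2 := S09_tail hg (show y / m ≤ x from (Nat.div_le_self y m).trans hyx)
    rw [norm_mul]
    have h3 : (y : ℝ) ≤ (((y / m : ℕ) : ℝ) + 1) * m := by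
      have : y < (y / m + 1) * m := by
        have := Nat.lt_mul_div_succ y hm.1
        rw [mul_comm]
        exact this
      exact_mod_cast this.le
    have hp : (0 : ℝ) < ((y / m : ℕ) : ℝ) + 1 := by positivity
    calc ‖f m / m‖ * ‖∑ k ∈ Icc 1 (y / m), g k / k - ∑ k ∈ Icc 1 x, g k / k‖
        ≤ 1 / m * (2 * K / (((y / m : ℕ) : ℝ) + 1)) :=
          mul_le_mul (S09_term hf m) h2 (norm_nonneg _) (by positivity)
      _ = 2 * K / ((((y / m : ℕ) : ℝ) + 1) * m) := by field_simp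
      _ ≤ 2 * K / y := div_le_div_of_nonneg_left (by positivity) hy0 h3
  refine (norm_sum_le_of_le _ h1).trans ?_
  rw [Finset.sum_const, Nat.card_Icc, nsmul_eq_mul, Nat.add_sub_cancel]
  have h4 : ((Nat.sqrt y : ℕ) : ℝ) ≤ √y := Real.nat_sqrt_le_real_sqrt
  have h5 : (0 : ℝ) < √y := Real.sqrt_pos.2 hy0
  have h6 : √(y : ℝ) * √(y : ℝ) = y := Real.mul_self_sqrt hy0.le
  calc ((Nat.sqrt y : ℕ) : ℝ) * (2 * K / y) ≤ √y * (2 * K / y) :=
        mul_le_mul_of_nonneg_right h4 (by positivity)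
    _ = 2 * K / √y := by
        rw [eq_div_iff h5.ne']
        calc √(y : ℝ) * (2 * K / y) * √(y : ℝ) = (√(y : ℝ) * √(y : ℝ)) * (2 * K / y) := by ring
          _ = y * (2 * K / y) := by rw [h6]
          _ = 2 * K := mul_div_cancel₀ _ hy0.ne'

/-- the twofold convolution, with a rate -/
theorem S09_two {f g : ℕ → ℂ} {K : ℝ} (hf : CM f K) (hg : CM g K) {x y : ℕ} (hy1 : 1 ≤ y)
    (hyx : y ≤ x) :
    ‖∑ n ∈ Icc 1 y, S09_cv (fun m => f m / m) (fun m => g m / m) n -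
      (∑ n ∈ Icc 1 x, f n / n) * ∑ n ∈ Icc 1 x, g n / n‖ ≤ (4 * K + 4 * K ^ 2) / √y := by
  have hK := S09_K hf
  have hy0 : (0 : ℝ) < y := by exact_mod_cast hy1
  have h5 : (0 : ℝ) < √y := Real.sqrt_pos.2 hy0
  have h5' : (1 : ℝ) ≤ √y := Real.one_le_sqrt.2 (by exact_mod_cast hy1)
  rw [S09_hyp]
  set s := Nat.sqrt y with hs
  have hsx : s ≤ x := (Nat.sqrt_le_self y).trans hyx
  have e : ∑ m ∈ Icc 1 s, f m / m * ∑ k ∈ Icc 1 (y / m), g k / k +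
      ∑ k ∈ Icc 1 s, g k / k * ∑ m ∈ Icc 1 (y / k), f m / m -
      (∑ m ∈ Icc 1 s, f m / m) * ∑ k ∈ Icc 1 s, g k / k -
      (∑ n ∈ Icc 1 x, f n / n) * ∑ n ∈ Icc 1 x, g n / n =
      ∑ m ∈ Icc 1 s, (f m / m) * (∑ k ∈ Icc 1 (y / m), g k / k - ∑ k ∈ Icc 1 x, g k / k) +
      ∑ m ∈ Icc 1 s, (g m / m) * (∑ k ∈ Icc 1 (y / m), f k / k - ∑ k ∈ Icc 1 x, f k / k) -
      (∑ m ∈ Icc 1 s, f m / m - ∑ m ∈ Icc 1 x, f m / m) *
        (∑ m ∈ Icc 1 s, g m / m - ∑ m ∈ Icc 1 x, g m / m) := by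
    simp only [mul_sub, Finset.sum_sub_distrib, ← Finset.sum_mul]
    ring
  rw [e]
  have h1 := S09_side hf hg hy1 hyx
  have h2 := S09_side hg hf hy1 hyx
  have h3 := S09_tail hf hsx
  have h4 := S09_tail hg hsx
  have h6 : √(y : ℝ) ≤ (s : ℝ) + 1 := Real.real_sqrt_lt_nat_sqrt_succ.le
  have h7 : 2 * K / ((s : ℝ) + 1) ≤ 2 * K / √y := div_le_div_of_nonneg_left (by positivity) h5 h6
  have h8 : ‖(∑ m ∈ Icc 1 s, f m / m - ∑ m ∈ Icc 1 x, f m / m) *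
      (∑ m ∈ Icc 1 s, g m / m - ∑ m ∈ Icc 1 x, g m / m)‖ ≤ 4 * K ^ 2 / √y := by
    rw [norm_mul]
    calc _ ≤ (2 * K / √y) * (2 * K / √y) :=
          mul_le_mul (h3.trans h7) (h4.trans h7) (norm_nonneg _) (by positivity)
      _ = 4 * K ^ 2 / (√y * √y) := by rw [div_mul_div_comm]; ring
      _ ≤ 4 * K ^ 2 / √y := by
          apply div_le_div_of_nonneg_left (by positivity) h5
          nlinarith
  refine (norm_sub_le _ _).trans ?_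
  have h9 := norm_add_le (∑ m ∈ Icc 1 s, (f m / m) * (∑ k ∈ Icc 1 (y / m), g k / k -
    ∑ k ∈ Icc 1 x, g k / k)) (∑ m ∈ Icc 1 s, (g m / m) * (∑ k ∈ Icc 1 (y / m), f k / k -
    ∑ k ∈ Icc 1 x, f k / k))
  have h10 : (4 * K + 4 * K ^ 2) / √y = 2 * K / √y + 2 * K / √y + 4 * K ^ 2 / √y := by ring
  rw [h10]
  exact add_le_add (h9.trans (add_le_add h1 h2)) h8

theorem S09_sqrt_sum (s : ℕ) : ∑ d ∈ Icc 1 s, 1 / √(d : ℝ) ≤ 2 * √s := by
  induction s with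
  | zero => simp
  | succ s ih =>
    rw [Finset.sum_Icc_succ_top (by omega)]
    push_cast
    have h0 : (0 : ℝ) ≤ s := Nat.cast_nonneg s
    have h1 : 0 < √((s : ℝ) + 1) := Real.sqrt_pos.2 (by linarith)
    have h2 : 0 ≤ √(s : ℝ) := Real.sqrt_nonneg _
    have h3 : √((s : ℝ) + 1) * √((s : ℝ) + 1) = s + 1 := Real.mul_self_sqrt (by linarith)
    have h4 : √(s : ℝ) * √(s : ℝ) = s := Real.mul_self_sqrt h0
    have h5 : 1 / √((s : ℝ) + 1) ≤ 2 * √((s : ℝ) + 1) - 2 * √(s : ℝ) := by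
      rw [div_le_iff₀ h1]
      nlinarith [sq_nonneg (√((s : ℝ) + 1) - √(s : ℝ))]
    linarith

/-- the sum of d(m)/√m up to s -/
theorem S09_dsum {f g : ℕ → ℂ} {K : ℝ} (hf : CM f K) (hg : CM g K) (s : ℕ) :
    ∑ m ∈ Icc 1 s, ‖S09_cv (fun m => f m / m) (fun m => g m / m) m‖ * √(m : ℝ) ≤ 4 * s := by
  have h1 : ∀ m ∈ Icc 1 s, ‖S09_cv (fun m => f m / m) (fun m => g m / m) m‖ * √(m : ℝ) ≤
      ∑ p ∈ m.divisorsAntidiagonal, (1 / √(p.1 : ℝ)) * (1 / √(p.2 : ℝ)) := by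
    intro m hm
    rw [Finset.mem_Icc] at hm
    calc ‖S09_cv (fun m => f m / m) (fun m => g m / m) m‖ * √(m : ℝ)
        ≤ (∑ p ∈ m.divisorsAntidiagonal, (1 / (p.1 : ℝ)) * (1 / (p.2 : ℝ))) * √(m : ℝ) := by
          refine mul_le_mul_of_nonneg_right ?_ (Real.sqrt_nonneg _)
          refine norm_sum_le_of_le _ fun p _ => ?_
          rw [norm_mul]
          exact mul_le_mul (S09_term hf _) (S09_term hg _) (norm_nonneg _) (by positivity)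
      _ = _ := by
          rw [Finset.sum_mul]
          refine Finset.sum_congr rfl fun p hp => ?_
          rw [Nat.mem_divisorsAntidiagonal] at hp
          rw [← hp.1]
          have hp1 : p.1 ≠ 0 := by intro h; rw [h, zero_mul] at hp; omega
          have hp2 : p.2 ≠ 0 := by intro h; rw [h, mul_zero] at hp; omega
          have q1 : (0 : ℝ) < p.1 := by positivity
          have q2 : (0 : ℝ) < p.2 := by positivity
          have r1 : 0 < √(p.1 : ℝ) := Real.sqrt_pos.2 q1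
          have r2 : 0 < √(p.2 : ℝ) := Real.sqrt_pos.2 q2
          have t1 : √(p.1 : ℝ) * √(p.1 : ℝ) = p.1 := Real.mul_self_sqrt q1.le
          have t2 : √(p.2 : ℝ) * √(p.2 : ℝ) = p.2 := Real.mul_self_sqrt q2.le
          push_cast
          rw [Real.sqrt_mul q1.le]
          have u1 : 1 / (p.1 : ℝ) = 1 / (√(p.1 : ℝ) * √(p.1 : ℝ)) := by rw [t1]
          have u2 : 1 / (p.2 : ℝ) = 1 / (√(p.2 : ℝ) * √(p.2 : ℝ)) := by rw [t2]
          rw [u1, u2]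
          field_simp
  refine (Finset.sum_le_sum h1).trans ?_
  rw [S09_pairs s (fun p : ℕ × ℕ => (1 / √(p.1 : ℝ)) * (1 / √(p.2 : ℝ)))]
  calc ∑ p ∈ (Icc 1 s ×ˢ Icc 1 s).filter (fun p => p.1 * p.2 ≤ s), (1 / √(p.1 : ℝ)) * (1 / √(p.2 : ℝ))
      ≤ ∑ p ∈ Icc 1 s ×ˢ Icc 1 s, (1 / √(p.1 : ℝ)) * (1 / √(p.2 : ℝ)) :=
        Finset.sum_le_sum_of_subset_of_nonneg (Finset.filter_subset _ _) fun p _ _ => by positivity
    _ = (∑ d ∈ Icc 1 s, 1 / √(d : ℝ)) * ∑ d ∈ Icc 1 s, 1 / √(d : ℝ) := by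
        rw [Finset.sum_product, Finset.sum_mul_sum]
    _ ≤ (2 * √s) * (2 * √s) :=
        mul_le_mul (S09_sqrt_sum s) (S09_sqrt_sum s)
          (Finset.sum_nonneg fun _ _ => by positivity) (by positivity)
    _ = 4 * s := by
        have : √(s : ℝ) * √(s : ℝ) = s := Real.mul_self_sqrt (Nat.cast_nonneg s)
        linear_combination 4 * this

/-- second hyperbola, one side -/
theorem S09_side2 {f g : ℕ → ℂ} {K M : ℝ} (hf : CM f K) (hg : CM g K) (hM : 0 ≤ M) {x : ℕ}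
    (hx : 1 ≤ x) {c : ℕ → ℂ} {L : ℂ}
    (hc : ∀ y : ℕ, 1 ≤ y → y ≤ x → ‖∑ n ∈ Icc 1 y, c n - L‖ ≤ M / √y) :
    ‖∑ m ∈ Icc 1 (Nat.sqrt x), S09_cv (fun m => f m / m) (fun m => g m / m) m *
      (∑ k ∈ Icc 1 (x / m), c k - L)‖ ≤ 8 * M := by
  have hx0 : (0 : ℝ) < x := by exact_mod_cast hx
  have hsx : 0 < √(x : ℝ) := Real.sqrt_pos.2 hx0
  have h1 : ∀ m ∈ Icc 1 (Nat.sqrt x), ‖S09_cv (fun m => f m / m) (fun m => g m / m) m *
      (∑ k ∈ Icc 1 (x / m), c k - L)‖ ≤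
      (2 * M / √x) * (‖S09_cv (fun m => f m / m) (fun m => g m / m) m‖ * √(m : ℝ)) := by
    intro m hm
    rw [Finset.mem_Icc] at hm
    have hmx : m ≤ x := hm.2.trans (Nat.sqrt_le_self x)
    have hm0 : (0 : ℝ) < m := by exact_mod_cast hm.1
    have hq : 1 ≤ x / m := (Nat.le_div_iff_mul_le hm.1).2 (by omega)
    have h2 := hc (x / m) hq (Nat.div_le_self x m)
    have hq0 : (0 : ℝ) < ((x / m : ℕ) : ℝ) := by exact_mod_cast hq
    have h3 : (x : ℝ) ≤ (2 * √((x / m : ℕ) : ℝ) * √(m : ℝ)) ^ 2 := by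
      rw [mul_pow, mul_pow, Real.sq_sqrt hq0.le, Real.sq_sqrt hm0.le]
      have h4 : x < m * (x / m + 1) := Nat.lt_mul_div_succ x hm.1
      have h5 : x ≤ 2 ^ 2 * (x / m) * m := by nlinarith
      exact_mod_cast h5
    have h4 : √(x : ℝ) ≤ 2 * √((x / m : ℕ) : ℝ) * √(m : ℝ) := by
      rw [Real.sqrt_le_left (by positivity)]
      exact h3
    have h5 : M / √((x / m : ℕ) : ℝ) ≤ 2 * M / √x * √(m : ℝ) := by
      have hsq : 0 < √((x / m : ℕ) : ℝ) := Real.sqrt_pos.2 hq0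
      rw [div_le_iff₀ hsq, div_mul_eq_mul_div, div_mul_eq_mul_div, le_div_iff₀ hsx]
      calc M * √(x : ℝ) ≤ M * (2 * √((x / m : ℕ) : ℝ) * √(m : ℝ)) := mul_le_mul_of_nonneg_left h4 hM
        _ = 2 * M * √(m : ℝ) * √((x / m : ℕ) : ℝ) := by ring
    rw [norm_mul]
    calc _ ≤ ‖S09_cv (fun m => f m / m) (fun m => g m / m) m‖ * (2 * M / √x * √(m : ℝ)) :=
          mul_le_mul_of_nonneg_left (h2.trans h5) (norm_nonneg _)
      _ = _ := by ring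
  refine (norm_sum_le_of_le _ h1).trans ?_
  rw [← Finset.mul_sum]
  have h2 := S09_dsum hf hg (Nat.sqrt x)
  have h4 : ((Nat.sqrt x : ℕ) : ℝ) ≤ √x := Real.nat_sqrt_le_real_sqrt
  calc _ ≤ (2 * M / √x) * (4 * (Nat.sqrt x : ℕ)) := mul_le_mul_of_nonneg_left h2 (by positivity)
    _ ≤ (2 * M / √x) * (4 * √x) := by
        apply mul_le_mul_of_nonneg_left _ (by positivity)
        linarith
    _ = 8 * M := by field_simp; ring

theorem S09_div_cv (a b : ℕ → ℂ) {n : ℕ} (hn : 1 ≤ n) :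
    (∑ p ∈ n.divisorsAntidiagonal, a p.1 * b p.2) / (n : ℂ) =
      S09_cv (fun m => a m / m) (fun m => b m / m) n := by
  unfold S09_cv
  rw [Finset.sum_div]
  refine Finset.sum_congr rfl fun p hp => ?_
  rw [Nat.mem_divisorsAntidiagonal] at hp
  rw [← hp.1]
  push_cast
  rw [div_mul_div_comm]

/-- Row S09. Partial sums of h(n)/n are bounded. -/
theorem four_conv (K : ℝ) : ∃ C : ℝ, 0 < C ∧ ∀ (g1 g2 g3 g4 : ℕ → ℂ), CM g1 K → CM g2 K → CM g3 K → CM g4 K →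
    ∀ x : ℕ, ‖∑ n ∈ Icc 1 x, H4 g1 g2 g3 g4 n / n‖ ≤ C := by
  set M : ℝ := 4 * |K| + 4 * K ^ 2 with hM
  have hM0 : 0 ≤ M := by positivity
  refine ⟨K ^ 2 * (K ^ 2 + M) + 8 * M + (K ^ 2 * (K ^ 2 + M) + 8 * M) + (K ^ 2 + M) * (K ^ 2 + M) + 1,
    by positivity, ?_⟩
  intro g1 g2 g3 g4 h1 h2 h3 h4 x
  have hK := S09_K h1
  rcases Nat.eq_zero_or_pos x with hx | hx
  · rw [hx]
    simp only [Finset.Icc_eq_empty_of_lt Nat.zero_lt_one, Finset.sum_empty, norm_zero]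
    positivity
  have hMK : M = 4 * K + 4 * K ^ 2 := by rw [hM, abs_of_nonneg hK]
  set c := S09_cv (fun m => g1 m / m) (fun m => g2 m / m) with hc
  set d := S09_cv (fun m => g3 m / m) (fun m => g4 m / m) with hd
  have e1 : ∑ n ∈ Icc 1 x, H4 g1 g2 g3 g4 n / n = ∑ n ∈ Icc 1 x, S09_cv c d n := by
    refine Finset.sum_congr rfl fun n hn => ?_
    rw [Finset.mem_Icc] at hn
    unfold H4
    rw [S09_div_cv (fun m => ∑ y ∈ m.divisorsAntidiagonal, g1 y.1 * g2 y.2)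
      (fun m => ∑ y ∈ m.divisorsAntidiagonal, g3 y.1 * g4 y.2) hn.1]
    unfold S09_cv
    refine Finset.sum_congr rfl fun p hp => ?_
    rw [Nat.mem_divisorsAntidiagonal] at hp
    have hp1 : 1 ≤ p.1 := by
      rcases Nat.eq_zero_or_pos p.1 with h | h
      · rw [h, zero_mul] at hp; omega
      · exact h
    have hp2 : 1 ≤ p.2 := by
      rcases Nat.eq_zero_or_pos p.2 with h | h
      · rw [h, mul_zero] at hp; omega
      · exact h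
    show (∑ y ∈ p.1.divisorsAntidiagonal, g1 y.1 * g2 y.2) / (p.1 : ℂ) *
      ((∑ y ∈ p.2.divisorsAntidiagonal, g3 y.1 * g4 y.2) / (p.2 : ℂ)) = _
    rw [S09_div_cv g1 g2 hp1, S09_div_cv g3 g4 hp2]
  rw [e1, S09_hyp]
  set s := Nat.sqrt x with hs
  have hs1 : 1 ≤ s := Nat.sqrt_pos.2 hx
  have hsx : s ≤ x := Nat.sqrt_le_self x
  set L := (∑ n ∈ Icc 1 x, g1 n / n) * ∑ n ∈ Icc 1 x, g2 n / n with hL
  set L' := (∑ n ∈ Icc 1 x, g3 n / n) * ∑ n ∈ Icc 1 x, g4 n / n with hL'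
  have b1 : ∀ y : ℕ, 1 ≤ y → y ≤ x → ‖∑ n ∈ Icc 1 y, c n - L‖ ≤ M / √y := by
    intro y hy hyx
    rw [hMK]
    exact S09_two h1 h2 hy hyx
  have b2 : ∀ y : ℕ, 1 ≤ y → y ≤ x → ‖∑ n ∈ Icc 1 y, d n - L'‖ ≤ M / √y := by
    intro y hy hyx
    rw [hMK]
    exact S09_two h3 h4 hy hyx
  have nL : ‖L‖ ≤ K ^ 2 := by
    rw [hL, norm_mul, sq]
    exact mul_le_mul (CM_div h1 x) (CM_div h2 x) (norm_nonneg _) hK
  have nL' : ‖L'‖ ≤ K ^ 2 := by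
    rw [hL', norm_mul, sq]
    exact mul_le_mul (CM_div h3 x) (CM_div h4 x) (norm_nonneg _) hK
  have hss : (1 : ℝ) ≤ √(s : ℝ) := Real.one_le_sqrt.2 (by exact_mod_cast hs1)
  have hMs : M / √(s : ℝ) ≤ M := div_le_self hM0 hss
  have nC : ‖∑ n ∈ Icc 1 s, c n‖ ≤ K ^ 2 + M := by
    have := norm_add_le L (∑ n ∈ Icc 1 s, c n - L)
    rw [add_sub_cancel] at this
    exact this.trans (add_le_add nL ((b1 s hs1 hsx).trans hMs))
  have nD : ‖∑ n ∈ Icc 1 s, d n‖ ≤ K ^ 2 + M := by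
    have := norm_add_le L' (∑ n ∈ Icc 1 s, d n - L')
    rw [add_sub_cancel] at this
    exact this.trans (add_le_add nL' ((b2 s hs1 hsx).trans hMs))
  have t1 : ‖∑ m ∈ Icc 1 s, c m * ∑ k ∈ Icc 1 (x / m), d k‖ ≤ K ^ 2 * (K ^ 2 + M) + 8 * M := by
    have e : ∑ m ∈ Icc 1 s, c m * ∑ k ∈ Icc 1 (x / m), d k =
        L' * ∑ m ∈ Icc 1 s, c m + ∑ m ∈ Icc 1 s, c m * (∑ k ∈ Icc 1 (x / m), d k - L') := by
      simp only [mul_sub, Finset.sum_sub_distrib, ← Finset.sum_mul]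
      ring
    rw [e]
    refine (norm_add_le _ _).trans (add_le_add ?_ (S09_side2 h1 h2 hM0 hx b2))
    rw [norm_mul]
    exact mul_le_mul nL' nC (norm_nonneg _) (by positivity)
  have t2 : ‖∑ m ∈ Icc 1 s, d m * ∑ k ∈ Icc 1 (x / m), c k‖ ≤ K ^ 2 * (K ^ 2 + M) + 8 * M := by
    have e : ∑ m ∈ Icc 1 s, d m * ∑ k ∈ Icc 1 (x / m), c k =
        L * ∑ m ∈ Icc 1 s, d m + ∑ m ∈ Icc 1 s, d m * (∑ k ∈ Icc 1 (x / m), c k - L) := by
      simp only [mul_sub, Finset.sum_sub_distrib, ← Finset.sum_mul]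
      ring
    rw [e]
    refine (norm_add_le _ _).trans (add_le_add ?_ (S09_side2 h3 h4 hM0 hx b1))
    rw [norm_mul]
    exact mul_le_mul nL nD (norm_nonneg _) (by positivity)
  have t3 : ‖(∑ m ∈ Icc 1 s, c m) * ∑ k ∈ Icc 1 s, d k‖ ≤ (K ^ 2 + M) * (K ^ 2 + M) := by
    rw [norm_mul]
    exact mul_le_mul nC nD (norm_nonneg _) (by positivity)
  have u1 := norm_sub_le (∑ m ∈ Icc 1 s, c m * ∑ k ∈ Icc 1 (x / m), d k +
    ∑ m ∈ Icc 1 s, d m * ∑ k ∈ Icc 1 (x / m), c k) ((∑ m ∈ Icc 1 s, c m) * ∑ k ∈ Icc 1 s, d k)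
  have u2 := norm_add_le (∑ m ∈ Icc 1 s, c m * ∑ k ∈ Icc 1 (x / m), d k)
    (∑ m ∈ Icc 1 s, d m * ∑ k ∈ Icc 1 (x / m), c k)
  linarith

end RQ
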