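import Pool.Agent.Lib.MP_0f5a55_nt.RQ.S01
import Pool.Agent.Lib.MP_0f5a55_nt.RQ.S02
import Pool.Agent.Lib.MP_0f5a55_nt.RQ.S08
import Pool.Agent.Lib.MP_0f5a55_nt.RQ.S09

open Complex Finset
open scoped Real ComplexConjugate

namespace RQ

open OO

/-- f as an arithmetic function -/
private noncomputable def S10_A (f : ℕ → ℂ) : ArithmeticFunction ℂ := ⟨fun n => if n = 0 then 0 else f n, by simp⟩

private noncomputable def S10_D (j : ℕ) : ArithmeticFunction ℂ :=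
  ⟨fun n => if n = 0 then 0 else if n = j then 1 else 0, by simp⟩

private theorem S10_A_apply (f : ℕ → ℂ) {n : ℕ} (hn : n ≠ 0) : S10_A f n = f n := by
  change (if n = 0 then (0 : ℂ) else f n) = f n
  rw [if_neg hn]

private theorem S10_D_apply (j : ℕ) {n : ℕ} (hn : n ≠ 0) : S10_D j n = if n = j then 1 else 0 := by
  change (if n = 0 then (0 : ℂ) else if n = j then 1 else 0) = _
  rw [if_neg hn]

private theorem S10_D_mul {j : ℕ} (hj : 0 < j) (F : ArithmeticFunction ℂ) (n : ℕ) :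
    (S10_D j * F) n = if j ∣ n then F (n / j) else 0 := by
  rcases Nat.eq_zero_or_pos n with rfl | hn
  · simp
  rw [ArithmeticFunction.mul_apply]
  split_ifs with h
  · rw [Finset.sum_eq_single (j, n / j)]
    · rw [S10_D_apply j hj.ne', if_pos rfl, one_mul]
    · rintro ⟨a, b⟩ hab hne
      obtain ⟨h1, h2⟩ := Nat.mem_divisorsAntidiagonal.1 hab
      have ha0 : a ≠ 0 := by
        rintro rfl
        simp at h1
        omega
      by_cases ha : a = j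
      · exfalso
        apply hne
        subst ha
        have : b = n / a := by
          rw [← h1]
          exact (Nat.mul_div_cancel_left b hj).symm
        rw [this]
      · change S10_D j a * F b = 0
        rw [S10_D_apply j ha0, if_neg ha, zero_mul]
    · intro h2
      exfalso
      apply h2
      rw [Nat.mem_divisorsAntidiagonal]
      exact ⟨Nat.mul_div_cancel' h, hn.ne'⟩
  · refine Finset.sum_eq_zero ?_
    rintro ⟨a, b⟩ hab
    obtain ⟨h1, h2⟩ := Nat.mem_divisorsAntidiagonal.1 hab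
    have ha0 : a ≠ 0 := by
      rintro rfl
      simp at h1
      omega
    have ha : a ≠ j := by
      rintro rfl
      exact h ⟨b, h1.symm⟩
    change S10_D j a * F b = 0
    rw [S10_D_apply j ha0, if_neg ha, zero_mul]

private theorem S10_DD {j : ℕ} (hj : 0 < j) : S10_D j * S10_D j = S10_D (j * j) := by
  ext n
  rw [S10_D_mul hj]
  rcases Nat.eq_zero_or_pos n with rfl | hn
  · simp
  rw [S10_D_apply _ hn.ne']
  by_cases h : j ∣ n
  · obtain ⟨m, rfl⟩ := h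
    have hm : m ≠ 0 := by
      rintro rfl
      simp at hn
    rw [if_pos (Nat.dvd_mul_right j m), Nat.mul_div_cancel_left m hj, S10_D_apply _ hm]
    by_cases e : m = j
    · rw [if_pos e, if_pos (by rw [e])]
    · rw [if_neg e, if_neg (fun h => e (Nat.eq_of_mul_eq_mul_left hj h))]
  · rw [if_neg h, if_neg]
    rintro rfl
    exact h (Nat.dvd_mul_right j j)

/-- g restricted to the multiples of j -/
private theorem S10_restrict {g : ℕ → ℂ} (hg : ∀ m n, g (m * n) = g m * g n) {j : ℕ} (hj : 0 < j) :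
    S10_A (fun n => if j ∣ n then g n else 0) = g j • (S10_D j * S10_A g) := by
  ext n
  rcases Nat.eq_zero_or_pos n with rfl | hn
  · simp
  rw [S10_A_apply _ hn.ne']
  change _ = g j * (S10_D j * S10_A g) n
  rw [S10_D_mul hj]
  by_cases h : j ∣ n
  · obtain ⟨m, rfl⟩ := h
    have hm : m ≠ 0 := by
      rintro rfl
      simp at hn
    rw [if_pos (Nat.dvd_mul_right j m), if_pos (Nat.dvd_mul_right j m), Nat.mul_div_cancel_left m hj,
      S10_A_apply _ hm, hg]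
  · rw [if_neg h, if_neg h, mul_zero]

private theorem S10_conv (f g : ℕ → ℂ) (n : ℕ) :
    (S10_A f * S10_A g) n = ∑ y ∈ n.divisorsAntidiagonal, f y.1 * g y.2 := by
  rw [ArithmeticFunction.mul_apply]
  refine Finset.sum_congr rfl ?_
  rintro ⟨a, b⟩ hab
  obtain ⟨h1, h2⟩ := Nat.mem_divisorsAntidiagonal.1 hab
  have ha : a ≠ 0 := by
    rintro rfl
    simp at h1
    exact h2 h1.symm
  have hb : b ≠ 0 := by
    rintro rfl
    simp at h1
    exact h2 h1.symm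
  change S10_A f a * S10_A g b = _
  rw [S10_A_apply _ ha, S10_A_apply _ hb]

private theorem S10_H4 (g1 g2 g3 g4 : ℕ → ℂ) (n : ℕ) :
    ((S10_A g1 * S10_A g2) * (S10_A g3 * S10_A g4)) n = H4 g1 g2 g3 g4 n := by
  rw [ArithmeticFunction.mul_apply]
  unfold H4
  refine Finset.sum_congr rfl ?_
  rintro ⟨a, b⟩ hab
  change (S10_A g1 * S10_A g2) a * (S10_A g3 * S10_A g4) b = _
  rw [S10_conv, S10_conv]

/-- the part of the fourfold sum with j dividing y.2 and z.1 -/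
private noncomputable def S10_T (g1 g2 g3 g4 : ℕ → ℂ) (j b : ℕ) : ℂ :=
  ∑ x ∈ b.divisorsAntidiagonal, ∑ y ∈ x.1.divisorsAntidiagonal, ∑ z ∈ x.2.divisorsAntidiagonal,
    if j ∣ y.2 ∧ j ∣ z.1 then g1 y.1 * g2 y.2 * (g3 z.1 * g4 z.2) else 0

private theorem S10_T_eq {g1 g2 g3 g4 : ℕ → ℂ} (h2 : ∀ m n, g2 (m * n) = g2 m * g2 n)
    (h3 : ∀ m n, g3 (m * n) = g3 m * g3 n) {j : ℕ} (hj : 0 < j) (b : ℕ) :
    S10_T g1 g2 g3 g4 j b = g2 j * g3 j * if j * j ∣ b then H4 g1 g2 g3 g4 (b / (j * j)) else 0 := by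
  have e1 : S10_T g1 g2 g3 g4 j b = H4 g1 (fun n => if j ∣ n then g2 n else 0) (fun n => if j ∣ n then g3 n else 0) g4 b := by
    unfold S10_T H4
    refine Finset.sum_congr rfl fun x _ => ?_
    rw [Finset.sum_mul_sum]
    refine Finset.sum_congr rfl fun y _ => Finset.sum_congr rfl fun z _ => ?_
    beta_reduce
    by_cases a1 : j ∣ y.2
    · by_cases a2 : j ∣ z.1
      · rw [if_pos ⟨a1, a2⟩, if_pos a1, if_pos a2]
      · rw [if_neg (fun h => a2 h.2), if_neg a2, zero_mul, mul_zero]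
    · rw [if_neg (fun h => a1 h.1), if_neg a1, mul_zero, zero_mul]
  rw [e1, ← S10_H4, S10_restrict h2 hj, S10_restrict h3 hj]
  have e2 : S10_A g1 * (g2 j • (S10_D j * S10_A g2)) * (g3 j • (S10_D j * S10_A g3) * S10_A g4) =
      (g2 j * g3 j) • (S10_D (j * j) * ((S10_A g1 * S10_A g2) * (S10_A g3 * S10_A g4))) := by
    rw [← S10_DD hj]
    simp only [smul_mul_assoc, mul_smul_comm, smul_smul]
    congr 1
    · ring
    · ring
  rw [e2]
  change g2 j * g3 j * (S10_D (j * j) * ((S10_A g1 * S10_A g2) * (S10_A g3 * S10_A g4))) b = _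
  rw [S10_D_mul (Nat.mul_pos hj hj), S10_H4]

private theorem S10_scale {D : ℕ} (hD : 0 < D) (h : ℕ → ℂ) (Y : ℕ) :
    ∑ b ∈ Icc 1 Y, (if D ∣ b then h (b / D) else 0) / (b : ℂ) = (1 / (D : ℂ)) * ∑ n ∈ Icc 1 (Y / D), h n / n := by
  have hD' : (D : ℂ) ≠ 0 := Nat.cast_ne_zero.2 hD.ne'
  have e1 : ∑ b ∈ Icc 1 Y, (if D ∣ b then h (b / D) else 0) / (b : ℂ) =
      ∑ b ∈ (Icc 1 Y).filter (fun b => D ∣ b), h (b / D) / (b : ℂ) := by
    rw [Finset.sum_filter]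
    refine Finset.sum_congr rfl fun b _ => ?_
    by_cases hb : D ∣ b
    · rw [if_pos hb, if_pos hb]
    · rw [if_neg hb, if_neg hb, zero_div]
  rw [e1, Finset.mul_sum]
  refine Finset.sum_nbij' (fun b => b / D) (fun n => D * n) ?_ ?_ ?_ ?_ ?_
  · intro b hb
    obtain ⟨h1, m, rfl⟩ := Finset.mem_filter.1 hb
    rw [Finset.mem_Icc] at h1 ⊢
    refine ⟨?_, Nat.div_le_div_right h1.2⟩
    rw [Nat.mul_div_cancel_left m hD]
    rcases Nat.eq_zero_or_pos m with rfl | hm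
    · simp at h1
    · exact hm
  · intro n hn
    rw [Finset.mem_Icc] at hn
    rw [Finset.mem_filter, Finset.mem_Icc]
    refine ⟨⟨Nat.mul_pos hD hn.1, ?_⟩, Nat.dvd_mul_right D n⟩
    calc D * n ≤ D * (Y / D) := Nat.mul_le_mul_left D hn.2
      _ ≤ Y := Nat.mul_div_le Y D
  · intro b hb
    exact Nat.mul_div_cancel' (Finset.mem_filter.1 hb).2
  · intro n _
    exact Nat.mul_div_cancel_left n hD
  · intro b hb
    obtain ⟨h1, m, rfl⟩ := Finset.mem_filter.1 hb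
    rw [Nat.mul_div_cancel_left m hD]
    push_cast
    rw [Finset.mem_Icc] at h1
    have hm : (m : ℂ) ≠ 0 := by
      rw [Nat.cast_ne_zero]
      rintro rfl
      simp at h1
    field_simp

/-- the sum over b prime to N -/
private theorem S10_inner {f1 f2 f3 f4 g1 g2 g3 g4 : ℕ → ℂ} (m1 : ∀ m n, f1 (m * n) = f1 m * f1 n)
    (m2 : ∀ m n, f2 (m * n) = f2 m * f2 n) (m3 : ∀ m n, f3 (m * n) = f3 m * f3 n)
    (m4 : ∀ m n, f4 (m * n) = f4 m * f4 n) (e1 : ∀ n, f1 n * f3 n = g1 n) (e2 : ∀ n, f1 n * f4 n = g2 n)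
    (e3 : ∀ n, f2 n * f3 n = g3 n) (e4 : ∀ n, f2 n * f4 n = g4 n) {K C : ℝ} (c1 : CM g1 K) (c2 : CM g2 K)
    (c3 : CM g3 K) (c4 : CM g4 K) (hC0 : 0 < C)
    (hC : ∀ (g1 g2 g3 g4 : ℕ → ℂ), CM g1 K → CM g2 K → CM g3 K → CM g4 K →
      ∀ x : ℕ, ‖∑ n ∈ Icc 1 x, H4 g1 g2 g3 g4 n / n‖ ≤ C) (Y : ℕ) :
    ‖∑ b ∈ Icc 1 Y, (∑ x ∈ b.divisorsAntidiagonal, f1 x.1 * f2 x.2) *
      (∑ y ∈ b.divisorsAntidiagonal, f3 y.1 * f4 y.2) / (b : ℂ)‖ ≤ 2 * C := by
  have hb : ∀ b ∈ Icc 1 Y, (∑ x ∈ b.divisorsAntidiagonal, f1 x.1 * f2 x.2) *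
      (∑ y ∈ b.divisorsAntidiagonal, f3 y.1 * f4 y.2) / (b : ℂ) =
      ∑ j ∈ Icc 1 Y, ((ArithmeticFunction.moebius j : ℤ) : ℂ) * (S10_T g1 g2 g3 g4 j b / (b : ℂ)) := by
    intro b hb
    rw [Finset.mem_Icc] at hb
    rw [four_bij m1 m2 m3 m4 hb.1]
    have e5 : ∀ j ∈ Icc 1 Y, ((ArithmeticFunction.moebius j : ℤ) : ℂ) * (S10_T g1 g2 g3 g4 j b / (b : ℂ)) =
        (((ArithmeticFunction.moebius j : ℤ) : ℂ) * S10_T g1 g2 g3 g4 j b) / (b : ℂ) := fun j _ => by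
      rw [mul_div_assoc]
    rw [Finset.sum_congr rfl e5, ← Finset.sum_div]
    congr 1
    unfold S10_T
    simp only [Finset.mul_sum]
    conv_rhs => rw [Finset.sum_comm]
    refine Finset.sum_congr rfl fun x hx => ?_
    conv_rhs => rw [Finset.sum_comm]
    refine Finset.sum_congr rfl fun y hy => ?_
    conv_rhs => rw [Finset.sum_comm]
    refine Finset.sum_congr rfl fun z hz => ?_
    have hx' := Nat.mem_divisorsAntidiagonal.1 hx
    have hy' := Nat.mem_divisorsAntidiagonal.1 hy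
    have hy2 : 1 ≤ y.2 := by
      rcases Nat.eq_zero_or_pos y.2 with h | h
      · exfalso
        rw [h, mul_zero] at hy'
        exact hy'.2 hy'.1.symm
      · exact h
    have hyY : y.2 ≤ Y := by
      have h1 : y.2 ∣ b := (Dvd.intro_left _ hy'.1).trans (Dvd.intro _ hx'.1)
      exact (Nat.le_of_dvd hb.1 h1).trans hb.2
    have hm := S03_moebius (u := z.1) hy2 hyY
    have hm' : (∑ j ∈ Icc 1 Y, if j ∣ y.2 ∧ j ∣ z.1 then ((ArithmeticFunction.moebius j : ℤ) : ℂ) else 0) =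
        if Nat.Coprime y.2 z.1 then 1 else 0 := by
      have := congrArg (fun t : ℤ => (t : ℂ)) hm
      simp only [Int.cast_sum] at this
      rw [show (if Nat.Coprime y.2 z.1 then (1 : ℂ) else 0) = ((if Nat.Coprime y.2 z.1 then (1 : ℤ) else 0 : ℤ) : ℂ) by
        split_ifs <;> simp, ← this]
      refine Finset.sum_congr rfl fun j _ => ?_
      by_cases hj : j ∣ y.2 ∧ j ∣ z.1
      · rw [if_pos hj, if_pos hj]
      · rw [if_neg hj, if_neg hj, Int.cast_zero]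
    have e6 : ∀ j ∈ Icc 1 Y, ((ArithmeticFunction.moebius j : ℤ) : ℂ) *
        (if j ∣ y.2 ∧ j ∣ z.1 then g1 y.1 * g2 y.2 * (g3 z.1 * g4 z.2) else 0) =
        (if j ∣ y.2 ∧ j ∣ z.1 then ((ArithmeticFunction.moebius j : ℤ) : ℂ) else 0) *
          (g1 y.1 * g2 y.2 * (g3 z.1 * g4 z.2)) := fun j _ => by
      split_ifs <;> simp
    rw [Finset.sum_congr rfl e6, ← Finset.sum_mul, hm', e1, e2, e3, e4]
    split_ifs <;> simp
  rw [Finset.sum_congr rfl hb, Finset.sum_comm]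
  have hj : ∀ j ∈ Icc 1 Y, ‖∑ b ∈ Icc 1 Y, ((ArithmeticFunction.moebius j : ℤ) : ℂ) *
      (S10_T g1 g2 g3 g4 j b / (b : ℂ))‖ ≤ C * (1 / (j : ℝ) ^ 2) := by
    intro j hj
    have hj1 : 0 < j := (Finset.mem_Icc.1 hj).1
    rw [← Finset.mul_sum, norm_mul]
    have h1 : ‖((ArithmeticFunction.moebius j : ℤ) : ℂ)‖ ≤ 1 := by
      rw [Complex.norm_intCast]
      exact_mod_cast ArithmeticFunction.abs_moebius_le_one
    have h2 : ∑ b ∈ Icc 1 Y, S10_T g1 g2 g3 g4 j b / (b : ℂ) =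
        g2 j * g3 j * ((1 / ((j * j : ℕ) : ℂ)) * ∑ n ∈ Icc 1 (Y / (j * j)), H4 g1 g2 g3 g4 n / n) := by
      rw [← S10_scale (Nat.mul_pos hj1 hj1) (H4 g1 g2 g3 g4) Y, Finset.mul_sum]
      refine Finset.sum_congr rfl fun b _ => ?_
      rw [S10_T_eq c2.1 c3.1 hj1 b, mul_div_assoc]
    have h3 : ‖∑ b ∈ Icc 1 Y, S10_T g1 g2 g3 g4 j b / (b : ℂ)‖ ≤ C * (1 / (j : ℝ) ^ 2) := by
      rw [h2, norm_mul, norm_mul, norm_mul, norm_div, norm_one, Complex.norm_natCast]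
      have a1 : ‖g2 j‖ * ‖g3 j‖ ≤ 1 := mul_le_one₀ (c2.2.1 j) (norm_nonneg _) (c3.2.1 j)
      have a2 := hC g1 g2 g3 g4 c1 c2 c3 c4 (Y / (j * j))
      calc ‖g2 j‖ * ‖g3 j‖ * (1 / ((j * j : ℕ) : ℝ) * ‖∑ n ∈ Icc 1 (Y / (j * j)), H4 g1 g2 g3 g4 n / n‖)
          ≤ 1 * (1 / ((j * j : ℕ) : ℝ) * C) := by
            refine mul_le_mul a1 (mul_le_mul_of_nonneg_left a2 (by positivity)) (by positivity) zero_le_one
        _ = C * (1 / (j : ℝ) ^ 2) := by
            push_cast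
            ring
    calc _ ≤ 1 * (C * (1 / (j : ℝ) ^ 2)) := mul_le_mul h1 h3 (norm_nonneg _) zero_le_one
      _ = _ := one_mul _
  refine (norm_sum_le_of_le _ hj).trans ?_
  rw [← Finset.mul_sum]
  calc C * ∑ j ∈ Icc 1 Y, 1 / (j : ℝ) ^ 2 ≤ C * 2 := mul_le_mul_of_nonneg_left (S03_sq Y) hC0.le
    _ = 2 * C := mul_comm _ _

private theorem S10_co_eq {q1 q2 : ℕ} (χ1 : DirichletCharacter ℂ q1) (χ2 : DirichletCharacter ℂ q2) (n : ℕ) :
    co χ1 χ2 n = ∑ x ∈ n.divisorsAntidiagonal, χ1 (x.1 : ZMod q1) * χ2 (x.2 : ZMod q2) := by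
  unfold co lamF
  rw [ArithmeticFunction.mul_apply]
  refine Finset.sum_congr rfl ?_
  rintro ⟨a, b⟩ hab
  obtain ⟨h1, h2⟩ := Nat.mem_divisorsAntidiagonal.1 hab
  have ha : a ≠ 0 := by
    rintro rfl
    simp at h1
    exact h2 h1.symm
  have hb : b ≠ 0 := by
    rintro rfl
    simp at h1
    exact h2 h1.symm
  change LA (ch χ1) 0 0 a * LA (ch χ2) 0 0 b = _
  rw [T_Lam_aux_LA _ _ ha, T_Lam_aux_LA _ _ hb]
  rfl

private theorem S10_rs {q1 q2 : ℕ} (χ1 : DirichletCharacter ℂ q1) (χ2 : DirichletCharacter ℂ q2) (N b : ℕ) :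
    (∑ x ∈ b.divisorsAntidiagonal, rs (fun n => χ1 (n : ZMod q1)) N x.1 * rs (fun n => χ2 (n : ZMod q2)) N x.2) =
      if Nat.Coprime b N then co χ1 χ2 b else 0 := by
  by_cases hc : Nat.Coprime b N
  · rw [if_pos hc, S10_co_eq]
    refine Finset.sum_congr rfl ?_
    rintro ⟨a, c⟩ hac
    obtain ⟨h1, h2⟩ := Nat.mem_divisorsAntidiagonal.1 hac
    have h3 : Nat.Coprime (a * c) N := by rw [h1]; exact hc
    rw [Nat.coprime_mul_iff_left] at h3
    unfold rs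
    rw [if_pos h3.1, if_pos h3.2]
  · rw [if_neg hc]
    refine Finset.sum_eq_zero ?_
    rintro ⟨a, c⟩ hac
    obtain ⟨h1, h2⟩ := Nat.mem_divisorsAntidiagonal.1 hac
    have h3 : ¬ (Nat.Coprime a N ∧ Nat.Coprime c N) := by
      rw [← Nat.coprime_mul_iff_left, h1]
      exact hc
    unfold rs
    by_cases h4 : Nat.Coprime a N
    · rw [if_neg (fun h => h3 ⟨h4, h⟩), mul_zero]
    · rw [if_neg h4, zero_mul]

private theorem S10_rs_mul {q : ℕ} (χ : DirichletCharacter ℂ q) (N m n : ℕ) :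
    rs (fun n => χ (n : ZMod q)) N (m * n) = rs (fun n => χ (n : ZMod q)) N m * rs (fun n => χ (n : ZMod q)) N n := by
  unfold rs
  by_cases h1 : Nat.Coprime m N
  · by_cases h2 : Nat.Coprime n N
    · rw [if_pos (Nat.coprime_mul_iff_left.2 ⟨h1, h2⟩), if_pos h1, if_pos h2]
      push_cast
      rw [map_mul]
    · rw [if_neg (fun h => h2 (Nat.coprime_mul_iff_left.1 h).2), if_neg h2, mul_zero]
  · rw [if_neg (fun h => h1 (Nat.coprime_mul_iff_left.1 h).1), if_neg h1, zero_mul]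

private theorem S10_qc {q1 q2 : ℕ} (χ1 : DirichletCharacter ℂ q1) (χ2 : DirichletCharacter ℂ q2) (N n : ℕ) :
    rs (fun n => χ1 (n : ZMod q1)) N n * conj (rs (fun n => χ2 (n : ZMod q2)) N n) = qc χ1 χ2 N n := by
  unfold qc rs
  by_cases h : Nat.Coprime n N
  · rw [if_pos h, if_pos h, if_pos h]
  · rw [if_neg h, if_neg h, if_neg h, zero_mul]

private theorem S10_card_mul (m n : ℕ) : ((m * n).divisors.card : ℝ) ≤ (m.divisors.card : ℝ) * n.divisors.card := by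
  have : (m * n).divisors.card ≤ m.divisors.card * n.divisors.card := by
    rw [Nat.divisors_mul]
    exact Finset.card_mul_le
  exact_mod_cast this

private theorem S10_sqsum {ι : Type*} (S : Finset ι) (f : ι → ℝ) (hf : ∀ i ∈ S, 0 ≤ f i) :
    ∑ i ∈ S, f i ^ 2 ≤ (∑ i ∈ S, f i) ^ 2 := by
  rw [pow_two (∑ i ∈ S, f i), Finset.sum_mul]
  refine Finset.sum_le_sum fun i hi => ?_
  rw [pow_two]
  exact mul_le_mul_of_nonneg_left (Finset.single_le_sum hf hi) (hf i hi)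

/-- Row S10. The diagonal sum. -/
theorem diag {q1 q2 q3 q4 : ℕ} [NeZero q1] [NeZero q2] [NeZero q3] [NeZero q4] {χ1 : DirichletCharacter ℂ q1}
    {χ2 : DirichletCharacter ℂ q2} {χ3 : DirichletCharacter ℂ q3} {χ4 : DirichletCharacter ℂ q4}
    (n13 : Ne12 χ1 χ3) (n14 : Ne12 χ1 χ4) (n23 : Ne12 χ2 χ3) (n24 : Ne12 χ2 χ4) {r s : ℕ} (hr : 0 < r) (hs : 0 < s) :
    ∃ C : ℝ, 0 < C ∧ ∀ x : ℕ, ‖∑ l ∈ Icc 1 x, co χ1 χ2 (r * l) * conj (co χ3 χ4 (s * l)) / l‖ ≤ C := by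
  classical
  set N : ℕ := r * s * (q1 * q2 * (q3 * q4)) with hNdef
  have hq1 : 0 < q1 := NeZero.pos q1
  have hq2 : 0 < q2 := NeZero.pos q2
  have hq3 : 0 < q3 := NeZero.pos q3
  have hq4 : 0 < q4 := NeZero.pos q4
  have hN : 0 < N := by positivity
  have d1 : q1 ∣ N := ((Nat.dvd_mul_right q1 q2).trans (Nat.dvd_mul_right _ _)).trans (Nat.dvd_mul_left _ _)
  have d2 : q2 ∣ N := ((Nat.dvd_mul_left q2 q1).trans (Nat.dvd_mul_right _ _)).trans (Nat.dvd_mul_left _ _)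
  have d3 : q3 ∣ N := ((Nat.dvd_mul_right q3 q4).trans (Nat.dvd_mul_left _ _)).trans (Nat.dvd_mul_left _ _)
  have d4 : q4 ∣ N := ((Nat.dvd_mul_left q4 q3).trans (Nat.dvd_mul_left _ _)).trans (Nat.dvd_mul_left _ _)
  have dr : r ∣ N := (Nat.dvd_mul_right r s).trans (Nat.dvd_mul_right _ _)
  have ds : s ∣ N := (Nat.dvd_mul_left s r).trans (Nat.dvd_mul_right _ _)
  obtain ⟨C, hC0, hC⟩ := four_conv (N : ℝ)
  have c1 := (qc_CM n13 hN d1 d3).1
  have c2 := (qc_CM n14 hN d1 d4).1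
  have c3 := (qc_CM n23 hN d2 d3).1
  have c4 := (qc_CM n24 hN d2 d4).1
  have hinner : ∀ Y : ℕ, ‖∑ b ∈ (Icc 1 Y).filter (fun b => Nat.Coprime b N),
      co χ1 χ2 b * conj (co χ3 χ4 b) / (b : ℂ)‖ ≤ 2 * C := by
    intro Y
    have h1 := S10_inner (f1 := rs (fun n => χ1 (n : ZMod q1)) N) (f2 := rs (fun n => χ2 (n : ZMod q2)) N)
      (f3 := fun n => conj (rs (fun n => χ3 (n : ZMod q3)) N n))
      (f4 := fun n => conj (rs (fun n => χ4 (n : ZMod q4)) N n))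
      (S10_rs_mul χ1 N) (S10_rs_mul χ2 N)
      (fun m n => by rw [S10_rs_mul χ3 N, map_mul])
      (fun m n => by rw [S10_rs_mul χ4 N, map_mul])
      (S10_qc χ1 χ3 N) (S10_qc χ1 χ4 N) (S10_qc χ2 χ3 N) (S10_qc χ2 χ4 N) c1 c2 c3 c4 hC0 hC Y
    refine le_trans (le_of_eq ?_) h1
    rw [Finset.sum_filter]
    congr 1
    refine Finset.sum_congr rfl fun b hb => ?_
    have hb1 : 0 < b := (Finset.mem_Icc.1 hb).1
    have e1 := S10_rs χ1 χ2 N b
    have e2 : (∑ y ∈ b.divisorsAntidiagonal, conj (rs (fun n => χ3 (n : ZMod q3)) N y.1) *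
        conj (rs (fun n => χ4 (n : ZMod q4)) N y.2)) = conj (if Nat.Coprime b N then co χ3 χ4 b else 0) := by
      rw [← S10_rs χ3 χ4 N b, map_sum]
      refine Finset.sum_congr rfl fun y _ => ?_
      rw [map_mul]
    rw [e1, e2]
    by_cases hc : Nat.Coprime b N
    · rw [if_pos hc, if_pos hc, if_pos hc]
    · rw [if_neg hc, if_neg hc, zero_mul, zero_div]
  refine ⟨(r.divisors.card : ℝ) * s.divisors.card * ((N : ℝ) ^ 4) ^ 2 * (2 * C), ?_, ?_⟩
  · have h1 : 0 < (r.divisors.card : ℝ) := by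
      exact_mod_cast Finset.card_pos.2 ⟨1, Nat.one_mem_divisors.2 hr.ne'⟩
    have h2 : 0 < (s.divisors.card : ℝ) := by
      exact_mod_cast Finset.card_pos.2 ⟨1, Nat.one_mem_divisors.2 hs.ne'⟩
    have h3 : 0 < (N : ℝ) := Nat.cast_pos.2 hN
    positivity
  intro X
  obtain ⟨P, hP1, -, hP3⟩ := sum_decomp hN X (fun a b => (co χ1 χ2 (r * a) * conj (co χ3 χ4 (s * a)) / (a : ℂ)) *
    (co χ1 χ2 b * conj (co χ3 χ4 b) / (b : ℂ)))
  have h1 : ∑ l ∈ Icc 1 X, co χ1 χ2 (r * l) * conj (co χ3 χ4 (s * l)) / (l : ℂ) =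
      ∑ n ∈ Icc 1 X, (fun a b => (co χ1 χ2 (r * a) * conj (co χ3 χ4 (s * a)) / (a : ℂ)) *
        (co χ1 χ2 b * conj (co χ3 χ4 b) / (b : ℂ))) (P n).1 (P n).2 := by
    refine Finset.sum_congr rfl fun n hn => ?_
    have hn1 : 0 < n := (Finset.mem_Icc.1 hn).1
    obtain ⟨⟨p1, p2⟩, p3, p4, p5⟩ := hP1 n hn1
    have hcop : ∀ t : ℕ, t ∣ N → Nat.Coprime (t * (P n).1) (P n).2 := by
      intro t ht
      refine Nat.Coprime.mul_left ((p3.coprime_dvd_right ht).symm) ?_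
      refine Nat.Coprime.symm ?_
      refine Nat.coprime_of_dvd fun p hp h2 h3 => ?_
      exact Nat.Prime.one_lt hp |>.ne' (Nat.eq_one_of_dvd_coprimes p3 h2 (p2 p hp h3))
    have e1 : co χ1 χ2 (r * n) = co χ1 χ2 (r * (P n).1) * co χ1 χ2 (P n).2 := by
      rw [← co_mul χ1 χ2 (hcop r dr), mul_assoc, p5]
    have e2 : co χ3 χ4 (s * n) = co χ3 χ4 (s * (P n).1) * co χ3 χ4 (P n).2 := by
      rw [← co_mul χ3 χ4 (hcop s ds), mul_assoc, p5]
    have e3 : (n : ℂ) = ((P n).1 : ℂ) * ((P n).2 : ℂ) := by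
      rw [← Nat.cast_mul, p5]
    have e4 : ((P n).1 : ℂ) ≠ 0 := Nat.cast_ne_zero.2 p1.ne'
    have e5 : ((P n).2 : ℂ) ≠ 0 := Nat.cast_ne_zero.2 p4.ne'
    simp only
    rw [e1, e2, e3, map_mul (starRingEnd ℂ)]
    field_simp
  rw [h1, hP3]
  have h2 : ∀ a ∈ (Icc 1 X).filter (Fac N), ‖∑ b ∈ (Icc 1 (X / a)).filter (fun b => Nat.Coprime b N),
      (fun a b => (co χ1 χ2 (r * a) * conj (co χ3 χ4 (s * a)) / (a : ℂ)) *
        (co χ1 χ2 b * conj (co χ3 χ4 b) / (b : ℂ))) a b‖ ≤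
      (r.divisors.card : ℝ) * s.divisors.card * ((a.divisors.card : ℝ) / √a) ^ 2 * (2 * C) := by
    intro a ha
    have ha1 : 0 < a := (Finset.mem_Icc.1 (Finset.mem_filter.1 ha).1).1
    have ha2 : 0 < (a : ℝ) := Nat.cast_pos.2 ha1
    simp only
    rw [← Finset.mul_sum, norm_mul]
    refine mul_le_mul ?_ (hinner (X / a)) (norm_nonneg _) (by positivity)
    rw [norm_div, norm_mul, RCLike.norm_conj, Complex.norm_natCast, div_pow, Real.sq_sqrt ha2.le]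
    have e1 : ‖co χ1 χ2 (r * a)‖ ≤ (r.divisors.card : ℝ) * a.divisors.card :=
      (co_le χ1 χ2 (r * a)).1.trans (S10_card_mul r a)
    have e2 : ‖co χ3 χ4 (s * a)‖ ≤ (s.divisors.card : ℝ) * a.divisors.card :=
      (co_le χ3 χ4 (s * a)).1.trans (S10_card_mul s a)
    rw [div_le_iff₀ ha2]
    calc ‖co χ1 χ2 (r * a)‖ * ‖co χ3 χ4 (s * a)‖ ≤
        ((r.divisors.card : ℝ) * a.divisors.card) * ((s.divisors.card : ℝ) * a.divisors.card) :=
          mul_le_mul e1 e2 (norm_nonneg _) (by positivity)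
      _ = (r.divisors.card : ℝ) * s.divisors.card * ((a.divisors.card : ℝ) ^ 2 / (a : ℝ)) * (a : ℝ) := by
          field_simp
  refine (norm_sum_le_of_le _ h2).trans ?_
  rw [← Finset.sum_mul, ← Finset.mul_sum]
  have h3 : ∑ a ∈ (Icc 1 X).filter (Fac N), ((a.divisors.card : ℝ) / √a) ^ 2 ≤ ((N : ℝ) ^ 4) ^ 2 := by
    refine (S10_sqsum _ _ fun a _ => by positivity).trans ?_
    exact pow_le_pow_left₀ (Finset.sum_nonneg fun a _ => by positivity) (fac_sum hN X) 2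
  exact mul_le_mul_of_nonneg_right (mul_le_mul_of_nonneg_left h3 (by positivity)) (by positivity)

end RQ
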