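import Pool.Agent.Lib.MP_0f5a55_nt.RQ.R04
import Pool.Agent.Lib.MP_0f5a55_nt.RQ.S01
import Pool.Agent.Lib.MP_0f5a55_nt.RQ.S10

open Complex MeasureTheory Set Filter Topology
open scoped Real ComplexConjugate

namespace RQ

open OO

private theorem M03_sq (q1 q2 : ℕ) [NeZero q1] [NeZero q2] :
    Real.exp (-(T_psi q1 q2)) ^ 2 * ((q1 : ℝ) * q2) = 1 := by
  have h1 : 0 < (q1 : ℝ) := Nat.cast_pos.2 (NeZero.pos q1)
  have h2 : 0 < (q2 : ℝ) := Nat.cast_pos.2 (NeZero.pos q2)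
  have hQ : 0 < (q1 : ℝ) * q2 := mul_pos h1 h2
  unfold T_psi
  rw [← Real.exp_nat_mul, show ((2 : ℕ) : ℝ) * (-(Real.log (q1 * q2) / 2)) = -Real.log (q1 * q2) by
    push_cast; ring, Real.exp_neg, Real.exp_log hQ, inv_mul_cancel₀ hQ.ne']

private theorem M03_eq {q1 q2 q3 q4 : ℕ} [NeZero q1] [NeZero q2] [NeZero q3] [NeZero q4] {r s : ℕ}
    (hq : q1 * q2 * s ^ 2 = q3 * q4 * r ^ 2) :
    (s : ℝ) * Real.exp (-(T_psi q3 q4)) = r * Real.exp (-(T_psi q1 q2)) := by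
  have e1 := M03_sq q1 q2
  have e2 := M03_sq q3 q4
  have h1 : 0 < (q1 : ℝ) * q2 := mul_pos (Nat.cast_pos.2 (NeZero.pos q1)) (Nat.cast_pos.2 (NeZero.pos q2))
  have h2 : 0 < (q3 : ℝ) * q4 := mul_pos (Nat.cast_pos.2 (NeZero.pos q3)) (Nat.cast_pos.2 (NeZero.pos q4))
  have hq' : (q1 : ℝ) * q2 * (s : ℝ) ^ 2 = q3 * q4 * (r : ℝ) ^ 2 := by exact_mod_cast hq
  refine (sq_eq_sq₀ (by positivity) (by positivity)).1 ?_
  have h3 : ((q1 : ℝ) * q2) * ((q3 : ℝ) * q4) ≠ 0 := (mul_pos h1 h2).ne'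
  refine mul_left_cancel₀ h3 ?_
  calc ((q1 : ℝ) * q2) * ((q3 : ℝ) * q4) * ((s : ℝ) * Real.exp (-(T_psi q3 q4))) ^ 2
      = ((q1 : ℝ) * q2 * (s : ℝ) ^ 2) * (Real.exp (-(T_psi q3 q4)) ^ 2 * ((q3 : ℝ) * q4)) := by ring
    _ = (q3 * q4 * (r : ℝ) ^ 2) * (Real.exp (-(T_psi q1 q2)) ^ 2 * ((q1 : ℝ) * q2)) := by rw [hq', e1, e2]
    _ = ((q1 : ℝ) * q2) * ((q3 : ℝ) * q4) * ((r : ℝ) * Real.exp (-(T_psi q1 q2))) ^ 2 := by ring

private theorem M03_zz (ε : ℝ) : zz ε + conj (zz ε) = ((2 * Real.sin ε : ℝ) : ℂ) := by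
  unfold zz
  rw [Complex.add_conj, Complex.exp_ofReal_mul_I_re, Real.cos_pi_div_two_sub]

private theorem M03_wf {q1 q2 q3 q4 : ℕ} [NeZero q1] [NeZero q2] [NeZero q3] [NeZero q4] {r s : ℕ}
    (hq : q1 * q2 * s ^ 2 = q3 * q4 * r ^ 2) (ε : ℝ) (l : ℕ) :
    wf (T_psi q1 q2) (T_psi q3 q4) ε (r * l) (s * l) =
      ((4 * π * r * Real.exp (-(T_psi q1 q2)) * Real.sin ε * l : ℝ) : ℂ) := by
  have h1 := M03_eq hq
  have h2 : (s : ℂ) * ((Real.exp (-(T_psi q3 q4)) : ℝ) : ℂ) = r * ((Real.exp (-(T_psi q1 q2)) : ℝ) : ℂ) := by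
    exact_mod_cast congrArg (fun x : ℝ => (x : ℂ)) h1
  have h3 := M03_zz ε
  unfold wf
  rw [map_mul, conj_ofReal]
  push_cast at h2 h3 ⊢
  calc 2 * (π : ℂ) * ((r : ℂ) * l * (zz ε * cexp (-(T_psi q1 q2 : ℂ))) +
        s * l * (conj (zz ε) * cexp (-(T_psi q3 q4 : ℂ))))
      = 2 * π * l * ((r : ℂ) * cexp (-(T_psi q1 q2 : ℂ)) * zz ε + (s * cexp (-(T_psi q3 q4 : ℂ))) * conj (zz ε)) := by
        ring
    _ = 2 * π * l * ((r : ℂ) * cexp (-(T_psi q1 q2 : ℂ)) * (zz ε + conj (zz ε))) := by rw [h2]; ring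
    _ = _ := by rw [h3]; ring

private theorem M03_parts (a : ℕ → ℂ) (b : ℕ → ℝ) (n : ℕ) :
    ∑ l ∈ Finset.range (n + 1), a l * (b l : ℂ) = (∑ l ∈ Finset.range (n + 1), a l) * (b n : ℂ) +
      ∑ j ∈ Finset.range n, (∑ l ∈ Finset.range (j + 1), a l) * ((b j - b (j + 1) : ℝ) : ℂ) := by
  induction n with
  | zero => simp
  | succ n ih =>
    rw [Finset.sum_range_succ, ih, Finset.sum_range_succ (fun j => (∑ l ∈ Finset.range (j + 1), a l) *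
      ((b j - b (j + 1) : ℝ) : ℂ)), Finset.sum_range_succ a (n + 1)]
    push_cast
    ring

private theorem M03_abel {a : ℕ → ℂ} {b : ℕ → ℝ} {C : ℝ} (hC : 0 ≤ C)
    (ha : ∀ N, ‖∑ l ∈ Finset.range N, a l‖ ≤ C) (hb : ∀ n, b (n + 1) ≤ b n) (hb0 : ∀ n, 0 ≤ b n) (N : ℕ) :
    ‖∑ l ∈ Finset.range N, a l * (b l : ℂ)‖ ≤ C * b 0 := by
  rcases N with _ | n
  · rw [Finset.sum_range_zero, norm_zero]
    exact mul_nonneg hC (hb0 0)
  · rw [M03_parts]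
    refine (norm_add_le _ _).trans ?_
    have e1 : ‖(∑ l ∈ Finset.range (n + 1), a l) * (b n : ℂ)‖ ≤ C * b n := by
      rw [norm_mul, Complex.norm_of_nonneg (hb0 n)]
      exact mul_le_mul_of_nonneg_right (ha _) (hb0 n)
    have e2 : ‖∑ j ∈ Finset.range n, (∑ l ∈ Finset.range (j + 1), a l) * ((b j - b (j + 1) : ℝ) : ℂ)‖ ≤
        C * (b 0 - b n) := by
      rw [← Finset.sum_range_sub' b n, Finset.mul_sum]
      refine norm_sum_le_of_le _ fun j _ => ?_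
      rw [norm_mul, Complex.norm_of_nonneg (sub_nonneg.2 (hb j))]
      exact mul_le_mul_of_nonneg_right (ha _) (sub_nonneg.2 (hb j))
    calc _ ≤ C * b n + C * (b 0 - b n) := add_le_add e1 e2
      _ = C * b 0 := by ring

private theorem M03_icc (f : ℕ → ℂ) (N : ℕ) :
    ∑ l ∈ Finset.range N, f (l + 1) = ∑ l ∈ Finset.Icc 1 N, f l := by
  induction N with
  | zero => simp
  | succ n ih => rw [Finset.sum_range_succ, ih, Finset.sum_Icc_succ_top (by omega)]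

/-- the diagonal as a sequence -/
private theorem M03_bij {r s : ℕ} (hr : 0 < r) (hrs : Nat.Coprime r s) :
    Function.Bijective (fun l : ℕ => (⟨(r * l, s * l), by push_cast; ring⟩ :
      {p : ℕ × ℕ // (s : ℤ) * p.1 - r * p.2 = 0})) := by
  constructor
  · intro l l' h
    have h1 := congrArg (fun p : {p : ℕ × ℕ // (s : ℤ) * p.1 - r * p.2 = 0} => p.1.1) h
    exact Nat.eq_of_mul_eq_mul_left hr h1
  · rintro ⟨⟨n, m⟩, h⟩
    have h1 : s * n = r * m := by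
      have : (s : ℤ) * n - r * m = 0 := h
      have h2 : (s : ℤ) * n = r * m := by linarith
      exact_mod_cast h2
    have h2 : r ∣ n := by
      refine hrs.dvd_of_dvd_mul_left ?_
      rw [h1]
      exact Nat.dvd_mul_right r m
    obtain ⟨l, rfl⟩ := h2
    refine ⟨l, ?_⟩
    have h3 : m = s * l := by
      refine Nat.eq_of_mul_eq_mul_left hr ?_
      rw [← h1]
      ring
    subst h3
    rfl

/-- Row M03. The diagonal s n = r m. -/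
theorem diag_bound {q1 q2 q3 q4 : ℕ} [NeZero q1] [NeZero q2] [NeZero q3] [NeZero q4] {χ1 : DirichletCharacter ℂ q1}
    {χ2 : DirichletCharacter ℂ q2} {χ3 : DirichletCharacter ℂ q3} {χ4 : DirichletCharacter ℂ q4}
    (n13 : Ne12 χ1 χ3) (n14 : Ne12 χ1 χ4) (n23 : Ne12 χ2 χ3) (n24 : Ne12 χ2 χ4) {r s : ℕ} (hr : 0 < r) (hs : 0 < s)
    (hrs : Nat.Coprime r s) (hq : q1 * q2 * s ^ 2 = q3 * q4 * r ^ 2) : ∃ C : ℝ, 0 < C ∧ ∀ ε : ℝ, 0 < ε → ε ≤ 1 / 10 →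
    ‖∑' p : {p : ℕ × ℕ // (s : ℤ) * p.1 - r * p.2 = 0}, co χ1 χ2 p.1.1 * conj (co χ3 χ4 p.1.2) *
      Ph (wf (T_psi q1 q2) (T_psi q3 q4) ε p.1.1 p.1.2)‖ ≤ C / ε := by
  obtain ⟨C0, hC0, hd⟩ := diag n13 n14 n23 n24 hr hs
  obtain ⟨Ps, hanti, hPs, -⟩ := Ph_real
  have hr' : 0 < (r : ℝ) := Nat.cast_pos.2 hr
  have hE : 0 < Real.exp (-(T_psi q1 q2)) := Real.exp_pos _
  refine ⟨C0 / (8 * r * Real.exp (-(T_psi q1 q2))), by positivity, ?_⟩
  intro ε h0 h1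
  have hsin : 2 / π * ε ≤ Real.sin ε := TT.sin_ge h0 (by linarith)
  have hsin0 : 0 < Real.sin ε := TT.sin_pos' h0 (by linarith)
  set c : ℝ := 4 * π * r * Real.exp (-(T_psi q1 q2)) * Real.sin ε with hc
  have hc0 : 0 < c := by positivity
  have hcge : 8 * r * Real.exp (-(T_psi q1 q2)) * ε ≤ c := by
    have e1 : 8 * r * Real.exp (-(T_psi q1 q2)) * ε = 4 * π * r * Real.exp (-(T_psi q1 q2)) * (2 / π * ε) := by
      field_simp
      ring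
    rw [e1, hc]
    exact mul_le_mul_of_nonneg_left hsin (by positivity)
  have hbound : C0 / c ≤ C0 / (8 * r * Real.exp (-(T_psi q1 q2))) / ε := by
    rw [div_div]
    exact div_le_div_of_nonneg_left hC0.le (by positivity) hcge
  refine le_trans ?_ hbound
  set F : ℕ → ℂ := fun l => co χ1 χ2 (r * l) * conj (co χ3 χ4 (s * l)) *
    Ph (wf (T_psi q1 q2) (T_psi q3 q4) ε (r * l) (s * l)) with hF
  have hsum : (∑' p : {p : ℕ × ℕ // (s : ℤ) * p.1 - r * p.2 = 0}, co χ1 χ2 p.1.1 * conj (co χ3 χ4 p.1.2) *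
      Ph (wf (T_psi q1 q2) (T_psi q3 q4) ε p.1.1 p.1.2)) = ∑' l : ℕ, F l :=
    ((Equiv.ofBijective _ (M03_bij hr hrs)).tsum_eq (fun p : {p : ℕ × ℕ // (s : ℤ) * p.1 - r * p.2 = 0} =>
      co χ1 χ2 p.1.1 * conj (co χ3 χ4 p.1.2) * Ph (wf (T_psi q1 q2) (T_psi q3 q4) ε p.1.1 p.1.2))).symm
  rw [hsum]
  have hF0 : F 0 = 0 := by
    simp [hF]
  have hFs : ∀ l : ℕ, F (l + 1) = (c : ℂ)⁻¹ * ((co χ1 χ2 (r * (l + 1)) * conj (co χ3 χ4 (s * (l + 1))) /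
      ((l + 1 : ℕ) : ℂ)) * ((Ps (c * ((l + 1 : ℕ) : ℝ)) : ℝ) : ℂ)) := by
    intro l
    have hl : 0 < ((l + 1 : ℕ) : ℝ) := Nat.cast_pos.2 (Nat.succ_pos l)
    have e1 : Ph (wf (T_psi q1 q2) (T_psi q3 q4) ε (r * (l + 1)) (s * (l + 1))) =
        ((Ps (c * ((l + 1 : ℕ) : ℝ)) / (c * ((l + 1 : ℕ) : ℝ)) : ℝ) : ℂ) := by
      rw [M03_wf hq ε (l + 1)]
      exact (hPs _ (mul_pos hc0 hl)).2.2
    have hl' : (((l + 1 : ℕ) : ℝ) : ℂ) ≠ 0 := ofReal_ne_zero.2 hl.ne'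
    have hc' : (c : ℂ) ≠ 0 := ofReal_ne_zero.2 hc0.ne'
    simp only [hF]
    rw [e1, ofReal_div, ofReal_mul, ofReal_natCast]
    rw [ofReal_natCast] at hl'
    field_simp
  have hpart : ∀ N : ℕ, ‖∑ l ∈ Finset.range N, F l‖ ≤ C0 / c := by
    intro N
    rcases N with _ | n
    · rw [Finset.sum_range_zero, norm_zero]
      positivity
    · rw [Finset.sum_range_succ', hF0, add_zero, Finset.sum_congr rfl (fun l _ => hFs l), ← Finset.mul_sum,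
        norm_mul, norm_inv, Complex.norm_of_nonneg hc0.le, div_eq_inv_mul]
      refine mul_le_mul_of_nonneg_left ?_ (by positivity)
      have hpos : ∀ m : ℕ, 0 < c * ((m + 1 : ℕ) : ℝ) := fun m =>
        mul_pos hc0 (Nat.cast_pos.2 (Nat.succ_pos m))
      have e2 := M03_abel (a := fun l => co χ1 χ2 (r * (l + 1)) * conj (co χ3 χ4 (s * (l + 1))) /
        ((l + 1 : ℕ) : ℂ)) (b := fun l => Ps (c * ((l + 1 : ℕ) : ℝ))) hC0.le ?_ ?_ ?_ n
      · refine e2.trans ?_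
        have := (hPs _ (hpos 0)).2.1
        calc _ ≤ C0 * 1 := mul_le_mul_of_nonneg_left this hC0.le
          _ = C0 := mul_one _
      · intro M
        rw [M03_icc (fun l => co χ1 χ2 (r * l) * conj (co χ3 χ4 (s * l)) / (l : ℂ)) M]
        exact hd M
      · intro m
        refine hanti (hpos m) (hpos (m + 1)) ?_
        refine mul_le_mul_of_nonneg_left ?_ hc0.le
        exact_mod_cast Nat.le_succ (m + 1)
      · intro m
        exact (hPs _ (hpos m)).1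
  by_cases hsF : Summable F
  · have ht := hsF.hasSum.tendsto_sum_nat.norm
    exact le_of_tendsto' ht hpart
  · rw [tsum_eq_zero_of_not_summable hsF, norm_zero]
    positivity

end RQ
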