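import Pool.Agent.Lib.MP_0f5a55_nt.RQ.BR
import Pool.Agent.Lib.MP_0f5a55_nt.RQ.M01
import Pool.Agent.Lib.MP_0f5a55_nt.RQ.M02
import Pool.Agent.Lib.MP_0f5a55_nt.RQ.M03
import Pool.Agent.Lib.MP_0f5a55_nt.FF.F07

open Complex MeasureTheory Set Filter Topology
open scoped Real ComplexConjugate

namespace RQ

open OO

/-- the reduced fraction r/s = q1 q2/sqrt(q1 q2 q3 q4) -/
private theorem F01_frac {P R : ℕ} (hP : 0 < P) (hR : 0 < R) (h : IsSquare (P * R)) :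
    ∃ r s : ℕ, 0 < r ∧ 0 < s ∧ Nat.Coprime r s ∧ P * s ^ 2 = R * r ^ 2 := by
  obtain ⟨t, ht⟩ := h
  have htpos : 0 < t := by
    rcases Nat.eq_zero_or_pos t with h0 | h0
    · subst h0
      have := Nat.mul_pos hP hR
      omega
    · exact h0
  have hg : 0 < Nat.gcd P t := Nat.gcd_pos_of_pos_left _ hP
  obtain ⟨g, r, s, hgpos, hc, hr, hs⟩ : ∃ g r s : ℕ, 0 < g ∧ Nat.Coprime r s ∧ P = r * g ∧
      t = s * g := by
    obtain ⟨r, s, hc, hr, hs⟩ := Nat.exists_coprime P t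
    exact ⟨Nat.gcd P t, r, s, hg, hc, hr, hs⟩
  refine ⟨r, s, ?_, ?_, hc, ?_⟩
  · rcases Nat.eq_zero_or_pos r with h0 | h0
    · subst h0; omega
    · exact h0
  · rcases Nat.eq_zero_or_pos s with h0 | h0
    · subst h0; omega
    · exact h0
  · have e : g * g * (P * s ^ 2) = g * g * (R * r ^ 2) := by
      calc g * g * (P * s ^ 2) = P * ((s * g) * (s * g)) := by ring
        _ = P * (P * R) := by rw [← hs, ht]
        _ = R * (P * P) := by ring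
        _ = R * ((r * g) * (r * g)) := by rw [← hr]
        _ = g * g * (R * r ^ 2) := by ring
    exact Nat.eq_of_mul_eq_mul_left (Nat.mul_pos hgpos hgpos) e

/-- sums over the lines -/
private theorem F01_lines {F : ℕ × ℕ → ℂ} {M : ℂ} (hF : HasSum F M) (r s : ℕ) {C0 C1 e : ℝ}
    (h0 : ‖∑' p : {p : ℕ × ℕ // (s : ℤ) * p.1 - r * p.2 = 0}, F (p.1.1, p.1.2)‖ ≤ C0 / e)
    (h1 : ∀ k : ℤ, k ≠ 0 →
      ‖∑' p : {p : ℕ × ℕ // (s : ℤ) * p.1 - r * p.2 = k}, F (p.1.1, p.1.2)‖ ≤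
        C1 * ((k.natAbs : ℝ) ^ 2)⁻¹ / e) :
    ‖M‖ ≤ (C0 + C1 * ∑' k : ℤ, ((k.natAbs : ℝ) ^ 2)⁻¹) / e := by
  have h2 := hF.tsum_fiberwise (fun p : ℕ × ℕ => (s : ℤ) * p.1 - r * p.2)
  have hsum : Summable (fun k : ℤ => ((k.natAbs : ℝ) ^ 2)⁻¹) := by
    have h := Real.summable_one_div_int_pow.mpr (show 1 < 2 by norm_num)
    refine h.congr fun k => ?_
    rw [one_div, Nat.cast_natAbs, Int.cast_abs, sq_abs]
  have h3 : HasSum (fun k : ℤ => ((if k = 0 then C0 else 0) + C1 * ((k.natAbs : ℝ) ^ 2)⁻¹) / e)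
      ((C0 + C1 * ∑' k : ℤ, ((k.natAbs : ℝ) ^ 2)⁻¹) / e) := by
    apply HasSum.div_const
    apply HasSum.add
    · exact hasSum_ite_eq 0 C0
    · exact hsum.hasSum.mul_left C1
  rw [← h2.tsum_eq]
  refine tsum_of_norm_bounded h3 fun k => ?_
  by_cases hk : k = 0
  · subst hk
    simp only [if_true, Int.natAbs_zero, Nat.cast_zero, ne_eq, OfNat.ofNat_ne_zero,
      not_false_eq_true, zero_pow, inv_zero, mul_zero, add_zero]
    exact h0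
  · simp only [if_neg hk, zero_add]
    exact h1 k hk

/-- The main integral in the rational case. -/
theorem M0_rat {q1 q2 q3 q4 : ℕ} [NeZero q1] [NeZero q2] [NeZero q3] [NeZero q4] {χ1 : DirichletCharacter ℂ q1}
    {χ2 : DirichletCharacter ℂ q2} {χ3 : DirichletCharacter ℂ q3} {χ4 : DirichletCharacter ℂ q4}
    (n12 : Ne12 χ1 χ2) (n34 : Ne12 χ3 χ4) (n13 : Ne12 χ1 χ3) (n14 : Ne12 χ1 χ4) (n23 : Ne12 χ2 χ3)
    (n24 : Ne12 χ2 χ4) (hsq : IsSquare (q1 * q2 * (q3 * q4))) :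
    ∃ C : ℝ, 0 < C ∧ ∀ ε : ℝ, 0 < ε → ε ≤ 1 / 10 →
      ‖M0 (co χ1 χ2) (co χ3 χ4) (T_psi q1 q2) (T_psi q3 q4) ε‖ ≤ C / ε := by
  have hq1 : 0 < q1 * q2 := Nat.mul_pos (NeZero.pos q1) (NeZero.pos q2)
  have hq2 : 0 < q3 * q4 := Nat.mul_pos (NeZero.pos q3) (NeZero.pos q4)
  obtain ⟨r, s, hr, hs, hrs, hq⟩ := F01_frac hq1 hq2 hsq
  obtain ⟨C1, hC1, hL⟩ := line_bound n12 n34 hr hs hq
  obtain ⟨C0, hC0, hD⟩ := diag_bound n13 n14 n23 n24 hr hs hrs hq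
  set S : ℝ := ∑' k : ℤ, ((k.natAbs : ℝ) ^ 2)⁻¹ with hS
  have hS0 : 0 ≤ S := tsum_nonneg fun k => by positivity
  refine ⟨C0 + C1 * S, by positivity, ?_⟩
  intro ε hε hle1
  have hser := (M0_series (al := co χ1 χ2) (be := co χ3 χ4) (fun n => (co_le χ1 χ2 n).2)
    (fun n => (co_le χ3 χ4 n).2) (a := T_psi q1 q2) (b := T_psi q3 q4) hε hle1).1
  exact F01_lines hser r s (C0 := C0) (C1 := C1) (e := ε) (hD ε hε hle1)
    (fun k hk => hL ε hε hle1 k hk)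

/-- Row F01. The rational case. -/
theorem odd4_rat {q1 q2 q3 q4 : ℕ} [NeZero q1] [NeZero q2] [NeZero q3] [NeZero q4] {χ1 : DirichletCharacter ℂ q1}
    {χ2 : DirichletCharacter ℂ q2} {χ3 : DirichletCharacter ℂ q3} {χ4 : DirichletCharacter ℂ q4}
    (h1 : χ1.IsPrimitive) (h2 : χ2.IsPrimitive) (h3 : χ3.IsPrimitive) (h4 : χ4.IsPrimitive)
    (n12 : Ne12 χ1 χ2) (n34 : Ne12 χ3 χ4) (n13 : Ne12 χ1 χ3) (n14 : Ne12 χ1 χ4) (n23 : Ne12 χ2 χ3)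
    (n24 : Ne12 χ2 χ4) (hsq : IsSquare (q1 * q2 * (q3 * q4))) :
    {g : ℝ | 0 < g ∧ Odd (analyticOrderNatAt (LX.Lf χ1) (1 / 2 + g * I) +
      analyticOrderNatAt (LX.Lf χ2) (1 / 2 + g * I) + analyticOrderNatAt (LX.Lf χ3) (1 / 2 + g * I) +
      analyticOrderNatAt (LX.Lf χ4) (1 / 2 + g * I))}.Infinite := by
  obtain ⟨C, hC, H⟩ := M0_rat n12 n34 n13 n14 n23 n24 hsq
  refine FF.odd4_of_bound h1 h2 h3 h4 n12 n13 n14 n23 n24 n34 ⟨C, 1 / 10, by norm_num, by norm_num, ?_⟩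
  intro ε hε hle
  rw [← M0_eq_JJ (NeZero.pos q1) (NeZero.pos q2) (NeZero.pos q3) (NeZero.pos q4)]
  refine (H ε hε hle).trans ?_
  have hlog : 1 ≤ Real.log (1 / ε) := by
    have h1 : Real.exp 1 ≤ 1 / ε := by
      rw [le_div_iff₀ hε]
      have := Real.exp_one_lt_d9
      nlinarith
    rw [Real.le_log_iff_exp_le (by positivity)]
    exact h1
  have h2 : (1 : ℝ) ≤ Real.log (1 / ε) ^ (3 / 4 : ℝ) := Real.one_le_rpow hlog (by norm_num)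
  calc C / ε = C * ε⁻¹ * 1 := by rw [mul_one, div_eq_mul_inv]
    _ ≤ C * ε⁻¹ * Real.log (1 / ε) ^ (3 / 4 : ℝ) := mul_le_mul_of_nonneg_left h2 (by positivity)

end RQ
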