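import Pool.Agent.Lib.MP_0f5a55_nt.RQ.D

open Complex MeasureTheory Set Filter Topology
open scoped Real ComplexConjugate

namespace RQ

private noncomputable def R04_G (F : ℝ → ℝ) (w : ℂ) : ℂ :=
  ∫ u : ℝ, (F u : ℂ) * exp (-(w * (Real.exp u : ℝ)))

private structure R04_Sm (F : ℝ → ℝ) : Prop where
  sm : ContDiff ℝ (⊤ : ℕ∞) F
  sp : ∀ u, u ∉ Icc (-1 : ℝ) 1 → F u = 0

private theorem R04_norm (w : ℂ) (u : ℝ) :
    ‖exp (-(w * (Real.exp u : ℝ)))‖ = Real.exp (-(w.re * Real.exp u)) := by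
  rw [Complex.norm_exp]
  congr 1
  rw [neg_re, re_mul_ofReal]

private theorem R04_quarter {u : ℝ} (hu : -1 ≤ u) : 1 / 4 ≤ Real.exp u := by
  have h1 : Real.exp (-1) ≤ Real.exp u := Real.exp_le_exp.2 hu
  have h2 : 1 / 4 ≤ Real.exp (-1) := by
    rw [Real.exp_neg, ← one_div]
    refine one_div_le_one_div_of_le (Real.exp_pos _) ?_
    have := Real.exp_one_lt_d9
    linarith
  linarith

private theorem R04_dec {w : ℂ} (hw : 0 < w.re) {u : ℝ} (hu : -1 ≤ u) :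
    Real.exp (-(w.re * Real.exp u)) ≤ Real.exp (-(w.re / 4)) := by
  refine Real.exp_le_exp.2 ?_
  have := R04_quarter hu
  nlinarith

private theorem R04_cont (w : ℂ) : Continuous (fun u : ℝ => exp (-(w * (Real.exp u : ℝ)))) := by
  fun_prop

private theorem R04_supp {F : ℝ → ℝ} (hF : R04_Sm F) : HasCompactSupport F :=
  HasCompactSupport.intro (isCompact_Icc (a := (-1 : ℝ)) (b := 1)) hF.sp

private theorem R04_int {F : ℝ → ℝ} (hF : R04_Sm F) : Integrable F :=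
  hF.sm.continuous.integrable_of_hasCompactSupport (R04_supp hF)

private theorem R04_intc {F : ℝ → ℝ} (hF : R04_Sm F) {g : ℝ → ℂ} (hg : Continuous g) :
    Integrable (fun u => (F u : ℂ) * g u) := by
  refine Continuous.integrable_of_hasCompactSupport ?_ ?_
  · exact (Complex.continuous_ofReal.comp hF.sm.continuous).mul hg
  · refine HasCompactSupport.intro (isCompact_Icc (a := (-1 : ℝ)) (b := 1)) (fun u hu => ?_)
    simp [hF.sp u hu]

/-- general bound for integrals against F -/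
private theorem R04_gen {F : ℝ → ℝ} (hF : R04_Sm F) {g : ℝ → ℂ} {B : ℝ}
    (hB : ∀ u, -1 ≤ u → u ≤ 1 → ‖g u‖ ≤ B) :
    ‖∫ u : ℝ, (F u : ℂ) * g u‖ ≤ (∫ u : ℝ, |F u|) * B := by
  rw [← integral_mul_const]
  refine norm_integral_le_of_norm_le ((R04_int hF).norm.mul_const B) (Eventually.of_forall fun u => ?_)
  rw [norm_mul, Complex.norm_real, Real.norm_eq_abs]
  by_cases hu : u ∈ Icc (-1 : ℝ) 1
  · exact mul_le_mul_of_nonneg_left (hB u hu.1 hu.2) (abs_nonneg _)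
  · rw [hF.sp u hu]
    simp

private noncomputable def R04_der (F : ℝ → ℝ) : ℝ → ℝ := deriv (fun u => F u * Real.exp (-u))

private theorem R04_smul {F : ℝ → ℝ} (hF : R04_Sm F) : ContDiff ℝ (⊤ : ℕ∞) (fun u => F u * Real.exp (-u)) :=
  hF.sm.mul (Real.contDiff_exp.comp contDiff_neg)

private theorem R04_deriv_zero {F : ℝ → ℝ} (hF : ∀ u, u ∉ Icc (-1 : ℝ) 1 → F u = 0) {u : ℝ}
    (hu : u ∉ Icc (-1 : ℝ) 1) : deriv F u = 0 := by
  have h : F =ᶠ[𝓝 u] fun _ => (0 : ℝ) := by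
    filter_upwards [isClosed_Icc.isOpen_compl.mem_nhds hu] with v hv
    exact hF v hv
  rw [h.deriv_eq]
  exact deriv_const _ _

private theorem R04_der_sm {F : ℝ → ℝ} (hF : R04_Sm F) : R04_Sm (R04_der F) where
  sm := ((contDiff_infty_iff_deriv (𝕜 := ℝ)).1 (R04_smul hF)).2
  sp := fun u hu => R04_deriv_zero (F := fun u => F u * Real.exp (-u)) (fun v hv => by rw [hF.sp v hv, zero_mul]) hu

private theorem R04_hd (w : ℂ) (u : ℝ) : HasDerivAt (fun u : ℝ => exp (-(w * (Real.exp u : ℝ))))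
    (-(w * (Real.exp u : ℝ)) * exp (-(w * (Real.exp u : ℝ)))) u := by
  have h1 : HasDerivAt (fun u : ℝ => ((Real.exp u : ℝ) : ℂ)) ((Real.exp u : ℝ) : ℂ) u :=
    (Real.hasDerivAt_exp u).ofReal_comp
  have h2 := ((h1.const_mul w).neg).cexp
  refine h2.congr_deriv ?_
  simp only [Pi.neg_apply]
  ring

private theorem R04_step {F : ℝ → ℝ} (hF : R04_Sm F) {w : ℂ} (hw : w ≠ 0) :
    R04_G F w = w⁻¹ * R04_G (R04_der F) w := by
  have h0 : ∫ u : ℝ, ((R04_der F u : ℂ) * exp (-(w * (Real.exp u : ℝ))) -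
      w * ((F u : ℂ) * exp (-(w * (Real.exp u : ℝ))))) = 0 := by
    refine integral_eq_zero_of_hasDerivAt_of_integrable
      (f := fun u : ℝ => ((F u * Real.exp (-u) : ℝ) : ℂ) * exp (-(w * (Real.exp u : ℝ)))) (fun u => ?_) ?_ ?_
    · have hd : HasDerivAt (fun u => F u * Real.exp (-u)) (R04_der F u) u :=
        ((R04_smul hF).differentiable (by simp)).differentiableAt.hasDerivAt
      have := hd.ofReal_comp.mul (R04_hd w u)
      refine this.congr_deriv ?_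
      have he : ((Real.exp (-u) : ℝ) : ℂ) * ((Real.exp u : ℝ) : ℂ) = 1 := by
        rw [← ofReal_mul, ← Real.exp_add, neg_add_cancel, Real.exp_zero, ofReal_one]
      push_cast at he ⊢
      linear_combination (-(F u : ℂ) * w * exp (-(w * exp (u : ℂ)))) * he
    · exact (R04_intc (R04_der_sm hF) (R04_cont w)).sub ((R04_intc hF (R04_cont w)).const_mul w)
    · have := R04_intc hF (g := fun u : ℝ => ((Real.exp (-u) : ℝ) : ℂ) * exp (-(w * (Real.exp u : ℝ)))) (by fun_prop)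
      refine this.congr (Eventually.of_forall fun u => ?_)
      simp only
      push_cast
      ring
  rw [integral_sub (R04_intc (R04_der_sm hF) (R04_cont w)) ((R04_intc hF (R04_cont w)).const_mul w),
    integral_const_mul] at h0
  unfold R04_G
  rw [eq_inv_mul_iff_mul_eq₀ hw]
  exact (sub_eq_zero.1 h0).symm

private theorem R04_ne {w : ℂ} (hw : 0 < w.re) : w ≠ 0 := by
  rintro rfl
  simp at hw

private theorem R04_bound (k : ℕ) : ∀ F : ℝ → ℝ, R04_Sm F → ∃ C : ℝ, 0 ≤ C ∧ ∀ w : ℂ, 0 < w.re →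
    ‖R04_G F w‖ ≤ C * (‖w‖ ^ k)⁻¹ * Real.exp (-(w.re / 4)) := by
  induction k with
  | zero =>
    intro F hF
    refine ⟨∫ u : ℝ, |F u|, integral_nonneg fun u => abs_nonneg _, fun w hw => ?_⟩
    rw [pow_zero, inv_one, mul_one]
    refine R04_gen hF (fun u hu _ => ?_)
    rw [R04_norm]
    exact R04_dec hw hu
  | succ k ih =>
    intro F hF
    obtain ⟨C, hC, h⟩ := ih (R04_der F) (R04_der_sm hF)
    refine ⟨C, hC, fun w hw => ?_⟩
    have hw0 := R04_ne hw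
    rw [R04_step hF hw0, norm_mul, norm_inv]
    have := h w hw
    have hp : 0 < ‖w‖ := norm_pos_iff.2 hw0
    calc ‖w‖⁻¹ * ‖R04_G (R04_der F) w‖ ≤ ‖w‖⁻¹ * (C * (‖w‖ ^ k)⁻¹ * Real.exp (-(w.re / 4))) :=
          mul_le_mul_of_nonneg_left this (by positivity)
      _ = C * (‖w‖ ^ (k + 1))⁻¹ * Real.exp (-(w.re / 4)) := by
          rw [pow_succ, mul_inv]
          ring

private theorem R04_norm_le {w : ℂ} {x : ℝ} (hw : 0 < w.re) (hx : 0 ≤ x) : ‖w‖ ≤ ‖w + x‖ := by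
  rw [Complex.norm_def, Complex.norm_def]
  refine Real.sqrt_le_sqrt ?_
  rw [normSq_apply, normSq_apply]
  simp only [add_re, ofReal_re, add_im, ofReal_im, add_zero]
  nlinarith

private theorem R04_re {w : ℂ} {x : ℝ} (hw : 0 < w.re) (hx : 0 ≤ x) : 0 < (w + x).re := by
  simp only [add_re, ofReal_re]
  linarith

private theorem R04_exple {w : ℂ} {x : ℝ} (hx : 0 ≤ x) :
    Real.exp (-((w + x).re / 4)) ≤ Real.exp (-(w.re / 4)) := by
  refine Real.exp_le_exp.2 ?_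
  simp only [add_re, ofReal_re]
  linarith

private theorem R04_inv_sub {w : ℂ} {x : ℝ} (hw : 0 < w.re) (hx : 0 ≤ x) :
    ‖(w + x)⁻¹ - w⁻¹‖ ≤ x * (‖w‖ ^ 2)⁻¹ := by
  have h1 := R04_ne hw
  have h2 := R04_ne (R04_re hw hx)
  have hp : 0 < ‖w‖ := norm_pos_iff.2 h1
  have hle := R04_norm_le hw hx
  have : (w + x)⁻¹ - w⁻¹ = -(x : ℂ) * ((w + x)⁻¹ * w⁻¹) := by
    field_simp
    ring
  rw [this, norm_mul, norm_neg, Complex.norm_real, Real.norm_eq_abs, abs_of_nonneg hx, norm_mul, norm_inv, norm_inv,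
    pow_two, mul_inv]
  gcongr

/-- bound for G at w + x in terms of w -/
private theorem R04_boundx (k : ℕ) {F : ℝ → ℝ} {C : ℝ} (hC : 0 ≤ C) (h : ∀ w : ℂ, 0 < w.re →
    ‖R04_G F w‖ ≤ C * (‖w‖ ^ k)⁻¹ * Real.exp (-(w.re / 4))) {w : ℂ} {x : ℝ} (hw : 0 < w.re) (hx : 0 ≤ x) :
    ‖R04_G F (w + x)‖ ≤ C * (‖w‖ ^ k)⁻¹ * Real.exp (-(w.re / 4)) := by
  refine (h _ (R04_re hw hx)).trans ?_
  have hp : 0 < ‖w‖ := norm_pos_iff.2 (R04_ne hw)
  have hle := R04_norm_le hw hx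
  have := R04_exple (w := w) hx
  gcongr

private theorem R04_diff0 {F : ℝ → ℝ} (hF : R04_Sm F) : ∃ C : ℝ, 0 ≤ C ∧ ∀ (w : ℂ) (x : ℝ), 0 < w.re → 0 ≤ x →
    ‖R04_G F (w + x) - R04_G F w‖ ≤ C * x * Real.exp (-(w.re / 4)) := by
  refine ⟨(∫ u : ℝ, |F u|) * Real.exp 1, mul_nonneg (integral_nonneg fun u => abs_nonneg _) (Real.exp_pos _).le,
    fun w x hw hx => ?_⟩
  unfold R04_G
  rw [← integral_sub (R04_intc hF (R04_cont _)) (R04_intc hF (R04_cont _))]
  have hrw : ∀ u : ℝ, (F u : ℂ) * exp (-((w + x) * (Real.exp u : ℝ))) - (F u : ℂ) * exp (-(w * (Real.exp u : ℝ))) =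
      (F u : ℂ) * (exp (-(w * (Real.exp u : ℝ))) * (((Real.exp (-(x * Real.exp u)) - 1 : ℝ)) : ℂ)) := by
    intro u
    have : exp (-((w + x) * (Real.exp u : ℝ))) =
        exp (-(w * (Real.exp u : ℝ))) * ((Real.exp (-(x * Real.exp u)) : ℝ) : ℂ) := by
      rw [Complex.ofReal_exp (-(x * Real.exp u)), ← Complex.exp_add]
      congr 1
      push_cast
      ring
    rw [this]
    push_cast
    ring
  simp_rw [hrw]
  refine (R04_gen hF (B := Real.exp (-(w.re / 4)) * (x * Real.exp 1)) (fun u hu hu1 => ?_)).trans (le_of_eq (by ring))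
  rw [norm_mul, R04_norm, Complex.norm_real, Real.norm_eq_abs]
  refine mul_le_mul (R04_dec hw hu) ?_ (abs_nonneg _) (Real.exp_pos _).le
  have h1 : 0 ≤ x * Real.exp u := mul_nonneg hx (Real.exp_pos _).le
  have h2 : Real.exp (-(x * Real.exp u)) ≤ 1 := Real.exp_le_one_iff.2 (by linarith)
  have h3 := Real.add_one_le_exp (-(x * Real.exp u))
  have h4 : x * Real.exp u ≤ x * Real.exp 1 := mul_le_mul_of_nonneg_left (Real.exp_le_exp.2 hu1) hx
  rw [abs_le]
  constructor <;> linarith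

private theorem R04_diff (k : ℕ) : ∀ F : ℝ → ℝ, R04_Sm F → ∃ C : ℝ, 0 ≤ C ∧ ∀ (w : ℂ) (x : ℝ), 0 < w.re → 0 ≤ x →
    ‖R04_G F (w + x) - R04_G F w‖ ≤ C * x * (‖w‖ ^ k)⁻¹ * Real.exp (-(w.re / 4)) := by
  induction k with
  | zero =>
    intro F hF
    obtain ⟨C, hC, h⟩ := R04_diff0 hF
    refine ⟨C, hC, fun w x hw hx => ?_⟩
    rw [pow_zero, inv_one, mul_one]
    exact h w x hw hx
  | succ k ih =>
    intro F hF
    obtain ⟨C0, hC0, h0⟩ := R04_diff0 hF
    obtain ⟨C1, hC1, h1⟩ := ih (R04_der F) (R04_der_sm hF)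
    obtain ⟨C2, hC2, h2⟩ := R04_bound k (R04_der F) (R04_der_sm hF)
    refine ⟨C0 + C1 + C2, by positivity, fun w x hw hx => ?_⟩
    have hw0 := R04_ne hw
    have hp : 0 < ‖w‖ := norm_pos_iff.2 hw0
    rcases le_or_gt ‖w‖ 1 with hle | hgt
    · refine (h0 w x hw hx).trans ?_
      have h3 : 1 ≤ (‖w‖ ^ (k + 1))⁻¹ := (one_le_inv₀ (by positivity)).2 (pow_le_one₀ hp.le hle)
      have h4 : C0 * x ≤ (C0 + C1 + C2) * x := mul_le_mul_of_nonneg_right (by linarith) hx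
      calc C0 * x * Real.exp (-(w.re / 4)) ≤ (C0 + C1 + C2) * x * 1 * Real.exp (-(w.re / 4)) := by
            rw [mul_one]
            exact mul_le_mul_of_nonneg_right h4 (Real.exp_pos _).le
        _ ≤ _ := by gcongr
    · rw [R04_step hF hw0, R04_step hF (R04_ne (R04_re hw hx))]
      have hs : (w + x)⁻¹ * R04_G (R04_der F) (w + x) - w⁻¹ * R04_G (R04_der F) w =
          ((w + x)⁻¹ - w⁻¹) * R04_G (R04_der F) (w + x) +
          w⁻¹ * (R04_G (R04_der F) (w + x) - R04_G (R04_der F) w) := by ring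
      rw [hs]
      refine (norm_add_le _ _).trans ?_
      rw [norm_mul, norm_mul, norm_inv]
      have e1 := R04_inv_sub hw hx
      have e2 := R04_boundx k hC2 h2 hw hx
      have e3 := h1 w x hw hx
      have e4 : (‖w‖ ^ 2)⁻¹ ≤ ‖w‖⁻¹ := by
        refine inv_anti₀ hp ?_
        nlinarith
      have e5 : ‖(w + x)⁻¹ - w⁻¹‖ * ‖R04_G (R04_der F) (w + x)‖ ≤
          (x * ‖w‖⁻¹) * (C2 * (‖w‖ ^ k)⁻¹ * Real.exp (-(w.re / 4))) := by
        refine mul_le_mul (e1.trans (mul_le_mul_of_nonneg_left e4 hx)) e2 (norm_nonneg _) (by positivity)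
      have e6 : ‖w‖⁻¹ * ‖R04_G (R04_der F) (w + x) - R04_G (R04_der F) w‖ ≤
          ‖w‖⁻¹ * (C1 * x * (‖w‖ ^ k)⁻¹ * Real.exp (-(w.re / 4))) := mul_le_mul_of_nonneg_left e3 (by positivity)
      have e7 : 0 ≤ C0 * x * (‖w‖ ^ (k + 1))⁻¹ * Real.exp (-(w.re / 4)) := by positivity
      have e8 : (x * ‖w‖⁻¹) * (C2 * (‖w‖ ^ k)⁻¹ * Real.exp (-(w.re / 4))) +
          ‖w‖⁻¹ * (C1 * x * (‖w‖ ^ k)⁻¹ * Real.exp (-(w.re / 4))) =
          (C1 + C2) * x * (‖w‖ ^ (k + 1))⁻¹ * Real.exp (-(w.re / 4)) := by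
        rw [pow_succ, mul_inv]
        ring
      nlinarith

private theorem R04_tau_sm : R04_Sm (deriv TT.tau) where
  sm := ((contDiff_infty_iff_deriv (𝕜 := ℝ)).1 (TT.tau_contDiff (n := ⊤))).2
  sp := fun u hu => by
    rw [mem_Icc, not_and_or, not_le, not_le] at hu
    rcases hu with h | h
    · have : TT.tau =ᶠ[𝓝 u] fun _ => (0 : ℝ) := by
        filter_upwards [Iio_mem_nhds h] with v hv
        exact TT.tau_zero (mem_Iio.1 hv).le
      rw [this.deriv_eq]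
      exact deriv_const _ _
    · have : TT.tau =ᶠ[𝓝 u] fun _ => (1 : ℝ) := by
        filter_upwards [Ioi_mem_nhds h] with v hv
        exact TT.tau_one (mem_Ioi.1 hv).le
      rw [this.deriv_eq]
      exact deriv_const _ _

/-- exp(-σ e^u) is at most 2 / (σ e^u)^2 -/
private theorem R04_expb {σ : ℝ} (hσ : 0 < σ) (u : ℝ) :
    Real.exp (-(σ * Real.exp u)) ≤ 2 / σ ^ 2 * Real.exp (-(2 * u)) := by
  have hy : 0 < σ * Real.exp u := mul_pos hσ (Real.exp_pos _)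
  have h1 : (σ * Real.exp u) ^ 2 / 2 ≤ Real.exp (σ * Real.exp u) := by
    have := Real.quadratic_le_exp_of_nonneg hy.le
    linarith
  rw [Real.exp_neg]
  have h2 : (Real.exp (σ * Real.exp u))⁻¹ ≤ ((σ * Real.exp u) ^ 2 / 2)⁻¹ := inv_anti₀ (by positivity) h1
  refine h2.trans (le_of_eq ?_)
  rw [show -(2 * u) = -(u + u) by ring, Real.exp_neg, Real.exp_add]
  field_simp

private theorem R04_integrable {f : ℝ → ℂ} (hf : Continuous f) (h0 : ∀ u, u ≤ -1 → f u = 0) {C : ℝ}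
    (hC : ∀ u, -1 < u → ‖f u‖ ≤ C * Real.exp (-u)) : Integrable f := by
  rw [← integrableOn_univ, ← Iic_union_Ioi (a := (-1 : ℝ))]
  refine IntegrableOn.union ?_ ?_
  · exact (integrableOn_congr_fun (g := fun _ => (0 : ℂ)) (fun u hu => h0 u hu) measurableSet_Iic).2 integrableOn_zero
  · have h1 : IntegrableOn (fun u : ℝ => C * Real.exp (-1 * u)) (Ioi (-1)) :=
      (exp_neg_integrableOn_Ioi (-1) one_pos).const_mul C
    refine Integrable.mono' h1 hf.aestronglyMeasurable.restrict ?_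
    refine (ae_restrict_iff' measurableSet_Ioi).2 (Eventually.of_forall fun u hu => ?_)
    rw [neg_one_mul]
    exact hC u hu

private theorem R04_Ph {w : ℂ} (hw : 0 < w.re) : Ph w = w⁻¹ * R04_G (deriv TT.tau) w := by
  have hc : Continuous (fun u : ℝ => ((TT.tau u : ℝ) : ℂ)) := Complex.continuous_ofReal.comp TT.tau_cont
  have i1 : Integrable (fun u : ℝ => ((TT.tau u * Real.exp u : ℝ) : ℂ) * exp (-(w * (Real.exp u : ℝ)))) := by
    refine R04_integrable (C := 2 / w.re ^ 2) ?_ (fun u hu => ?_) (fun u hu => ?_)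
    · have := (hc.mul (Complex.continuous_ofReal.comp Real.continuous_exp)).mul (R04_cont w)
      refine this.congr (fun u => ?_)
      simp only [Pi.mul_apply, Function.comp, ofReal_mul]
    · rw [TT.tau_zero hu]
      simp
    · rw [norm_mul, R04_norm, Complex.norm_real, Real.norm_eq_abs, abs_of_nonneg (mul_nonneg (TT.tau_nonneg u) (Real.exp_pos _).le)]
      have h1 := R04_expb hw u
      have h2 : TT.tau u * Real.exp u ≤ Real.exp u := mul_le_of_le_one_left (Real.exp_pos _).le (TT.tau_le_one u)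
      calc TT.tau u * Real.exp u * Real.exp (-(w.re * Real.exp u))
          ≤ Real.exp u * (2 / w.re ^ 2 * Real.exp (-(2 * u))) :=
            mul_le_mul h2 h1 (Real.exp_pos _).le (Real.exp_pos _).le
        _ = 2 / w.re ^ 2 * Real.exp (-u) := by
            rw [show -u = u + -(2 * u) by ring, Real.exp_add]
            ring
  have i2 : Integrable (fun u : ℝ => ((TT.tau u : ℝ) : ℂ) * exp (-(w * (Real.exp u : ℝ)))) := by
    refine R04_integrable (C := 2 / w.re ^ 2 * Real.exp 1) (hc.mul (R04_cont w)) (fun u hu => ?_) (fun u hu => ?_)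
    · rw [TT.tau_zero hu]
      simp
    · rw [norm_mul, R04_norm, Complex.norm_real, Real.norm_eq_abs, abs_of_nonneg (TT.tau_nonneg u)]
      have h1 := R04_expb hw u
      calc TT.tau u * Real.exp (-(w.re * Real.exp u))
          ≤ 1 * (2 / w.re ^ 2 * Real.exp (-(2 * u))) :=
            mul_le_mul (TT.tau_le_one u) h1 (Real.exp_pos _).le zero_le_one
        _ = 2 / w.re ^ 2 * Real.exp (-u) * Real.exp (-u) := by
            rw [show -(2 * u) = -u + -u by ring, Real.exp_add]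
            ring
        _ ≤ 2 / w.re ^ 2 * Real.exp 1 * Real.exp (-u) := by
            have : Real.exp (-u) ≤ Real.exp 1 := Real.exp_le_exp.2 (by linarith)
            gcongr
  have i3 := R04_intc R04_tau_sm (R04_cont w)
  have h0 : ∫ u : ℝ, (((deriv TT.tau u : ℝ) : ℂ) * exp (-(w * (Real.exp u : ℝ))) -
      w * (((TT.tau u * Real.exp u : ℝ) : ℂ) * exp (-(w * (Real.exp u : ℝ))))) = 0 := by
    refine integral_eq_zero_of_hasDerivAt_of_integrable
      (f := fun u : ℝ => ((TT.tau u : ℝ) : ℂ) * exp (-(w * (Real.exp u : ℝ)))) (fun u => ?_) (i3.sub (i1.const_mul w)) i2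
    have hd : HasDerivAt TT.tau (deriv TT.tau u) u :=
      ((TT.tau_contDiff (n := ⊤)).differentiable (by simp)).differentiableAt.hasDerivAt
    have := hd.ofReal_comp.mul (R04_hd w u)
    refine this.congr_deriv ?_
    push_cast
    ring
  rw [integral_sub i3 (i1.const_mul w), integral_const_mul] at h0
  unfold Ph R04_G
  rw [eq_inv_mul_iff_mul_eq₀ (R04_ne hw)]
  exact (sub_eq_zero.1 h0).symm

/-- Row R04. Repeated integration by parts. -/
theorem Ph_bound (A : ℕ) (hA : 1 ≤ A) : ∃ C : ℝ, 0 < C ∧ ∀ w : ℂ, 0 < w.re →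
    ‖Ph w‖ ≤ C * (‖w‖ ^ A)⁻¹ * Real.exp (-(w.re / 4)) := by
  obtain ⟨k, rfl⟩ : ∃ k, A = k + 1 := ⟨A - 1, by omega⟩
  obtain ⟨C, hC, h⟩ := R04_bound k _ R04_tau_sm
  refine ⟨C + 1, by linarith, fun w hw => ?_⟩
  have hp : 0 < ‖w‖ := norm_pos_iff.2 (R04_ne hw)
  rw [R04_Ph hw, norm_mul, norm_inv]
  calc ‖w‖⁻¹ * ‖R04_G (deriv TT.tau) w‖ ≤ ‖w‖⁻¹ * (C * (‖w‖ ^ k)⁻¹ * Real.exp (-(w.re / 4))) :=
        mul_le_mul_of_nonneg_left (h w hw) (by positivity)
    _ = C * (‖w‖ ^ (k + 1))⁻¹ * Real.exp (-(w.re / 4)) := by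
        rw [pow_succ, mul_inv]
        ring
    _ ≤ (C + 1) * (‖w‖ ^ (k + 1))⁻¹ * Real.exp (-(w.re / 4)) := by
        gcongr
        linarith

/-- variation -/
theorem Ph_diff (A : ℕ) (hA : 2 ≤ A) : ∃ C : ℝ, 0 < C ∧ ∀ (w : ℂ) (x : ℝ), 0 < w.re → 0 ≤ x →
    ‖Ph (w + x) - Ph w‖ ≤ C * x * (‖w‖ ^ A)⁻¹ * Real.exp (-(w.re / 4)) := by
  obtain ⟨k, rfl⟩ : ∃ k, A = k + 2 := ⟨A - 2, by omega⟩
  obtain ⟨C1, hC1, h1⟩ := R04_diff (k + 1) _ R04_tau_sm
  obtain ⟨C2, hC2, h2⟩ := R04_bound k _ R04_tau_sm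
  refine ⟨C1 + C2 + 1, by linarith, fun w x hw hx => ?_⟩
  have hw0 := R04_ne hw
  have hp : 0 < ‖w‖ := norm_pos_iff.2 hw0
  rw [R04_Ph hw, R04_Ph (R04_re hw hx)]
  have hs : (w + x)⁻¹ * R04_G (deriv TT.tau) (w + x) - w⁻¹ * R04_G (deriv TT.tau) w =
      ((w + x)⁻¹ - w⁻¹) * R04_G (deriv TT.tau) (w + x) +
      w⁻¹ * (R04_G (deriv TT.tau) (w + x) - R04_G (deriv TT.tau) w) := by ring
  rw [hs]
  refine (norm_add_le _ _).trans ?_
  rw [norm_mul, norm_mul, norm_inv]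
  have e1 := R04_inv_sub hw hx
  have e2 := R04_boundx k hC2 h2 hw hx
  have e3 := h1 w x hw hx
  have e5 : ‖(w + x)⁻¹ - w⁻¹‖ * ‖R04_G (deriv TT.tau) (w + x)‖ ≤
      (x * (‖w‖ ^ 2)⁻¹) * (C2 * (‖w‖ ^ k)⁻¹ * Real.exp (-(w.re / 4))) :=
    mul_le_mul e1 e2 (norm_nonneg _) (by positivity)
  have e6 : ‖w‖⁻¹ * ‖R04_G (deriv TT.tau) (w + x) - R04_G (deriv TT.tau) w‖ ≤
      ‖w‖⁻¹ * (C1 * x * (‖w‖ ^ (k + 1))⁻¹ * Real.exp (-(w.re / 4))) := mul_le_mul_of_nonneg_left e3 (by positivity)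
  have e7 : 0 ≤ 1 * x * (‖w‖ ^ (k + 2))⁻¹ * Real.exp (-(w.re / 4)) := by positivity
  have e8 : (x * (‖w‖ ^ 2)⁻¹) * (C2 * (‖w‖ ^ k)⁻¹ * Real.exp (-(w.re / 4))) +
      ‖w‖⁻¹ * (C1 * x * (‖w‖ ^ (k + 1))⁻¹ * Real.exp (-(w.re / 4))) =
      (C1 + C2) * x * (‖w‖ ^ (k + 2))⁻¹ * Real.exp (-(w.re / 4)) := by
    rw [pow_add ‖w‖ k 2, pow_succ ‖w‖ k, mul_inv, mul_inv]
    ring
  nlinarith

private theorem R04_deriv_nonneg (u : ℝ) : 0 ≤ deriv TT.tau u := TT.tau_mono.deriv_nonneg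

/-- real argument: Phi(ρ) = Psi(ρ)/ρ with Psi decreasing, 0 ≤ Psi ≤ 1 -/
theorem Ph_real : ∃ Ps : ℝ → ℝ, AntitoneOn Ps (Ioi 0) ∧ (∀ ρ : ℝ, 0 < ρ → 0 ≤ Ps ρ ∧ Ps ρ ≤ 1 ∧
    Ph (ρ : ℂ) = ((Ps ρ / ρ : ℝ) : ℂ)) ∧ Tendsto Ps atTop (𝓝 0) := by
  have hint : ∀ ρ : ℝ, Integrable (fun u : ℝ => deriv TT.tau u * Real.exp (-(ρ * Real.exp u))) := by
    intro ρ
    refine Continuous.integrable_of_hasCompactSupport ?_ ?_
    · exact R04_tau_sm.sm.continuous.mul (by fun_prop)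
    · refine HasCompactSupport.intro (isCompact_Icc (a := (-1 : ℝ)) (b := 1)) (fun u hu => ?_)
      rw [R04_tau_sm.sp u hu, zero_mul]
  have hG : ∀ ρ : ℝ, R04_G (deriv TT.tau) (ρ : ℂ) =
      ((∫ u : ℝ, deriv TT.tau u * Real.exp (-(ρ * Real.exp u)) : ℝ) : ℂ) := by
    intro ρ
    rw [← integral_complex_ofReal]
    unfold R04_G
    refine integral_congr_ae (Eventually.of_forall fun u => ?_)
    simp only
    push_cast
    ring
  have hone : ∫ u : ℝ, deriv TT.tau u = 1 := by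
    have h1 : ∫ u : ℝ, deriv TT.tau u = ∫ u in Ioc (-1 : ℝ) 1, deriv TT.tau u := by
      refine (setIntegral_eq_integral_of_forall_compl_eq_zero (fun u hu => ?_)).symm
      by_cases h : u ∈ Icc (-1 : ℝ) 1
      · have : u = -1 := by
          by_contra hne
          exact hu ⟨lt_of_le_of_ne h.1 (Ne.symm hne), h.2⟩
        rw [this]
        have hc : Tendsto (deriv TT.tau) (𝓝[<] (-1)) (𝓝 (deriv TT.tau (-1))) :=
          (R04_tau_sm.sm.continuous.tendsto (-1)).mono_left nhdsWithin_le_nhds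
        have hz : Tendsto (deriv TT.tau) (𝓝[<] (-1)) (𝓝 0) := by
          refine tendsto_const_nhds.congr' ?_
          filter_upwards [self_mem_nhdsWithin] with v hv
          exact (R04_tau_sm.sp v (fun hh => absurd hh.1 (not_le.2 hv))).symm
        exact tendsto_nhds_unique hc hz
      · exact R04_tau_sm.sp u h
    rw [h1, ← intervalIntegral.integral_of_le (by norm_num : (-1 : ℝ) ≤ 1)]
    rw [intervalIntegral.integral_deriv_eq_sub]
    · rw [TT.tau_one le_rfl, TT.tau_zero le_rfl, sub_zero]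
    · intro u _
      exact ((TT.tau_contDiff (n := ⊤)).differentiable (by simp)).differentiableAt
    · exact R04_tau_sm.sm.continuous.intervalIntegrable _ _
  refine ⟨fun ρ => ∫ u : ℝ, deriv TT.tau u * Real.exp (-(ρ * Real.exp u)), ?_, ?_, ?_⟩
  · intro a _ b _ hab
    refine integral_mono (hint b) (hint a) (fun u => ?_)
    refine mul_le_mul_of_nonneg_left (Real.exp_le_exp.2 ?_) (R04_deriv_nonneg u)
    have := Real.exp_pos u
    nlinarith
  · intro ρ hρ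
    refine ⟨integral_nonneg fun u => mul_nonneg (R04_deriv_nonneg u) (Real.exp_pos _).le, ?_, ?_⟩
    · rw [← hone]
      refine integral_mono (hint ρ) (R04_int R04_tau_sm) (fun u => ?_)
      refine mul_le_of_le_one_right (R04_deriv_nonneg u) (Real.exp_le_one_iff.2 ?_)
      have := mul_pos hρ (Real.exp_pos u)
      linarith
    · rw [R04_Ph (by simpa using hρ), hG]
      push_cast
      ring
  · obtain ⟨C, hC, h⟩ := R04_bound 0 _ R04_tau_sm
    have hlim : Tendsto (fun ρ : ℝ => C * Real.exp (-(ρ / 4))) atTop (𝓝 0) := by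
      have h1 : Tendsto (fun ρ : ℝ => Real.exp (-(ρ / 4))) atTop (𝓝 0) :=
        Real.tendsto_exp_neg_atTop_nhds_zero.comp (tendsto_id.atTop_div_const (by norm_num))
      simpa using h1.const_mul C
    refine squeeze_zero' ?_ ?_ hlim
    · exact Eventually.of_forall fun ρ => integral_nonneg fun u => mul_nonneg (R04_deriv_nonneg u) (Real.exp_pos _).le
    · filter_upwards [eventually_gt_atTop 0] with ρ hρ
      have := h (ρ : ℂ) (by simpa using hρ)
      rw [hG, Complex.norm_real, Real.norm_eq_abs, pow_zero, inv_one, mul_one, ofReal_re] at this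
      exact (le_abs_self _).trans this

end RQ
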