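import Pool.Agent.Lib.MP_0f5a55_nt.RQ.D

open Complex Finset
open scoped Real ComplexConjugate

namespace RQ

theorem S03_K_nonneg {f : ℕ → ℂ} {K : ℝ} (hf : CM f K) : 0 ≤ K := by
  have := hf.2.2 0
  simpa using this

/-- Row S03. Abel summation: partial sums of f(n)/n. -/
theorem CM_div {f : ℕ → ℂ} {K : ℝ} (hf : CM f K) (x : ℕ) : ‖∑ n ∈ Icc 1 x, f n / n‖ ≤ K := by
  have hK := S03_K_nonneg hf
  have hS := hf.2.2
  have key : ∀ x : ℕ, ‖∑ n ∈ Icc 1 x, f n / n - (∑ n ∈ Icc 1 x, f n) / ((x : ℂ) + 1)‖ ≤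
      K * (1 - 1 / ((x : ℝ) + 1)) := by
    intro x
    induction x with
    | zero => simp
    | succ x ih =>
      have hx1 : (0 : ℝ) < (x : ℝ) + 1 := by positivity
      have hx2 : (0 : ℝ) < (x : ℝ) + 2 := by positivity
      have hx1' : ((x : ℂ) + 1) ≠ 0 := by exact_mod_cast hx1.ne'
      have hx2' : ((x : ℂ) + 2) ≠ 0 := by exact_mod_cast hx2.ne'
      have e : ∑ n ∈ Icc 1 (x + 1), f n / n - (∑ n ∈ Icc 1 (x + 1), f n) / (((x + 1 : ℕ) : ℂ) + 1) =
          (∑ n ∈ Icc 1 x, f n / n - (∑ n ∈ Icc 1 x, f n) / ((x : ℂ) + 1)) +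
          (∑ n ∈ Icc 1 (x + 1), f n) * (1 / ((x : ℂ) + 1) - 1 / ((x : ℂ) + 2)) := by
        rw [Finset.sum_Icc_succ_top (by omega), Finset.sum_Icc_succ_top (by omega)]
        push_cast
        rw [show ((x : ℂ) + 1 + 1) = (x : ℂ) + 2 by ring]
        field_simp
        ring
      rw [e]
      have e2 : ‖(1 / ((x : ℂ) + 1) - 1 / ((x : ℂ) + 2))‖ = 1 / ((x : ℝ) + 1) - 1 / ((x : ℝ) + 2) := by
        have h1 : (1 / ((x : ℂ) + 1) - 1 / ((x : ℂ) + 2)) =
            ((1 / ((x : ℝ) + 1) - 1 / ((x : ℝ) + 2) : ℝ) : ℂ) := by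
          push_cast
          ring
        rw [h1, Complex.norm_real, Real.norm_eq_abs, abs_of_nonneg]
        rw [sub_nonneg]
        exact one_div_le_one_div_of_le hx1 (by linarith)
      have e3 : ‖(∑ n ∈ Icc 1 (x + 1), f n) * (1 / ((x : ℂ) + 1) - 1 / ((x : ℂ) + 2))‖ ≤
          K * (1 / ((x : ℝ) + 1) - 1 / ((x : ℝ) + 2)) := by
        rw [norm_mul, e2]
        refine mul_le_mul_of_nonneg_right (hS (x + 1)) ?_
        rw [sub_nonneg]
        exact one_div_le_one_div_of_le hx1 (by linarith)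
      refine (norm_add_le _ _).trans ((add_le_add ih e3).trans (le_of_eq ?_))
      push_cast
      rw [show ((x : ℝ) + 1 + 1) = (x : ℝ) + 2 by ring]
      ring
  have h1 := key x
  have hx1 : (0 : ℝ) < (x : ℝ) + 1 := by positivity
  have h2 : ‖(∑ n ∈ Icc 1 x, f n) / ((x : ℂ) + 1)‖ ≤ K * (1 / ((x : ℝ) + 1)) := by
    rw [norm_div, show ‖((x : ℂ) + 1)‖ = (x : ℝ) + 1 by
      rw [show ((x : ℂ) + 1) = (((x : ℝ) + 1 : ℝ) : ℂ) by push_cast; ring, Complex.norm_real,
        Real.norm_eq_abs, abs_of_pos hx1]]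
    rw [div_eq_mul_one_div]
    exact mul_le_mul_of_nonneg_right (hS x) (by positivity)
  calc ‖∑ n ∈ Icc 1 x, f n / n‖ = ‖(∑ n ∈ Icc 1 x, f n / n - (∑ n ∈ Icc 1 x, f n) / ((x : ℂ) + 1)) +
        (∑ n ∈ Icc 1 x, f n) / ((x : ℂ) + 1)‖ := by
        congr 1
        ring
    _ ≤ K * (1 - 1 / ((x : ℝ) + 1)) + K * (1 / ((x : ℝ) + 1)) :=
        (norm_add_le _ _).trans (add_le_add h1 h2)
    _ = K := by ring

/-- Moebius detection of coprimality -/
theorem S03_moebius {d u D : ℕ} (hd : 1 ≤ d) (hdD : d ≤ D) :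
    (∑ j ∈ Icc 1 D, if j ∣ d ∧ j ∣ u then ArithmeticFunction.moebius j else 0) =
      if Nat.Coprime d u then 1 else 0 := by
  have hg : Nat.gcd d u ≠ 0 := (Nat.gcd_pos_of_pos_left u hd).ne'
  have h1 : ∑ j ∈ (Nat.gcd d u).divisors, ArithmeticFunction.moebius j =
      if Nat.Coprime d u then 1 else 0 := by
    rw [← ArithmeticFunction.coe_mul_zeta_apply, ArithmeticFunction.moebius_mul_coe_zeta,
      ArithmeticFunction.one_apply]
  rw [← h1, ← Finset.sum_filter]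
  refine Finset.sum_congr ?_ (fun _ _ => rfl)
  ext j
  simp only [Finset.mem_filter, Finset.mem_Icc, Nat.mem_divisors]
  constructor
  · rintro ⟨⟨_, _⟩, h2, h3⟩
    exact ⟨Nat.dvd_gcd h2 h3, hg⟩
  · rintro ⟨h2, _⟩
    have h3 : j ∣ d := h2.trans (Nat.gcd_dvd_left d u)
    have h4 : j ∣ u := h2.trans (Nat.gcd_dvd_right d u)
    exact ⟨⟨Nat.pos_of_dvd_of_pos h3 hd, (Nat.le_of_dvd hd h3).trans hdD⟩, h3, h4⟩

/-- sum over the multiples of j -/
theorem S03_mult {f : ℕ → ℂ} {K : ℝ} (hf : CM f K) {j : ℕ} (hj : 1 ≤ j) (D : ℕ) :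
    ∑ d ∈ Icc 1 D, (if j ∣ d then f d / d else 0) = f j / j * ∑ d ∈ Icc 1 (D / j), f d / d := by
  rw [← Finset.sum_filter, Finset.mul_sum]
  symm
  refine Finset.sum_nbij (fun d => j * d) ?_ ?_ ?_ ?_
  · intro d hd
    rw [Finset.mem_Icc] at hd
    simp only [Finset.mem_filter, Finset.mem_Icc]
    refine ⟨⟨Nat.mul_pos hj hd.1, ?_⟩, Dvd.intro _ rfl⟩
    exact (Nat.mul_le_mul_left j hd.2).trans (Nat.mul_div_le D j)
  · intro a _ b _ h
    exact Nat.eq_of_mul_eq_mul_left hj h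
  · intro d hd
    simp only [Finset.coe_filter, Finset.mem_Icc, Set.mem_ofPred_eq] at hd
    obtain ⟨⟨h1, h2⟩, c, rfl⟩ := hd
    refine ⟨c, ?_, rfl⟩
    simp only [Finset.coe_Icc, Set.mem_Icc]
    refine ⟨Nat.pos_of_ne_zero (fun h => by simp [h] at h1), ?_⟩
    exact (Nat.le_div_iff_mul_le hj).2 (by rwa [mul_comm])
  · intro d _
    rw [hf.1]
    push_cast
    rw [div_mul_div_comm]

theorem S03_sq (D : ℕ) : ∑ j ∈ Icc 1 D, (1 : ℝ) / (j : ℝ) ^ 2 ≤ 2 := by
  have key : ∀ D : ℕ, ∑ j ∈ Icc 1 (D + 1), (1 : ℝ) / (j : ℝ) ^ 2 ≤ 2 - 1 / ((D : ℝ) + 1) := by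
    intro D
    induction D with
    | zero => norm_num
    | succ D ih =>
      rw [Finset.sum_Icc_succ_top (by omega)]
      have h1 : (0 : ℝ) < (D : ℝ) + 1 := by positivity
      have h2 : (0 : ℝ) < (D : ℝ) + 2 := by positivity
      have h3 : (1 : ℝ) / ((D + 1 + 1 : ℕ) : ℝ) ^ 2 ≤ 1 / ((D : ℝ) + 1) - 1 / ((D : ℝ) + 2) := by
        rw [show (1 : ℝ) / ((D : ℝ) + 1) - 1 / ((D : ℝ) + 2) = 1 / (((D : ℝ) + 1) * ((D : ℝ) + 2)) by
          field_simp; ring]
        refine one_div_le_one_div_of_le (by positivity) ?_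
        push_cast
        nlinarith
      push_cast at h3 ⊢
      rw [show (D : ℝ) + 1 + 1 = (D : ℝ) + 2 by ring] at h3 ⊢
      linarith
  rcases Nat.eq_zero_or_pos D with h0 | h0
  · subst h0
    norm_num
  · obtain ⟨n, rfl⟩ : ∃ n, D = n + 1 := ⟨D - 1, by omega⟩
    have h := key n
    have : (0 : ℝ) ≤ 1 / ((n : ℝ) + 1) := by positivity
    linarith

/-- Coprime double sums are bounded. -/
theorem cop_sum {f g : ℕ → ℂ} {K : ℝ} (hf : CM f K) (hg : CM g K) (D U : ℕ) :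
    ‖∑ d ∈ Icc 1 D, ∑ u ∈ Icc 1 U, if Nat.Coprime d u then f d * g u / (d * u) else 0‖ ≤ 2 * K ^ 2 := by
  have hK := S03_K_nonneg hf
  have e : ∑ d ∈ Icc 1 D, ∑ u ∈ Icc 1 U, (if Nat.Coprime d u then f d * g u / (d * u) else 0) =
      ∑ j ∈ Icc 1 D, ((ArithmeticFunction.moebius j : ℤ) : ℂ) *
        ((f j / j * ∑ d ∈ Icc 1 (D / j), f d / d) * (g j / j * ∑ u ∈ Icc 1 (U / j), g u / u)) := by
    have e1 : ∀ d ∈ Icc 1 D, ∀ u ∈ Icc 1 U, (if Nat.Coprime d u then f d * g u / (d * u) else 0) =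
        ∑ j ∈ Icc 1 D, ((ArithmeticFunction.moebius j : ℤ) : ℂ) *
          ((if j ∣ d then f d / d else 0) * (if j ∣ u then g u / u else 0)) := by
      intro d hd u _
      rw [Finset.mem_Icc] at hd
      have hm := S03_moebius (u := u) hd.1 hd.2
      have hm' := congrArg (fun z : ℤ => (z : ℂ)) hm
      simp only [Int.cast_sum, Int.cast_ite, Int.cast_one, Int.cast_zero] at hm'
      calc (if Nat.Coprime d u then f d * g u / (d * u) else 0)
          = (if Nat.Coprime d u then (1 : ℂ) else 0) * (f d / d * (g u / u)) := by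
            split_ifs
            · rw [one_mul, div_mul_div_comm]
            · rw [zero_mul]
        _ = _ := by
            rw [← hm', Finset.sum_mul]
            refine Finset.sum_congr rfl (fun j _ => ?_)
            by_cases h1 : j ∣ d
            · by_cases h2 : j ∣ u
              · simp [h1, h2]
              · simp [h1, h2]
            · simp [h1]
    calc _ = ∑ d ∈ Icc 1 D, ∑ u ∈ Icc 1 U, ∑ j ∈ Icc 1 D, ((ArithmeticFunction.moebius j : ℤ) : ℂ) *
          ((if j ∣ d then f d / d else 0) * (if j ∣ u then g u / u else 0)) :=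
          Finset.sum_congr rfl (fun d hd => Finset.sum_congr rfl (fun u hu => e1 d hd u hu))
      _ = ∑ j ∈ Icc 1 D, ∑ d ∈ Icc 1 D, ∑ u ∈ Icc 1 U, ((ArithmeticFunction.moebius j : ℤ) : ℂ) *
          ((if j ∣ d then f d / d else 0) * (if j ∣ u then g u / u else 0)) := by
          rw [Finset.sum_comm (s := Icc 1 D) (t := Icc 1 D)]
          exact Finset.sum_congr rfl (fun d _ => Finset.sum_comm)
      _ = _ := by
          refine Finset.sum_congr rfl (fun j hj => ?_)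
          rw [Finset.mem_Icc] at hj
          rw [← S03_mult hf hj.1 D, ← S03_mult hg hj.1 U, Finset.sum_mul_sum, Finset.mul_sum]
          refine Finset.sum_congr rfl (fun d _ => ?_)
          rw [Finset.mul_sum]
  rw [e]
  calc _ ≤ ∑ j ∈ Icc 1 D, K ^ 2 * (1 / (j : ℝ) ^ 2) := by
        refine norm_sum_le_of_le _ (fun j hj => ?_)
        rw [Finset.mem_Icc] at hj
        have hj0 : (0 : ℝ) < j := by exact_mod_cast hj.1
        have m1 : ‖((ArithmeticFunction.moebius j : ℤ) : ℂ)‖ ≤ 1 := by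
          rw [Complex.norm_intCast]
          exact_mod_cast ArithmeticFunction.abs_moebius_le_one
        have m2 : ∀ {h : ℕ → ℂ}, CM h K → ∀ D : ℕ, ‖h j / j * ∑ d ∈ Icc 1 D, h d / d‖ ≤ 1 / j * K := by
          intro h hh D
          rw [norm_mul]
          refine mul_le_mul ?_ (CM_div hh D) (norm_nonneg _) (by positivity)
          rw [norm_div, Complex.norm_natCast]
          exact div_le_div_of_nonneg_right (hh.2.1 j) hj0.le
        rw [norm_mul, norm_mul]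
        calc _ ≤ 1 * ((1 / j * K) * (1 / j * K)) :=
              mul_le_mul m1 (mul_le_mul (m2 hf _) (m2 hg _) (norm_nonneg _) (by positivity))
                (by positivity) zero_le_one
          _ = K ^ 2 * (1 / (j : ℝ) ^ 2) := by
              field_simp
    _ = K ^ 2 * ∑ j ∈ Icc 1 D, (1 / (j : ℝ) ^ 2) := by rw [Finset.mul_sum]
    _ ≤ K ^ 2 * 2 := mul_le_mul_of_nonneg_left (S03_sq D) (by positivity)
    _ = 2 * K ^ 2 := by ring

/-- the quotient character as a Dirichlet character of modulus N -/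
noncomputable def S03_psi {q1 q2 N : ℕ} (χ1 : DirichletCharacter ℂ q1) (χ2 : DirichletCharacter ℂ q2)
    (d1 : q1 ∣ N) (d2 : q2 ∣ N) : DirichletCharacter ℂ N :=
  DirichletCharacter.changeLevel d1 χ1 * (DirichletCharacter.changeLevel d2 χ2)⁻¹

theorem S03_level {q N : ℕ} (χ : DirichletCharacter ℂ q) (d : q ∣ N) {n : ℕ} (hn : n.Coprime N) :
    DirichletCharacter.changeLevel d χ (n : ZMod N) = χ (n : ZMod q) := by
  have h := DirichletCharacter.changeLevel_eq_cast_of_dvd' χ d (a := (n : ℤ))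
    (Nat.isCoprime_iff_coprime.2 hn)
  push_cast at h
  exact h

theorem S03_psi_apply {q1 q2 N : ℕ} [NeZero q2] (χ1 : DirichletCharacter ℂ q1)
    (χ2 : DirichletCharacter ℂ q2) (d1 : q1 ∣ N) (d2 : q2 ∣ N) (n : ℕ) :
    qc χ1 χ2 N n = S03_psi χ1 χ2 d1 d2 (n : ZMod N) := by
  unfold qc rs S03_psi
  by_cases hn : n.Coprime N
  · rw [if_pos hn, MulChar.mul_apply, S03_level χ1 d1 hn, MulChar.inv_apply_eq_inv',
      S03_level χ2 d2 hn]
    simp only []
    congr 1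
    have hu : IsUnit ((n : ZMod q2)) :=
      (ZMod.isUnit_iff_coprime n q2).2 (hn.coprime_dvd_right d2)
    obtain ⟨u, hu⟩ := hu
    rw [← hu]
    have h1 : ‖χ2 (u : ZMod q2)‖ = 1 := DirichletCharacter.unit_norm_eq_one χ2 u
    exact (Complex.inv_eq_conj h1).symm
  · rw [if_neg hn]
    symm
    refine MulChar.map_nonunit _ ?_
    rwa [ZMod.isUnit_iff_coprime]

theorem S03_ne_one {q1 q2 N : ℕ} [NeZero q1] [NeZero q2] [NeZero N] {χ1 : DirichletCharacter ℂ q1}
    {χ2 : DirichletCharacter ℂ q2} (d1 : q1 ∣ N) (d2 : q2 ∣ N)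
    (hne : OO.Ne12 χ1 χ2) : S03_psi χ1 χ2 d1 d2 ≠ 1 := by
  intro h
  obtain ⟨n, hn, hne⟩ := hne
  apply hne
  unfold S03_psi at h
  rw [mul_inv_eq_one] at h
  have l1 : q1 ∣ Nat.lcm q1 q2 := Nat.dvd_lcm_left q1 q2
  have l2 : q2 ∣ Nat.lcm q1 q2 := Nat.dvd_lcm_right q1 q2
  have l : Nat.lcm q1 q2 ∣ N := Nat.lcm_dvd d1 d2
  rw [DirichletCharacter.changeLevel_trans χ1 l1 l, DirichletCharacter.changeLevel_trans χ2 l2 l] at h
  have h2 := DirichletCharacter.changeLevel_injective l h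
  have hn' : n.Coprime (Nat.lcm q1 q2) := hn.coprime_dvd_right (Nat.lcm_dvd_mul q1 q2)
  rw [← S03_level χ1 l1 hn', ← S03_level χ2 l2 hn', h2]

theorem S03_range {N : ℕ} [NeZero N] (h : ZMod N → ℂ) :
    ∑ i ∈ Finset.range N, h (i : ZMod N) = ∑ x : ZMod N, h x := by
  refine Finset.sum_nbij' (fun i => (i : ZMod N)) ZMod.val ?_ ?_ ?_ ?_ ?_
  · intro i _
    exact Finset.mem_univ _
  · intro x _
    exact Finset.mem_range.2 (ZMod.val_lt x)
  · intro i hi
    exact ZMod.val_cast_of_lt (Finset.mem_range.1 hi)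
  · intro x _
    exact ZMod.natCast_zmod_val x
  · intro i _
    rfl

theorem S03_psum {N : ℕ} [NeZero N] {ψ : DirichletCharacter ℂ N} (hψ : ψ ≠ 1) (x : ℕ) :
    ‖∑ n ∈ Icc 1 x, ψ (n : ZMod N)‖ ≤ N := by
  have e0 : ∀ x : ℕ, ∑ n ∈ Icc 1 x, ψ (n : ZMod N) =
      ∑ g ∈ Finset.range x, ψ ((g + 1 : ℕ) : ZMod N) := by
    intro x
    induction x with
    | zero => simp
    | succ x ih => rw [Finset.sum_Icc_succ_top (by omega), ih, Finset.sum_range_succ]
  rw [e0]
  set G : ℕ → ℂ := fun x => ∑ g ∈ Finset.range x, ψ ((g + 1 : ℕ) : ZMod N) with hG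
  have hper : Function.Periodic G N := by
    intro M
    have h0 := MulChar.sum_eq_zero_of_ne_one hψ
    rw [← Equiv.sum_comp (Equiv.addLeft ((M + 1 : ℕ) : ZMod N)), ← S03_range] at h0
    rw [hG]
    simp only
    rw [Finset.sum_range_add]
    rw [add_eq_left, ← h0]
    refine Finset.sum_congr rfl fun i _ => ?_
    have e3 : (Equiv.addLeft ((M + 1 : ℕ) : ZMod N)) (i : ZMod N) =
        ((M + i + 1 : ℕ) : ZMod N) := by
      rw [Equiv.coe_addLeft]
      push_cast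
      ring
    rw [e3]
  change ‖G x‖ ≤ _
  rw [← hper.map_mod_nat]
  rw [hG]
  refine (norm_sum_le _ _).trans ?_
  refine (Finset.sum_le_sum (fun g _ => DirichletCharacter.norm_le_one ψ _)).trans ?_
  rw [Finset.sum_const, Finset.card_range, nsmul_eq_mul, mul_one]
  have h2 : x % N ≤ N := (Nat.mod_lt _ (Nat.pos_of_ne_zero (NeZero.ne N))).le
  exact_mod_cast h2

/-- qc is completely multiplicative with bounded partial sums -/
theorem qc_CM {q1 q2 : ℕ} [NeZero q1] [NeZero q2] {χ1 : DirichletCharacter ℂ q1} {χ2 : DirichletCharacter ℂ q2}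
    (hne : OO.Ne12 χ1 χ2) {N : ℕ} (hN : 0 < N) (d1 : q1 ∣ N) (d2 : q2 ∣ N) :
    CM (qc χ1 χ2 N) N ∧ CM (fun d => conj (qc χ1 χ2 N d)) N := by
  have : NeZero N := ⟨hN.ne'⟩
  have e : ∀ n, qc χ1 χ2 N n = S03_psi χ1 χ2 d1 d2 (n : ZMod N) := S03_psi_apply χ1 χ2 d1 d2
  have hp := S03_psum (S03_ne_one d1 d2 hne)
  refine ⟨⟨?_, ?_, ?_⟩, ⟨?_, ?_, ?_⟩⟩
  · intro m n
    rw [e, e, e, Nat.cast_mul, map_mul]
  · intro n
    rw [e]
    exact DirichletCharacter.norm_le_one _ _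
  · intro x
    simp only [e]
    exact hp x
  · intro m n
    simp only []
    rw [e, e, e, Nat.cast_mul, map_mul, map_mul]
  · intro n
    simp only []
    rw [RCLike.norm_conj, e]
    exact DirichletCharacter.norm_le_one _ _
  · intro x
    simp only [e]
    rw [← map_sum, RCLike.norm_conj]
    exact hp x

end RQ
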